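import Pool.Agent.Lib.MP_6e7c44_mp.MR.FamA

/-! From the cone at the Lagrange state to the first step of a tube. -/

set_option autoImplicit false

open Set Complex Filter Topology

noncomputable section

namespace Pool.Agent.Lib.MP_6e7c44_mp.MR

open LA

theorem init_sign {k u y R D : ℝ} (k0 : 0 < k) (R0 : 0 < R) (h1 : (R + D) / k ≤ |u|)
    (h2 : |y - k * u| ≤ D) : 0 < 64 / 63 * u ∧ R ≤ y ∨ 64 / 63 * u < 0 ∧ y ≤ -R := by
  have h3 := abs_le.1 h2
  rw [div_le_iff₀ k0] at h1
  rcases le_total 0 u with h | h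
  · rw [abs_of_nonneg h] at h1
    refine Or.inl ⟨?_, by linarith⟩
    rcases h.eq_or_lt with e | e
    · rw [← e] at h1; linarith
    · linarith
  · rw [abs_of_nonpos h] at h1
    refine Or.inr ⟨?_, by linarith⟩
    rcases h.eq_or_lt with e | e
    · rw [e] at h1; linarith
    · linarith

theorem near_of {μ : Fin 3 → ℝ} (hμ : RS.Ms μ) {c : LC} (hc : c.OK ((μ 0 - μ 1) / 2) (μ 2))
    {n : ℕ} {s : SS} {l : List SS} (hi : c.Init s) (ch : Chain ((μ 0 - μ 1) / 2) (μ 2) n s l) :
    Near μ := by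
  obtain ⟨κ, κ', D, D', k0, k1, hR, hD⟩ := hi
  have cp : Continuous phys := by
    unfold phys
    refine Continuous.prodMk (continuous_pi fun i => ?_) (continuous_pi fun i => ?_) <;>
      fin_cases i <;> simp <;> fun_prop
  refine mem_closure_iff_nhds.2 fun U hU => ?_
  obtain ⟨X, cX, nX, he, hX⟩ := LC.fam hμ hc (cp.continuousAt.preimage_mem_nhds hU)
  have ey : ∀ z, xL + c.C.mulVec (c.y z) = co z := fun z => by
    rw [LC.y, Matrix.mulVec_mulVec, Matrix.mul_nonsing_inv _ (Ne.isUnit hc.det),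
      Matrix.one_mulVec, add_sub_cancel]
  have cy : ∀ j, Continuous fun ξ => c.y (X ξ) j := fun j =>
    (continuous_apply j).comp (continuous_const.matrix_mulVec
      ((co_cont.comp cX).sub continuous_const))
  have cs : Continuous fun ξ => (64 / 63 : ℝ) • (⟨c.y (X ξ) .i0, c.y (X ξ) .i1⟩ : ℂ) := by
    have h0 := cy .i0
    have h1 := cy .i1
    simp only [mk_eq_add_mul_I]
    fun_prop
  have R0 := ch.ok.R0
  have hd := fun ξ h => hD _ (hX ξ h).1
  simp only [ey] at hd
  obtain ⟨ξ, hξ, h⟩ := chain_main hμ cX nX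
    (isClosed_univ.inter (isClosed_le (continuous_norm.comp cs) (continuous_const (y := 1)))) ch
    (ess_step (N' := nM) continuous_norm (by simp) isClosed_univ cs
      (ch.ok.cg.comp (co_cont.comp cX)) he fun ξ _ h => by
        have n := sq_norm' ((64 / 63 : ℝ) • (⟨c.y (X ξ) .i0, c.y (X ξ) .i1⟩ : ℂ))
        rw [h] at n
        simp only [smul_re, smul_im, smul_eq_mul] at n
        have d := hd ξ h.le
        by_cases h0 : (s.R .i0 + D) / κ ≤ |c.y (X ξ) .i0|
        · have := sign_ge (R0 _) (init_sign k0 (R0 _) h0 d.1)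
          exact ⟨this.1.trans (le_max_left _ _), fun t ht h0 =>
            this.2 t ht (by simpa [SS.g] using congrArg re h0)⟩
        · have h1 : (s.R .i1 + D') / κ' ≤ |c.y (X ξ) .i1| := by
            by_contra h1
            have a0 := pow_lt_pow_left₀ (not_le.1 h0) (abs_nonneg _) two_ne_zero
            have a1 := pow_lt_pow_left₀ (not_le.1 h1) (abs_nonneg _) two_ne_zero
            rw [sq_abs] at a0 a1
            nlinarith
          have := sign_ge (R0 _) (init_sign k1 (R0 _) h1 d.2.1)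
          exact ⟨this.1.trans (le_max_right _ _), fun t ht h0 =>
            this.2 t ht (by simpa [SS.g] using congrArg im h0)⟩)
    fun ξ hξ h => (hd ξ hξ.2).2.2 (box_exit (R0 _) h (Or.inl rfl)) (box_exit (R0 _) h (Or.inr rfl))
  obtain ⟨z, h1, h2⟩ := (hX ξ hξ.2).2 h
  exact ⟨_, h1, h2⟩

end Pool.Agent.Lib.MP_6e7c44_mp.MR
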