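import Pool.Agent.Lib.MP_6e7c44_mp.MR.Glue

/-! Covering the region of masses with rectangles. -/

set_option autoImplicit false

namespace Pool.Agent.Lib.MP_6e7c44_mp.MR

/-- The region of normalised masses. -/
def Rg (μ : Fin 3 → ℝ) : Prop := 15 * μ 2 ≤ 2 ∧ 2 * μ 2 ≤ μ 0 ∧ μ 1 ≤ 14 * μ 0

/-- The part of the region in a column above a level is covered. -/
def Up (a b c : ℕ) : Prop := ∀ μ : Fin 3 → ℝ, RS.Ms μ → Rg μ →
  (a : ℝ) ≤ (μ 1 - μ 0) / 2 * 2 ^ 20 → (μ 1 - μ 0) / 2 * 2 ^ 20 ≤ b →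
  (c : ℝ) ≤ μ 2 * 2 ^ 20 → Cert μ

lemma Up.v {a b c d : ℕ} (h1 : Cov a b c d) (h2 : Up a b d) : Up a b c :=
  fun μ hμ r a1 a2 a3 => (le_total _ (d : ℝ)).elim (fun h => h1 μ hμ a1 a2 a3 h)
    fun h => h2 μ hμ r a1 a2 h

lemma Up.w {a b c d a' b' c' : ℕ} (h1 : Cov a' b' c' d) (h : a' ≤ a ∧ b ≤ b' ∧ c' ≤ c)
    (h2 : Up a b d) : Up a b c := .v (h1.mono h.1 h.2.1 h.2.2 le_rfl) h2

lemma Up.h {a b c m : ℕ} (h1 : Up a m c) (h2 : Up m b c) : Up a b c :=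
  fun μ hμ r a1 a2 a3 => (le_total _ (m : ℝ)).elim (fun h => h1 μ hμ r a1 h a3)
    fun h => h2 μ hμ r h a2 a3

lemma Up.nil {a b c : ℕ}
    (h : 2097152 < 15 * c ∨ 1048576 < 2 * a + 5 * c ∨ 13631488 < 30 * a + 13 * c) : Up a b c := by
  intro μ hμ r a1 _ a3
  obtain ⟨r1, r2, r3⟩ := r
  have s := hμ.2
  rcases h with h | h | h <;> have h' := (Nat.cast_lt (α := ℝ)).2 h <;> push_cast at h' <;>
    norm_num at a1 a3 <;> linarith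

lemma Up.all (h : Up 0 1048576 0) {μ : Fin 3 → ℝ} (hμ : RS.Ms μ) (r : Rg μ) (o : μ 0 ≤ μ 1) :
    Cert μ := by
  have p0 := hμ.1 0
  have p2 := hμ.1 2
  have s := hμ.2
  refine h μ hμ r ?_ ?_ ?_ <;> norm_num <;> linarith

end Pool.Agent.Lib.MP_6e7c44_mp.MR
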