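import Pool.Agent.Lib.MP_6e7c44_mp.LA.StepC

/-!
Polynomial models in the time, two parameters and six coordinates, stored as the difference of two
values at a power of two, with a bound on the coefficients and an error bound.
-/

set_option autoImplicit false

namespace Pool.Agent.Lib.MP_6e7c44_mp.MR

open LA hiding TM Rep Pt

/-- The model: positive part, negative part, coefficient bound, error bound. -/
structure TM where
  P : ℕ
  N : ℕ
  b : ℕ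
  r : ℕ

def x1 : ℕ := 340282366920938463463374607431768211455
/-- `k` ones at the distance of `s` digits. -/
def gs (s k : ℕ) : ℕ := Nat.div (Nat.sub (Nat.shiftLeft 1 (Nat.mul (Nat.mul 128 s) k)) 1)
  (Nat.sub (Nat.shiftLeft 1 (Nat.mul 128 s)) 1)
def pm : ℕ → ℕ
  | 0 => 1
  | d + 1 => Nat.add (gs 14 (Nat.add d 2)) (Nat.shiftLeft (pm d) 12544)
def fm (b T dp R : ℕ) : ℕ := Nat.mul (Nat.mul (Nat.mul (Nat.sub (Nat.shiftLeft 1 b) 1) T) (pm dp)) R
def oS : ℕ := gs 1 602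
def oV : ℕ := gs 1 4214
def fu (o : ℕ) : ℕ := Nat.mul o 20769187434139310514121985316880383
def mQ : ℕ := fm 114 (gs 1 5) 5 (gs 602 7)
def ge : ℕ := Nat.shiftLeft (gs 2 3) 128

namespace TM
def cst (a : ℕ) : TM := ⟨a, 0, a, 0⟩
def add (p q : TM) : TM := ⟨Nat.add p.P q.P, Nat.add p.N q.N, Nat.add p.b q.b, Nat.add p.r q.r⟩
def neg (p : TM) : TM := ⟨p.N, p.P, p.b, p.r⟩
def sub (p q : TM) : TM := ⟨Nat.add p.P q.N, Nat.add p.N q.P, Nat.add p.b q.b, Nat.add p.r q.r⟩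
def u (p : TM) : ℕ := Nat.sub p.P p.N
def v (p : TM) : ℕ := Nat.sub p.N p.P
def mul (p q : TM) : TM := ⟨Nat.add (Nat.mul p.u q.u) (Nat.mul p.v q.v),
  Nat.add (Nat.mul p.u q.v) (Nat.mul p.v q.u), Nat.mul p.b q.b,
  Nat.add (Nat.mul p.b q.r) (Nat.mul p.r (Nat.add q.b q.r))⟩
def smul (a : ℕ) (p : TM) : TM := ⟨Nat.mul a p.P, Nat.mul a p.N, Nat.mul a p.b, Nat.mul a p.r⟩
def up (s : ℕ) (p : TM) : TM :=
  ⟨Nat.shiftLeft p.P s, Nat.shiftLeft p.N s, Nat.shiftLeft p.b s, Nat.shiftLeft p.r s⟩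
def err (a : ℕ) (p : TM) : TM := ⟨p.P, p.N, p.b, Nat.add p.r a⟩
/-- The product with the monomial of index `k`. -/
def sh (k : ℕ) (p : TM) : TM :=
  ⟨Nat.shiftLeft p.P (Nat.mul 128 k), Nat.shiftLeft p.N (Nat.mul 128 k), p.b, p.r⟩
def su (o : ℕ) (p : TM) : ℕ := Nat.sub (Nat.add p.P (Nat.shiftLeft o 127)) p.N
def sg (o w : ℕ) : ℕ := Nat.land (Nat.shiftRight w 127) o
def sp (o w : ℕ) : ℕ := Nat.land w (Nat.mul (sg o w) x1)
/-- The digits that are positive. -/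
def pp (o : ℕ) (p : TM) : ℕ := Nat.sub (sp o (su o p)) (Nat.shiftLeft (sg o (su o p)) 127)
/-- The digits that are negative. -/
def pn (o : ℕ) (p : TM) : ℕ := Nat.sub (Nat.shiftLeft (Nat.sub o (sg o (su o p))) 127)
  (Nat.sub (su o p) (sp o (su o p)))
def nb2 (p : TM) (P N : ℕ) : ℕ :=
  cond (Nat.beq (Nat.add p.P N) (Nat.add p.N P) && Nat.ble (Nat.add p.b (Nat.mod (Nat.add P N) x1)) x1)
    (Nat.mod (Nat.add P N) x1) p.b
/-- A bound of the represented number. -/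
def bnd (o : ℕ) (p : TM) : ℕ :=
  Nat.add (nb2 p (Nat.land (pp o p) (fu o)) (Nat.land (pn o p) (fu o))) p.r
def bd0 (p : TM) : ℕ := Nat.add p.b p.r
def ofPN (P N : ℕ) : TM := ⟨P, N, Nat.mod (Nat.add P N) x1, 0⟩
def ex (m P N : ℕ) : TM := ofPN (Nat.land P m) (Nat.land N m)
def tr2 (o s : ℕ) (p q : TM) : TM := err (dn (bnd o (sub p (up s q))) s) q
/-- Rounding: `s` bits less, only the places of the mask `m`. -/
def tr (o m s : ℕ) (p : TM) : TM :=
  tr2 o s p (ex m (Nat.shiftRight (pp o p) s) (Nat.shiftRight (pn o p) s))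
def ev12 (p q : TM) : TM := sub (add p q) (sh 1 q)
/-- The value at the time `1`. -/
def ev1 (p : TM) : TM := ev12 p (ex mQ (Nat.shiftRight (Nat.mul (pp oV p) (gs 1 6)) 768)
  (Nat.shiftRight (Nat.mul (pn oV p) (gs 1 6)) 768))
def evm2 (p q : TM) : TM := sub p (add q (sh 1 q))
/-- The value at the time `-1`. -/
def evm (p : TM) : TM := evm2 p (ex mQ
  (Nat.shiftRight (Nat.add (Nat.mul (pp oV p) ge) (Nat.mul (pn oV p) (gs 2 3))) 768)
  (Nat.shiftRight (Nat.add (Nat.mul (pp oV p) (gs 2 3)) (Nat.mul (pn oV p) ge)) 768))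
/-- A lower bound: the represented number is at least `lo.1 - lo.2`. -/
def pos2 (o : ℕ) (p : TM) (g : ℕ) : Bool := Nat.blt (bnd o (sub p (cst g))) g
def pos (o : ℕ) (p : TM) : Bool := pos2 o p (Nat.land (pp o p) x1)
end TM

/-- A time, two parameters and six coordinates in the unit cube. -/
structure Pt where
  x : ℝ
  p : ℝ
  q : ℝ
  y : I6 → ℝ
  hx : |x| ≤ 1
  hp : |p| ≤ 1
  hq : |q| ≤ 1
  hy : ∀ j, |y j| ≤ 1

def zz (y : I6 → ℝ) : ℕ → ℝ
  | 0 => 1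
  | 1 => y .i0
  | 2 => y .i1
  | 3 => y .i2
  | 4 => y .i3
  | 5 => y .i4
  | 6 => y .i5
  | _ => 0

lemma zz_n (y : I6 → ℝ) (j : I6) : zz y j.n = y j := by cases j <;> rfl

noncomputable def ψ (p q : ℝ) (j : ℕ) : ℝ := p ^ (j % 7) * q ^ (j / 7)

namespace Pt
variable (π : Pt)
noncomputable def ζ (j : ℕ) : ℝ := ψ π.p π.q (j % 43) * zz π.y (j / 43)
noncomputable def φ (k : ℕ) : ℝ := π.x ^ (k % 14) * π.ζ (k / 14)

lemma φ_le (k : ℕ) : |π.φ k| ≤ 1 := by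
  have h : ∀ n, |zz π.y n| ≤ 1 := fun n => by unfold zz; split <;> simp [π.hy]
  simp only [φ, ζ, ψ, abs_mul, abs_pow]
  exact mul_le_one₀ (pow_le_one₀ (abs_nonneg _) π.hx) (by positivity) (mul_le_one₀ (mul_le_one₀
    (pow_le_one₀ (abs_nonneg _) π.hp) (by positivity) (pow_le_one₀ (abs_nonneg _) π.hq))
    (abs_nonneg _) (h _))

lemma φ_zero : π.φ 0 = 1 := by simp [φ, ζ, ψ, zz]
end Pt

/-- Degree at most `dx` in the time, total degree at most `dp` in the parameters, row at most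
`dr`. -/
def Dg (dx dp dr i : ℕ) : Prop :=
  i % 14 ≤ dx ∧ i / 14 % 43 % 7 + i / 14 % 43 / 7 ≤ dp ∧ i / 14 / 43 ≤ dr

lemma Dg.add {dx dp dx' dp' dr i j : ℕ} (h : Dg dx dp 0 i) (h' : Dg dx' dp' dr j)
    (h1 : dx + dx' < 14) (h2 : dp + dp' ≤ 6) : Dg (dx + dx') (dp + dp') dr (i + j) ∧
      ∀ π : Pt, π.φ (i + j) = π.φ i * π.φ j := by
  obtain ⟨a1, a2, a3⟩ := h
  obtain ⟨b1, b2, b3⟩ := h'
  have e1 : (i + j) % 14 = i % 14 + j % 14 := by omega
  have e2 : (i + j) / 14 = i / 14 + j / 14 := by omega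
  simp only [Dg, Pt.φ, Pt.ζ, e1, e2]
  generalize i / 14 = s at *
  generalize j / 14 = t at *
  have e3 : (s + t) % 43 = s % 43 + t % 43 := by omega
  have e4 : (s + t) / 43 = t / 43 := by omega
  have e5 : s / 43 = 0 := by omega
  simp only [e3, e4, e5, ψ]
  generalize s % 43 = s' at *
  generalize t % 43 = t' at *
  have e6 : (s' + t') % 7 = s' % 7 + t' % 7 := by omega
  have e7 : (s' + t') / 7 = s' / 7 + t' / 7 := by omega
  simp only [e6, e7, pow_add, zz]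
  exact ⟨by omega, fun π => by ring⟩

/-- `k` represents the real number `a` with `e` binary places. -/
def Rep (π : Pt) (e dx dp dr : ℕ) (k : TM) (a : ℝ) : Prop :=
  ∃ L : List (ℤ × ℕ), evX (2 ^ 128 : ℕ) L = (k.P : ℤ) - k.N ∧ nrm L ≤ k.b ∧
    (∀ t ∈ L, Dg dx dp dr t.2) ∧ |a * 2 ^ e - sem π.φ L| ≤ k.r

/-- The mask `m` selects digits of at most `114` bits at places with the property `S`. -/
def Mk (m : ℕ) (S : ℕ → Prop) : Prop := ∀ P, ∃ (L : List (ℤ × ℕ)) (q : ℕ),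
  evX (2 ^ 128 : ℕ) L = (Nat.land P m : ℕ) ∧ Nat.land P m = nrm L + x1 * q ∧
    nrm L ≤ 4214 * 2 ^ 114 ∧ ∀ t ∈ L, S t.2

def cM : Fm := ⟨128, 4214, 14⟩
def sp (dp j : ℕ) : Bool := Nat.ble (Nat.add (Nat.mod j 7) (Nat.div j 7)) dp
def sr (dp : ℕ) (rs : ℕ → Bool) (j : ℕ) : Bool := sp dp (Nat.mod j 43) && rs (Nat.div j 43)

lemma mk_msk {b dx dp dr : ℕ} {rs t : ℕ → Bool} (hb : b ≤ 114) (hr : ∀ j, rs j → j ≤ dr)
    (ht : ∀ k, t k → k ≤ dx) : Mk (msk cM b (sr dp rs) t) (Dg dx dp dr) := fun P => by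
  obtain ⟨L, q, a1, a2, a3, a4, -⟩ := land_msk cM (m := 301) (by decide) rfl
    (hb.trans (by decide)) (sr dp rs) t P
  refine ⟨L, q, a1, a2, a3.trans (Nat.mul_le_mul_left _ (Nat.pow_le_pow_right two_pos hb)),
    fun u hu => ?_⟩
  obtain ⟨b1, b2⟩ := a4 u hu
  simp only [sr, sp, Bool.and_eq_true, Nat.ble_eq, Nat.add_eq, ndiv, nmod] at b1
  exact ⟨ht _ b2, b1.1, hr _ b1.2⟩

lemma sem_zero' (φ : ℕ → ℝ) {L : List (ℤ × ℕ)} (h1 : nrm L < 2 ^ 128)
    (h3 : evX (2 ^ 128 : ℕ) L = 0) : sem φ L = 0 := by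
  obtain ⟨n, hn⟩ : ∃ n, ∀ t ∈ L, t.2 < n := ⟨(L.map Prod.snd).sum + 1, fun t ht =>
    Nat.lt_succ_of_le (List.le_sum_of_mem (List.mem_map_of_mem ht))⟩
  exact sem_zero φ (X := 2 ^ 128) h1 hn (h3 ▸ dvd_zero _)

lemma sum_mod {P N a b q q' : ℕ} (h1 : P = a + x1 * q) (h2 : N = b + x1 * q')
    (h3 : a ≤ 4214 * 2 ^ 114) (h4 : b ≤ 4214 * 2 ^ 114) : Nat.mod (Nat.add P N) x1 = a + b := by
  have lt : a + b < x1 := by unfold x1; omega
  show (P + N) % x1 = _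
  rw [h1, h2, show a + x1 * q + (b + x1 * q') = a + b + x1 * (q + q') by ring,
    Nat.add_mul_mod_self_left, Nat.mod_eq_of_lt lt]

namespace Rep
variable {π : Pt} {e f dx dp dr dx' dp' dr' : ℕ} {p q : TM} {a b : ℝ}

lemma mono (h : Rep π e dx dp dr p a) (h1 : dx ≤ dx') (h2 : dp ≤ dp') (h3 : dr ≤ dr') :
    Rep π e dx' dp' dr' p a := by
  obtain ⟨L, a1, a2, a3, a4⟩ := h
  exact ⟨L, a1, a2, fun t ht => ⟨(a3 t ht).1.trans h1, (a3 t ht).2.1.trans h2,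
    (a3 t ht).2.2.trans h3⟩, a4⟩

lemma congr (h : Rep π e dx dp dr p a) (h1 : a = b) : Rep π e dx dp dr p b := h1 ▸ h

lemma scale (h : Rep π e dx dp dr p a) (h1 : b * 2 ^ f = a * 2 ^ e) : Rep π f dx dp dr p b := by
  obtain ⟨L, a1, a2, a3, a4⟩ := h
  exact ⟨L, a1, a2, a3, h1 ▸ a4⟩

lemma cst (π : Pt) (e dx dp dr n : ℕ) : Rep π e dx dp dr (TM.cst n) (n / 2 ^ e) :=
  ⟨[(n, 0)], by simp [TM.cst], by simp [TM.cst], by simp [Dg], by simp [TM.cst, π.φ_zero]⟩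

lemma cs (e dx dp dr n : ℕ) (h : a * 2 ^ e = n) : Rep π e dx dp dr (.cst n) a :=
  (Rep.cst π e dx dp dr _).scale (by rw [h]; simp)

lemma add (hp : Rep π e dx dp dr p a) (hq : Rep π e dx dp dr q b) :
    Rep π e dx dp dr (p.add q) (a + b) := by
  obtain ⟨L, a1, a2, a3, a4⟩ := hp
  obtain ⟨M, b1, b2, b3, b4⟩ := hq
  refine ⟨L ++ M, ?_, by simpa [TM.add] using add_le_add a2 b2,
    fun t ht => (List.mem_append.1 ht).elim (a3 t) (b3 t), ?_⟩
  · simp only [evX_app, a1, b1, TM.add, Nat.add_eq]; push_cast; ring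
  · exact ab ((abs_add_le _ _).trans (add_le_add a4 b4)) (by simp; ring) (by simp [TM.add])

lemma neg (hp : Rep π e dx dp dr p a) : Rep π e dx dp dr p.neg (-a) := by
  obtain ⟨L, a1, a2, a3, a4⟩ := hp
  refine ⟨lsm (-1) 0 L, ?_, by simpa [nrm_lsm, TM.neg] using a2, fun t ht => ?_, ?_⟩
  · simp only [evX_lsm, a1, TM.neg]; ring
  · obtain ⟨u, hu, rfl⟩ := List.mem_map.1 ht
    simpa using a3 u hu
  · rw [sem_lsm _ _ _ _ fun t _ => by simp [π.φ_zero], π.φ_zero, ← abs_neg]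
    exact ab a4 (by push_cast; ring) rfl

lemma sub (hp : Rep π e dx dp dr p a) (hq : Rep π e dx dp dr q b) :
    Rep π e dx dp dr (p.sub q) (a - b) := (hp.add hq.neg).congr (sub_eq_add_neg _ _).symm

lemma err (hp : Rep π e dx dp dr p a) {n : ℕ} (h : |b - a| * 2 ^ e ≤ n) :
    Rep π e dx dp dr (p.err n) b := by
  obtain ⟨L, a1, a2, a3, a4⟩ := hp
  refine ⟨L, a1, a2, a3, ?_⟩
  have h1 : |(b - a) * 2 ^ e| ≤ n := by rwa [abs_mul, abs_of_pos (a := (2 : ℝ) ^ e) (by positivity)]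
  exact ab ((abs_add_le _ _).trans (add_le_add a4 h1)) (by ring) (by simp [TM.err])

lemma uv (p : TM) : (p.u : ℤ) - p.v = p.P - p.N := by
  simp only [TM.u, TM.v, Nat.sub_eq]; omega

/-- The product of a model without coordinates with an arbitrary model. -/
lemma mul (hp : Rep π e dx dp 0 p a) (hq : Rep π f dx' dp' dr q b) (h : dx + dx' < 14)
    (h' : dp + dp' ≤ 6) : Rep π (e + f) (dx + dx') (dp + dp') dr (p.mul q) (a * b) := by
  obtain ⟨L, a1, a2, a3, a4⟩ := hp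
  obtain ⟨M, b1, b2, b3, b4⟩ := hq
  have lt := fun t ht u hu => (a3 t ht).add (b3 u hu) h h'
  refine ⟨lml L M, ?_, by rw [nrm_lml]; exact Nat.mul_le_mul a2 b2, fun t ht => ?_, ?_⟩
  · simp only [evX_lml, a1, b1, ← uv p, ← uv q, TM.mul, Nat.mul_eq, Nat.add_eq]; push_cast; ring
  · obtain ⟨u, hu, ht⟩ := List.mem_flatMap.1 ht
    obtain ⟨w, hw, rfl⟩ := List.mem_map.1 ht
    exact (lt u hu w hw).1
  · rw [sem_lml _ _ _ fun t ht u hu => (lt t ht u hu).2 π]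
    have c1 : |sem π.φ L| ≤ p.b := (abs_sem_le π.φ_le L).trans (by exact_mod_cast a2)
    have c2 : |sem π.φ M| ≤ q.b := (abs_sem_le π.φ_le M).trans (by exact_mod_cast b2)
    have e1 : a * b * 2 ^ (e + f) - sem π.φ L * sem π.φ M = sem π.φ L * (b * 2 ^ f - sem π.φ M)
        + (a * 2 ^ e - sem π.φ L) * (sem π.φ M + (b * 2 ^ f - sem π.φ M)) := by ring
    rw [e1]
    refine (abs_add_le _ _).trans ?_
    simp only [TM.mul, Nat.add_eq, Nat.mul_eq, abs_mul]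
    push_cast
    gcongr
    exact (abs_add_le _ _).trans (add_le_add c2 b4)

lemma smul (n : ℕ) (hp : Rep π e dx dp dr p a) : Rep π e dx dp dr (p.smul n) (n * a) := by
  obtain ⟨L, a1, a2, a3, a4⟩ := hp
  refine ⟨lsm n 0 L, ?_, by simpa [nrm_lsm, TM.smul] using Nat.mul_le_mul_left n a2,
    fun t ht => ?_, ?_⟩
  · simp only [evX_lsm, a1, TM.smul, Nat.mul_eq]; push_cast; ring
  · obtain ⟨u, hu, rfl⟩ := List.mem_map.1 ht
    simpa using a3 u hu
  · rw [sem_lsm _ _ _ _ fun t _ => by simp [π.φ_zero], π.φ_zero]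
    have : |n * (a * 2 ^ e - sem π.φ L)| ≤ n * p.r := by
      rw [abs_mul, Nat.abs_cast]; gcongr
    exact ab this (by push_cast; ring) (by simp [TM.smul])

lemma up (s : ℕ) (hp : Rep π e dx dp dr p a) : Rep π (e + s) dx dp dr (p.up s) a := by
  have := (hp.smul (2 ^ s)).scale (f := e + s) (b := a) (by push_cast; ring)
  simpa [TM.smul, TM.up, Nat.shiftLeft_eq, mul_comm] using this

lemma sh (k : ℕ) (hp : Rep π e dx dp dr p a)
    (h : ∀ i, Dg dx dp dr i → Dg dx' dp' dr' (k + i) ∧ π.φ (k + i) = π.φ k * π.φ i) :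
    Rep π e dx' dp' dr' (p.sh k) (π.φ k * a) := by
  obtain ⟨L, a1, a2, a3, a4⟩ := hp
  refine ⟨lsm 1 k L, ?_, by simpa [nrm_lsm, TM.sh] using a2, fun t ht => ?_, ?_⟩
  · simp only [evX_lsm, a1, TM.sh, Nat.mul_eq, Nat.shiftLeft_eq', Nat.shiftLeft_eq, pow_mul]
    push_cast; ring
  · obtain ⟨u, hu, rfl⟩ := List.mem_map.1 ht
    exact (h _ (a3 u hu)).1
  · rw [sem_lsm _ _ _ _ fun t ht => (h _ (a3 t ht)).2]
    have : |π.φ k * (a * 2 ^ e - sem π.φ L)| ≤ 1 * p.r := by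
      rw [abs_mul]; exact mul_le_mul (π.φ_le k) a4 (abs_nonneg _) zero_le_one
    exact ab this (by push_cast; ring) (by simp [TM.sh])

/-- The product with the time. -/
lemma shx (hp : Rep π e dx dp dr p a) (h : 1 + dx < 14) (h' : dp ≤ 6) :
    Rep π e (1 + dx) dp dr (p.sh 1) (π.x * a) := by
  have := hp.sh (dx' := 1 + dx) (dp' := 0 + dp) (dr' := dr) 1 fun i hi =>
    ⟨((show Dg 1 0 0 1 by simp [Dg]).add hi h (by omega)).1,
      ((show Dg 1 0 0 1 by simp [Dg]).add hi h (by omega)).2 π⟩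
  simpa [Pt.φ, Pt.ζ, ψ, zz] using this

/-- The product with the first parameter. -/
lemma shp (hp : Rep π e dx dp dr p a) (h : dx < 14) (h' : 1 + dp ≤ 6) :
    Rep π e dx (1 + dp) dr (p.sh 14) (π.p * a) := by
  have := hp.sh (dx' := 0 + dx) (dp' := 1 + dp) (dr' := dr) 14 fun i hi =>
    ⟨((show Dg 0 1 0 14 by simp [Dg]).add hi (by omega) h').1,
      ((show Dg 0 1 0 14 by simp [Dg]).add hi (by omega) h').2 π⟩
  simpa [Pt.φ, Pt.ζ, ψ, zz] using this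

/-- The product with the second parameter. -/
lemma shq (hp : Rep π e dx dp dr p a) (h : dx < 14) (h' : 1 + dp ≤ 6) :
    Rep π e dx (1 + dp) dr (p.sh 98) (π.q * a) := by
  have := hp.sh (dx' := 0 + dx) (dp' := 1 + dp) (dr' := dr) 98 fun i hi =>
    ⟨((show Dg 0 1 0 98 by simp [Dg]).add hi (by omega) h').1,
      ((show Dg 0 1 0 98 by simp [Dg]).add hi (by omega) h').2 π⟩
  simpa [Pt.φ, Pt.ζ, ψ, zz] using this

/-- The product with a coordinate. -/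
lemma shy (j : I6) (hp : Rep π e dx dp 0 p a) (h : dx < 14) (h' : dp ≤ 6) :
    Rep π e dx dp 6 (p.sh (Nat.mul 602 j.n)) (π.y j * a) := by
  have d : Dg 0 0 6 (Nat.mul 602 j.n) := by cases j <;> simp [Dg, I6.n]
  have := hp.sh (dx' := dx + 0) (dp' := dp + 0) (dr' := 6) (Nat.mul 602 j.n) fun i hi => by
    rw [add_comm _ i, mul_comm (π.φ _)]
    exact ⟨(hi.add d h h').1, (hi.add d h h').2 π⟩
  refine this.congr (congrArg (· * a) ?_)
  cases j <;> simp [Pt.φ, Pt.ζ, ψ, zz, I6.n]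

lemma exm (π : Pt) (e : ℕ) {m : ℕ} (hm : Mk m (Dg dx dp dr)) (P N : ℕ) :
    ∃ a, Rep π e dx dp dr (TM.ex m P N) a := by
  obtain ⟨L, q, a1, a2, a3, a4⟩ := hm P
  obtain ⟨M, q', b1, b2, b3, b4⟩ := hm N
  refine ⟨sem π.φ (L ++ lsm (-1) 0 M) / 2 ^ e, L ++ lsm (-1) 0 M, ?_, ?_, fun t ht => ?_, by simp⟩
  · simp only [evX_app, evX_lsm, a1, b1, TM.ex, TM.ofPN]; ring
  · simp only [TM.ex, TM.ofPN, sum_mod a2 b2 a3 b3, nrm_app, nrm_lsm]; simp
  · rcases List.mem_append.1 ht with h | h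
    · exact a4 t h
    · obtain ⟨u, hu, rfl⟩ := List.mem_map.1 h
      simpa using b4 u hu

lemma le0 (hp : Rep π e dx dp dr p a) : |a| * 2 ^ e ≤ p.bd0 := by
  obtain ⟨L, -, a2, -, a4⟩ := hp
  have h0 : |sem π.φ L| ≤ p.b := (abs_sem_le π.φ_le L).trans (by exact_mod_cast a2)
  have h1 := abs_add_le (sem π.φ L) (a * 2 ^ e - sem π.φ L)
  rw [add_sub_cancel, abs_mul, abs_of_pos (a := (2 : ℝ) ^ e) (by positivity)] at h1
  simp only [TM.bd0, Nat.add_eq, Nat.cast_add]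
  linarith

lemma bnd {o : ℕ} (ho : Mk (fu o) fun _ => True) (hp : Rep π e dx dp dr p a) :
    |a| * 2 ^ e ≤ p.bnd o := by
  obtain ⟨M, q, b1, b2, b3, -⟩ := ho (TM.pp o p)
  obtain ⟨N, q', c1, c2, c3, -⟩ := ho (TM.pn o p)
  rw [TM.bnd, TM.nb2, sum_mod b2 c2 b3 c3]
  generalize Nat.land (TM.pp o p) (fu o) = P at *
  generalize Nat.land (TM.pn o p) (fu o) = Q at *
  cases hc : (Nat.beq (Nat.add p.P Q) (Nat.add p.N P) && Nat.ble (Nat.add p.b (nrm M + nrm N)) x1)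
  · exact hp.le0
  obtain ⟨L, a1, a2, a3, a4⟩ := hp
  simp only [Bool.and_eq_true, Nat.beq_eq, Nat.ble_eq, Nat.add_eq] at hc
  have nn : nrm (M ++ lsm (-1) 0 N) = nrm M + nrm N := by simp [nrm_lsm]
  have z := sem_zero' π.φ (L := L ++ lsm (-1) 0 (M ++ lsm (-1) 0 N)) (by
    have h2 := hc.2
    rw [nrm_app, nrm_lsm, nn]
    simp only [Int.natAbs_neg, Int.natAbs_one, x1] at h2 ⊢; omega) (by
    have h1 := congrArg (Nat.cast : ℕ → ℤ) hc.1
    simp only [evX_app, evX_lsm, a1, b1, c1]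
    push_cast at h1 ⊢
    linarith)
  rw [sem_app, sem_lsm _ _ _ _ fun t _ => by simp [π.φ_zero], π.φ_zero] at z
  have h0 := abs_sem_le π.φ_le (M ++ lsm (-1) 0 N)
  have h1 := abs_add_le (sem π.φ L) (a * 2 ^ e - sem π.φ L)
  rw [add_sub_cancel, abs_mul, abs_of_pos (a := (2 : ℝ) ^ e) (by positivity)] at h1
  rw [nn, ← show sem π.φ L = sem π.φ (M ++ lsm (-1) 0 N) by push_cast at z; linarith] at h0
  simp only [cond_true, Nat.add_eq]
  push_cast at h0 ⊢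
  linarith

lemma tr {o m : ℕ} (ho : Mk (fu o) fun _ => True) (hm : Mk m (Dg dx' dp' dr')) (s : ℕ)
    (hp : Rep π (e + s) dx dp dr p a) : Rep π e dx' dp' dr' (p.tr o m s) a := by
  obtain ⟨b, hb⟩ := exm π e hm (Nat.shiftRight (TM.pp o p) s) (Nat.shiftRight (TM.pn o p) s)
  refine hb.err (le_trans ?_ (le_dn _ _))
  have h1 := ((hp.mono (le_max_left dx dx') (le_max_left dp dp') (le_max_left dr dr')).sub
    ((hb.up s).mono (le_max_right _ _) (le_max_right _ _) (le_max_right _ _))).bnd ho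
  rw [le_div_iff₀ (by positivity), mul_assoc, ← pow_add]
  exact h1

lemma pos {o : ℕ} (ho : Mk (fu o) fun _ => True) (hp : Rep π e dx dp dr p a)
    (h : p.pos o = true) : 0 < a := by
  rw [TM.pos, TM.pos2, Nat.blt_eq] at h
  generalize Nat.land _ _ = g at h
  have h1 := ((hp.sub (cst π e dx dp dr g)).bnd ho).trans_lt (Nat.cast_lt.2 h)
  have h2 : (0 : ℝ) < 2 ^ e := by positivity
  have h3 := mul_le_mul_of_nonneg_right (neg_le_abs (a - g / 2 ^ e)) h2.le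
  rw [neg_sub, sub_mul, div_mul_cancel₀ _ h2.ne'] at h3
  exact (mul_pos_iff_of_pos_right h2).1 (by linarith)

/-- A model of degree zero in the time does not depend on the time. -/
lemma ctx {π' : Pt} (hp : Rep π e 0 dp dr p a) (h1 : π'.p = π.p) (h2 : π'.q = π.q)
    (h3 : π'.y = π.y) : Rep π' e 0 dp dr p a := by
  obtain ⟨L, a1, a2, a3, a4⟩ := hp
  refine ⟨L, a1, a2, a3, ?_⟩
  rwa [show sem π'.φ L = sem π.φ L from congrArg List.sum (List.map_congr_left fun t ht => by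
    simp only [Pt.φ, Pt.ζ, h1, h2, h3, Nat.le_zero.1 (a3 t ht).1, pow_zero])]

end Rep

def ra (j : ℕ) : Bool := Nat.ble j 6
lemma h_ra (j : ℕ) (h : ra j) : j ≤ 6 := by simpa [ra] using h

lemma mk_full {o n : ℕ} (h : fu o = mkN 128 (fun _ => 20769187434139310514121985316880383) n 0)
    (hn : n ≤ 4214) : Mk (fu o) fun _ => True := fun P => by
  obtain ⟨L, q, h1, h2, h3, -⟩ := land_mkN 128 114 (fun _ => 20769187434139310514121985316880383)
    (fun _ => by norm_num) (by decide) n 0 P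
  exact ⟨L, q, by simpa [h] using h1, by rw [h]; exact h2,
    h3.trans (Nat.mul_le_mul_right _ hn), fun _ _ => trivial⟩

lemma mk_S : Mk (fu oS) fun _ => True := mk_full (n := 602) (by decide +kernel) (by decide)
lemma mk_V : Mk (fu oV) fun _ => True := mk_full (n := 4214) (by decide +kernel) (by decide)
lemma mk_Q : Mk mQ (Dg 4 5 6) :=
  (show mQ = msk cM 114 (sr 5 ra) (cl 4) by decide +kernel) ▸ mk_msk le_rfl h_ra (h_cl 4)

namespace Rep
variable {π : Pt} {e dx dp : ℕ} {p : TM} {a : ℝ}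

lemma ev1 (hp : Rep π e dx dp 6 p a) (h : 5 ≤ dx) (h' : 5 ≤ dp) (hx : π.x = 1) :
    Rep π e dx dp 6 p.ev1 a := by
  obtain ⟨b, hb⟩ := exm π e mk_Q (Nat.shiftRight (Nat.mul (p.pp oV) (gs 1 6)) 768)
    (Nat.shiftRight (Nat.mul (p.pn oV) (gs 1 6)) 768)
  exact ((hp.add (hb.mono (by omega) h' le_rfl)).sub
    ((hb.shx (by decide) (by decide)).mono h h' le_rfl)).congr (by rw [hx]; ring)

lemma evm (hp : Rep π e dx dp 6 p a) (h : 5 ≤ dx) (h' : 5 ≤ dp) (hx : π.x = -1) :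
    Rep π e dx dp 6 p.evm a := by
  obtain ⟨b, hb⟩ := exm π e mk_Q
    (Nat.shiftRight (Nat.add (Nat.mul (p.pp oV) ge) (Nat.mul (p.pn oV) (gs 2 3))) 768)
    (Nat.shiftRight (Nat.add (Nat.mul (p.pp oV) (gs 2 3)) (Nat.mul (p.pn oV) ge)) 768)
  exact (hp.sub ((hb.mono (by omega) h' le_rfl).add
    ((hb.shx (by decide) (by decide)).mono h h' le_rfl))).congr (by rw [hx]; ring)

end Rep

/-- The masked digits of the row `ρ` as a polynomial in the time and the parameters. -/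
noncomputable def pw (b dp : ℕ) (t : ℕ → Bool) (P ρ : ℕ) (x p q : ℝ) : ℝ :=
  ∑ j ∈ Finset.range 43, if sp dp j then ψ p q j * ∑ k ∈ Finset.range 14,
    if t k then dg 128 b P (14 * (43 * ρ + j) + k) * x ^ k else 0 else 0

lemma mv_pw (π : Pt) (b dp : ℕ) (rs t : ℕ → Bool) (P : ℕ) : mv cM 301 b (sr dp rs) t P π.x π.ζ
    = ∑ ρ ∈ Finset.range 7, if rs ρ then zz π.y ρ * pw b dp t P ρ π.x π.p π.q else 0 := by
  rw [mv, show 301 = 43 * 7 from rfl, sum_rows]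
  refine Finset.sum_congr rfl fun ρ _ => ?_
  have e : ∀ j ∈ Finset.range 43, (43 * ρ + j) % 43 = j ∧ (43 * ρ + j) / 43 = ρ := fun j hj => by
    have := Finset.mem_range.1 hj
    omega
  cases h : rs ρ
  · exact (Finset.sum_eq_zero fun j hj => by simp [sr, ndiv, (e j hj).2, h]).trans (by simp)
  · rw [if_pos rfl, pw, Finset.mul_sum]
    refine Finset.sum_congr rfl fun j hj => ?_
    simp only [sr, ndiv, nmod, e j hj, h, Bool.and_true, Pt.ζ, cM]
    split_ifs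
    · ring
    · simp

lemma Rep.ex (π : Pt) {b dx dp dr : ℕ} {rs t : ℕ → Bool} (hb : b ≤ 114) (hr : ∀ j, rs j → j ≤ dr)
    (ht : ∀ k, t k → k ≤ dx) (e P N : ℕ) : Rep π e dx dp dr (TM.ex (msk cM b (sr dp rs) t) P N)
      ((∑ ρ ∈ Finset.range 7, if rs ρ then zz π.y ρ *
        (pw b dp t P ρ π.x π.p π.q - pw b dp t N ρ π.x π.p π.q) else 0) / 2 ^ e) := by
  obtain ⟨L, q, a1, a2, a3, a4, -, a6⟩ := land_msk cM (m := 301) (by decide) rfl
    (hb.trans (by decide)) (sr dp rs) t P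
  obtain ⟨M, q', b1, b2, b3, b4, -, b6⟩ := land_msk cM (m := 301) (by decide) rfl
    (hb.trans (by decide)) (sr dp rs) t N
  have le : cM.n * 2 ^ b ≤ 4214 * 2 ^ 114 :=
    Nat.mul_le_mul_left _ (Nat.pow_le_pow_right two_pos hb)
  have dd : ∀ i, sr dp rs (i / cM.w) ∧ t (i % cM.w) → Dg dx dp dr i := fun i hi => by
    obtain ⟨c1, c2⟩ := hi
    simp only [sr, sp, Bool.and_eq_true, Nat.ble_eq, Nat.add_eq, ndiv, nmod] at c1
    exact ⟨ht _ c2, c1.1, hr _ c1.2⟩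
  refine ⟨L ++ lsm (-1) 0 M, ?_, ?_, fun u hu => ?_, ?_⟩
  · rw [evX_app, evX_lsm]
    exact (congrArg₂ (fun s t : ℤ => s + -1 * _ * t) a1 b1).trans (by
      simp only [TM.ex, TM.ofPN]; ring)
  · simp only [TM.ex, TM.ofPN, sum_mod a2 b2 (a3.trans le) (b3.trans le), nrm_app, nrm_lsm]
    simp
  · rcases List.mem_append.1 hu with h | h
    · exact dd _ (a4 u h)
    · obtain ⟨v, hv, rfl⟩ := List.mem_map.1 h
      simpa using dd _ (b4 v hv)
  · rw [sem_app, sem_lsm _ _ _ _ fun t _ => by simp [π.φ_zero], π.φ_zero,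
      show sem π.φ L = _ from (a6 π.x π.ζ).trans (mv_pw ..),
      show sem π.φ M = _ from (b6 π.x π.ζ).trans (mv_pw ..), div_mul_cancel₀ _ (by positivity)]
    simp only [TM.ex, TM.ofPN, Nat.cast_zero, abs_nonpos_iff, Finset.mul_sum,
      ← Finset.sum_add_distrib, ← Finset.sum_sub_distrib]
    exact Finset.sum_eq_zero fun ρ _ => by split_ifs <;> push_cast <;> ring

end Pool.Agent.Lib.MP_6e7c44_mp.MR
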