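import Pool.Agent.Lib.MP_6e7c44_mp.RS.Fam

/-!
The circular Lagrange solution for a region of masses: the reduced system in real coordinates, the
tubes, the cone at the Lagrange state and the escape criterion.
-/

set_option autoImplicit false

open Set Complex

noncomputable section

namespace Pool.Agent.Lib.MP_6e7c44_mp.MR

open LA

/-- The attraction of the two primaries with the weights `a` and `b`. -/
def Fc (a b : ℝ) (Y : ℂ) : ℂ := a • ff (Y + 1 / 2) + b • ff (Y - 1 / 2)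

/-- The reduced vector field in real coordinates; `k` is half the difference of the first two
masses and `ν` is the third mass. -/
def fr (k ν : ℝ) (x : I6 → ℝ) : I6 → ℝ
  | .i0 => x .i0 ^ 2 / 2 + x .i1 ^ 2 - 1 + ν - (Fc ν (-ν) (yc x)).re
  | .i1 => -(x .i0 * x .i1) / 2 - (Fc ν (-ν) (yc x)).im
  | .i2 => x .i4 - (x .i0 * x .i2 - x .i1 * x .i3)
  | .i3 => x .i5 - (x .i0 * x .i3 + x .i1 * x .i2)
  | .i4 => x .i0 * x .i4 / 2 + x .i1 * x .i5 + k - (Fc (1 / 2 + k) (1 / 2 - k) (yc x)).re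
  | .i5 => x .i0 * x .i5 / 2 - x .i1 * x .i4 - (Fc (1 / 2 + k) (1 / 2 - k) (yc x)).im

/-- A curve that solves the reduced system as long as it is safe. -/
structure Traj (k ν : ℝ) (X : ℝ → I6 → ℝ) : Prop where
  cont : Continuous X
  der : ∀ τ, Safe (X τ) → ∀ i, HasDerivAt (fun s => X s i) (fr k ν (X τ) i) τ

/-- The step `s` is valid for the masses `k`, `ν`. -/
structure OK (k ν : ℝ) (s : SS) : Prop where
  h0 : 0 ≤ s.h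
  R0 : ∀ j, 0 < s.R j
  cS : ∀ j, Continuous (s.yS j)
  step : ∀ X, Traj k ν X → ∀ τ, s.Box (X τ) → (∀ t ∈ Icc τ (τ + s.h), Safe (X t)) ∧
    (∀ j, |s.yE j (X (τ + s.h)) - s.yS j (X τ)| ≤ s.d j) ∧ s.out (X (τ + s.h))

/-- The link of two steps; `w = true` means that the first two coordinates are exit directions. -/
def Lk (w : Bool) (s s' : SS) : Prop := ∀ j, ∃ κ D : ℝ, 0 ≤ κ ∧
  (∀ x, s.out x → |s'.yS j x - κ * s.yE j x| ≤ D) ∧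
  if w = true ∧ (j = .i0 ∨ j = .i1) then s'.R j + D ≤ κ * (s.R j - s.d j)
  else κ * (s.R j + s.d j) + D ≤ s'.R j

/-- The escape criterion in the coordinates of Jacobi: the binary has the relative position `1` and
the relative velocity `η`, the third body has the position `y` and the velocity `w`. -/
def OutC (θ ν : ℝ) (η y w : ℂ) : Prop := ∃ α ρ β c κ j φ l m q : ℝ,
  1 < α ∧ θ * α ≤ β ∧ (1 - θ) * α ≤ β ∧ β + 1 / 2 ≤ ρ ∧ ρ ≤ ‖y‖ ∧ 0 ≤ dot y w ∧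
  3 * (θ * (1 - θ)) * α ^ 2 ≤ c ∧ 0 < κ ∧ 0 < j ∧
  1 / (2 * j * (ρ - β)) + j / (4 * κ * (ρ - β) ^ 2) ≤ φ ∧
  0 ≤ l ∧ κ * ρ ^ 2 ≤ (2 * ρ - l ^ 2) * (ρ - β) ∧ l + c * ρ / (ρ - β) * φ ≤ |cr y w| ∧
  1 / 800 + 1 / ‖y‖ + c / (3 * (ρ - β) ^ 3) ≤ (dot y w ^ 2 + l ^ 2) / (2 * ‖y‖ ^ 2) ∧
  ν ≤ 1 / 2 ∧ 3 / 20 ≤ m ∧ m ^ 2 ≤ α ∧ m + 2 * ν * α ^ 2 * φ ≤ η.im ∧ 0 ≤ q ∧ 2 * α ≤ q ^ 2 ∧
  ‖η‖ ^ 2 / 2 + 2 * ν * q * φ < (1 - ν) * (1 - 1 / α) + m ^ 2 / (2 * α ^ 2)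

/-- The escape criterion in reduced coordinates. -/
def Out (k ν : ℝ) (x : I6 → ℝ) : Prop :=
  OutC (1 / 2 + k / (1 - ν)) ν ⟨x .i0, x .i1⟩ ⟨x .i2 + k / (1 - ν), x .i3⟩
    ⟨x .i4 + k / (1 - ν) * x .i0, x .i5 + k / (1 - ν) * x .i1⟩

/-- A chain of `n` links with exit directions followed by plain links, ending in escape. -/
def Chain (k ν : ℝ) : ℕ → SS → List SS → Prop
  | _, s, [] => OK k ν s ∧ ∀ x, s.out x → Out k ν x
  | 0, s, s' :: l => OK k ν s ∧ Lk false s s' ∧ Chain k ν 0 s' l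
  | n + 1, s, s' :: l => OK k ν s ∧ Lk true s s' ∧ Chain k ν n s' l

/-- The Lagrange state in real coordinates. -/
def xL : I6 → ℝ := co (lag I)

/-- A frame at the Lagrange state, the approximate eigenvalues and the bounds of the error. -/
structure LC where
  C : Matrix I6 I6 ℝ
  a : ℝ
  b : ℝ
  ω : ℝ
  a' : ℝ
  b' : ℝ
  d : I6 → ℝ

/-- The approximate linear part: an unstable, a central and a stable block. -/
def LC.lam (c : LC) (y : I6 → ℝ) : I6 → ℝ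
  | .i0 => c.a * y .i0 - c.b * y .i1
  | .i1 => c.b * y .i0 + c.a * y .i1
  | .i2 => -(c.ω * y .i3)
  | .i3 => c.ω * y .i2
  | .i4 => -(c.a' * y .i4) - c.b' * y .i5
  | .i5 => c.b' * y .i4 - c.a' * y .i5

structure LC.OK (k ν : ℝ) (c : LC) : Prop where
  det : c.C.det ≠ 0
  pt : ∀ (y : I6 → ℝ) (s : ℝ), s ≤ 1 → (∀ j, |y j| ≤ s) → Safe (xL + c.C.mulVec y) ∧
    ∀ w : I6 → ℝ, c.C.mulVec w = fr k ν (xL + c.C.mulVec y) - c.C.mulVec (c.lam y) →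
      ∀ j, |w j| ≤ s * c.d j
  cone : ∃ u e v : ℝ, 0 ≤ u ∧ 0 ≤ e ∧ 0 ≤ v ∧ c.d .i0 ^ 2 + c.d .i1 ^ 2 ≤ u ^ 2 ∧
    c.d .i2 ^ 2 + c.d .i3 ^ 2 ≤ e ^ 2 ∧ c.d .i4 ^ 2 + c.d .i5 ^ 2 ≤ v ^ 2 ∧
    u + e < c.a ∧ v ^ 2 < 4 * c.a' * (c.a - u)

/-- The link from the cone to the first step of a tube. -/
def LC.Init (c : LC) (s : SS) : Prop := ∃ κ κ' D D' : ℝ, 0 < κ ∧ 0 < κ' ∧
  ((s.R .i0 + D) / κ) ^ 2 + ((s.R .i1 + D') / κ') ^ 2 ≤ (63 / 64) ^ 2 ∧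
  ∀ y : I6 → ℝ, (∀ j, |y j| ≤ 1) → |s.yS .i0 (xL + c.C.mulVec y) - κ * y .i0| ≤ D ∧
    |s.yS .i1 (xL + c.C.mulVec y) - κ' * y .i1| ≤ D' ∧
    (|s.yS .i0 (xL + c.C.mulVec y)| ≤ s.R .i0 → |s.yS .i1 (xL + c.C.mulVec y)| ≤ s.R .i1 →
      s.Box (xL + c.C.mulVec y))

/-- The Lagrange state is a limit of escaping states. -/
def Near (μ : Fin 3 → ℝ) : Prop := phys (lag I) ∈ closure (Esc μ)

/-- All Lagrange states close to the circular one are limits of escaping states. -/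
def NearE (μ : Fin 3 → ℝ) : Prop :=
  ∃ δ : ℝ, 0 < δ ∧ ∀ η : ℂ, ‖η - I‖ < δ → phys (lag η) ∈ closure (Esc μ)

/-- The masses have a cone and a tube that ends in escape. -/
def Cert (μ : Fin 3 → ℝ) : Prop := ∃ (c : LC) (n : ℕ) (s : SS) (l : List SS),
  c.OK ((μ 0 - μ 1) / 2) (μ 2) ∧ c.Init s ∧ Chain ((μ 0 - μ 1) / 2) (μ 2) n s l

/-- All masses of a rectangle, described with `20` binary places, are covered. -/
def Cov (a b c d : ℕ) : Prop := ∀ μ : Fin 3 → ℝ, RS.Ms μ →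
  (a : ℝ) ≤ (μ 1 - μ 0) / 2 * 2 ^ 20 → (μ 1 - μ 0) / 2 * 2 ^ 20 ≤ b →
  (c : ℝ) ≤ μ 2 * 2 ^ 20 → μ 2 * 2 ^ 20 ≤ d → Cert μ

lemma Cov.h {a b c d e : ℕ} (h1 : Cov a b c d) (h2 : Cov b e c d) : Cov a e c d :=
  fun μ hμ a1 a2 a3 a4 => (le_total _ (b : ℝ)).elim (fun h => h1 μ hμ a1 h a3 a4)
    fun h => h2 μ hμ h a2 a3 a4

lemma Cov.v {a b c d e : ℕ} (h1 : Cov a b c d) (h2 : Cov a b d e) : Cov a b c e :=
  fun μ hμ a1 a2 a3 a4 => (le_total _ (d : ℝ)).elim (fun h => h1 μ hμ a1 a2 a3 h)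
    fun h => h2 μ hμ a1 a2 h a4

lemma Cov.mono {a b c d a' b' c' d' : ℕ} (h : Cov a b c d) (h1 : a ≤ a') (h2 : b' ≤ b)
    (h3 : c ≤ c') (h4 : d' ≤ d) : Cov a' b' c' d' := fun μ hμ a1 a2 a3 a4 =>
  h μ hμ ((Nat.cast_le.2 h1).trans a1) (a2.trans (Nat.cast_le.2 h2)) ((Nat.cast_le.2 h3).trans a3)
    (a4.trans (Nat.cast_le.2 h4))

end Pool.Agent.Lib.MP_6e7c44_mp.MR
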