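import Pool.Agent.Lib.MP_6e7c44_mp.MR.EPt

/-! An essential family of orbits that leave a nearly circular Lagrange solution. -/

set_option autoImplicit false

open Set Complex Filter Topology

noncomputable section

namespace Pool.Agent.Lib.MP_6e7c44_mp.MR

open LA FamA

namespace EFam

/-- The square of the eccentricity. -/
def ec (η : ℂ) : ℝ := (η.im ^ 2 - 1) ^ 2 + η.im ^ 2 * η.re ^ 2

lemma ec_cont : Continuous ec := by unfold ec; fun_prop

lemma ec_der {η : ℝ → ℂ} {g t : ℝ} (h : HasDerivAt η (g • Kp (η t)) t) :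
    HasDerivAt (fun s => ec (η s)) 0 t := by
  have a := reCLM.hasFDerivAt.comp_hasDerivAt t h
  have b := imCLM.hasFDerivAt.comp_hasDerivAt t h
  refine hd_congr ((((b.fun_pow 2).sub_const 1).fun_pow 2).fun_add
    ((b.fun_pow 2).fun_mul (a.fun_pow 2))) (fun _ => rfl) ?_
  simp [Kp]
  ring

lemma ec_near {η : ℂ} {s : ℝ} (s0 : 0 ≤ s) (s1 : s ≤ 1 / 2) (h : ec η ≤ s ^ 2) (h0 : 0 ≤ η.im) :
    ‖η - I‖ ≤ 3 * s := by
  unfold ec at h
  have a := abs_le.1 (abs_le_of_sq_le_sq (show (η.im ^ 2 - 1) ^ 2 ≤ s ^ 2 by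
    nlinarith [mul_nonneg (sq_nonneg η.im) (sq_nonneg η.re)]) s0)
  have b : |η.im - 1| ≤ s := abs_le.2 ⟨by nlinarith [a.1], by nlinarith [a.2]⟩
  have c : |η.re| ≤ 2 * s := by
    refine abs_le_of_sq_le_sq ?_ (by positivity)
    have := mul_le_mul_of_nonneg_right (show 1 / 2 ≤ η.im ^ 2 by linarith [a.1]) (sq_nonneg η.re)
    nlinarith [sq_nonneg (η.im ^ 2 - 1)]
  have := norm_le_abs_re_add_abs_im (η - I)
  simp only [sub_re, I_re, sub_zero, sub_im, I_im] at this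
  linarith

lemma GR_lag (μ : Fin 3 → ℝ) (η : ℂ) : GR μ (lag η) = (Kp η, 0, cL * Kp η) := by
  simp only [GR, lag, Kp, Sg, i_ff i_n1, i_ff i_n2, Prod.mk.injEq]
  exact ⟨by ring, by ring, by ring⟩

lemma lag_der (μ : Fin 3 → ℝ) {η : ℝ → ℂ} {g t : ℝ} (h : HasDerivAt η (g • Kp (η t)) t) :
    HasDerivAt (fun s => lag (η s)) (g • GR μ (lag (η t))) t := by
  refine hd_congr (h.prodMk ((hasDerivAt_const t cL).prodMk (h.const_mul cL))) (fun _ => rfl) ?_
  simp only [GR_lag, Prod.smul_mk, smul_zero, mul_smul_comm]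

lemma lag_cont : Continuous lag := by unfold lag; fun_prop

lemma cd_Kp : ContDiff ℝ 1 Kp :=
  (((contDiff_const.mul (ofRealCLM.contDiff.comp reCLM.contDiff)).sub contDiff_id).mul
    contDiff_id).sub contDiff_const

/-- The coordinates of a state relative to a point of the family. -/
def yr (c : LC) (q : Z3 × ℂ) : I6 → ℝ := c.y q.1 - c.y (lag q.2)

lemma yr_cont (c : LC) : Continuous (yr c) :=
  ((y_cont c).comp continuous_fst).sub ((y_cont c).comp (lag_cont.comp continuous_snd))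

lemma co_yr {c : LC} (h : c.C.det ≠ 0) (q : Z3 × ℂ) :
    co (lag q.2) + c.C.mulVec (yr c q) = co q.1 := by
  rw [yr, Matrix.mulVec_sub]
  linear_combination co_y h q.1 - co_y h (lag q.2)

lemma sq_add {a b u γ : ℝ} (u0 : 0 ≤ u) (h : a ^ 2 + b ^ 2 ≤ u ^ 2) (γ0 : 0 ≤ γ) :
    (a + γ) ^ 2 + (b + γ) ^ 2 ≤ (u + 2 * γ) ^ 2 := by
  have h1 := (abs_le.1 (abs_le_of_sq_le_sq (show a ^ 2 ≤ u ^ 2 by nlinarith) u0)).2
  have h2 := (abs_le.1 (abs_le_of_sq_le_sq (show b ^ 2 ≤ u ^ 2 by nlinarith) u0)).2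
  nlinarith [mul_le_mul_of_nonneg_left h1 γ0, mul_le_mul_of_nonneg_left h2 γ0]

lemma nsq' (k : ℝ) (y : I6 → ℝ) : ‖k • (⟨y .i0, y .i1⟩ : ℂ)‖ ^ 2 = k ^ 2 * qa y := by
  rw [norm_smul, mul_pow, Real.norm_eq_abs, sq_abs, Complex.sq_norm, normSq_mk, qa]
  ring

lemma shift {P D : ℂ} (hP : ‖(128 / 127 : ℝ) • P‖ = 1) (hD : ‖D‖ ≤ 1 / 512) :
    1 ≤ ‖(64 / 63 : ℝ) • (P + D)‖ ∧ ∀ t ∈ Icc (0 : ℝ) 1,
      (1 - t) • (128 / 127 : ℝ) • P + t • (64 / 63 : ℝ) • (P + D) ≠ 0 := by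
  rw [norm_smul, Real.norm_of_nonneg (by norm_num)] at hP
  refine ⟨?_, fun t ht h => ?_⟩
  · rw [norm_smul, Real.norm_of_nonneg (by norm_num)]
    have := norm_sub_le (P + D) D
    rw [add_sub_cancel_right] at this
    linarith
  · have e : ((1 - t) * (128 / 127) + t * (64 / 63) : ℝ) • P = -((t * (64 / 63) : ℝ) • D) := by
      rw [eq_neg_iff_add_eq_zero, ← h]
      module
    have n := congrArg norm e
    rw [norm_neg, norm_smul, norm_smul, Real.norm_of_nonneg (by nlinarith [ht.1, ht.2]),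
      Real.norm_of_nonneg (by nlinarith [ht.1])] at n
    have : ‖P‖ = 127 / 128 := by linarith
    rw [this] at n
    nlinarith [mul_le_mul_of_nonneg_left hD ht.1, ht.1, ht.2]

end EFam

open EFam

theorem LC.famE {μ : Fin 3 → ℝ} (hμ : RS.Ms μ) {c : LC} (hc : c.OK ((μ 0 - μ 1) / 2) (μ 2)) :
    ∃ δ : ℝ, 0 < δ ∧ ∀ η : ℂ, ‖η - I‖ < δ → ∀ U ∈ 𝓝 (lag η), ∃ X : ℂ → Z3, Continuous X ∧
      (∀ ξ, NC (X ξ)) ∧ ∃ A : Set ℂ, IsClosed A ∧
      Ess norm A (fun ξ => (64 / 63 : ℝ) • (⟨c.y (X ξ) .i0, c.y (X ξ) .i1⟩ : ℂ)) ∧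
      ∀ ξ ∈ A, ‖(64 / 63 : ℝ) • (⟨c.y (X ξ) .i0, c.y (X ξ) .i1⟩ : ℂ)‖ ≤ 1 →
        (∀ j, |c.y (X ξ) j| ≤ 1) ∧ (EscR μ (X ξ) → ∃ z ∈ U, EscR μ z) := by
  obtain ⟨u, e, v, u0, e0, v0, hu, he, hv, h1, h2⟩ := hc.cone
  obtain ⟨γ, ⟨k1, k2⟩, γ0⟩ : ∃ γ : ℝ, (u + 2 * γ + (e + 2 * γ) < c.a ∧
      (v + 2 * γ) ^ 2 < 4 * c.a' * (c.a - (u + 2 * γ))) ∧ 0 < γ := by
    refine (Filter.Eventually.and (mem_nhdsWithin_of_mem_nhds (Filter.Eventually.and ?_ ?_))
      (self_mem_nhdsWithin (a := (0 : ℝ)) (s := Ioi 0))).exists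
    · exact ContinuousAt.eventually_lt (by fun_prop) (by fun_prop) (by simpa using h1)
    · exact ContinuousAt.eventually_lt (by fun_prop) (by fun_prop) (by simpa using h2)
  obtain ⟨δ₀, d0, hn⟩ := hc.near hμ γ0
  obtain ⟨s, s0, s1, s2⟩ : ∃ s : ℝ, 0 < s ∧ s ≤ 1 / 2 ∧ 3 * s ≤ δ₀ :=
    ⟨min (δ₀ / 3) (1 / 2), by positivity, min_le_right _ _,
      by linarith [min_le_left (δ₀ / 3) (1 / 2)]⟩
  have cy := yr_cont c
  have ca := qa_cont.comp cy
  have cb := qb_cont.comp cy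
  have cc := qc_cont.comp cy
  have ce : Continuous fun q : Z3 × ℂ => ec q.2 := ec_cont.comp continuous_snd
  have ci : Continuous fun q : Z3 × ℂ => q.2.im := continuous_im.comp continuous_snd
  obtain ⟨V, hV⟩ : ∃ V : Set (Z3 × ℂ), V = {q | (qa (yr c q) < (255 / 256) ^ 2 ∧
    qb (yr c q) < (255 / 256) ^ 2 ∧ qc (yr c q) < (255 / 256) ^ 2) ∧ ec q.2 < s ^ 2 ∧
      0 < q.2.im} := ⟨_, rfl⟩
  have nr : ∀ q ∈ V, ‖q.2 - I‖ ≤ δ₀ := fun q hq => by
    rw [hV] at hq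
    exact (ec_near s0.le s1 hq.2.1.le hq.2.2.le).trans s2
  have le1 : ∀ q ∈ V, ∀ j, |yr c q j| ≤ 255 / 256 := fun q hq => by
    rw [hV] at hq
    exact abs_le_s (by norm_num) hq.1.1.le hq.1.2.1.le hq.1.2.2.le
  have sf : ∀ q ∈ V, Safe (co q.1) := fun q hq => by
    rw [← co_yr hc.det]
    exact ((hn _ (nr q hq)).2 _ _ le_rfl (le1 q hq)).1
  have KU : {q : Z3 × ℂ | (qa (yr c q) ≤ (127 / 128) ^ 2 ∧ qb (yr c q) ≤ (127 / 128) ^ 2 ∧
      qc (yr c q) ≤ (127 / 128) ^ 2) ∧ ec q.2 ≤ s ^ 2 / 2 ∧ 0 ≤ q.2.im} ⊆ V := fun q hq => by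
    rw [hV]
    refine ⟨⟨hq.1.1.trans_lt (by norm_num), hq.1.2.1.trans_lt (by norm_num),
      hq.1.2.2.trans_lt (by norm_num)⟩, hq.2.1.trans_lt (by nlinarith), hq.2.2.lt_of_ne fun h => ?_⟩
    have := hq.2.1
    rw [ec, ← h] at this
    nlinarith
  obtain ⟨Φ, β, c1, f0, c2, b0, b1, -, hf⟩ := RS.cut_flow (U := V)
    (F := fun q => (GR μ q.1, Kp q.2))
    (hV ▸ ((isOpen_lt ca continuous_const).inter ((isOpen_lt cb continuous_const).inter
      (isOpen_lt cc continuous_const))).inter ((isOpen_lt ce continuous_const).inter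
        (isOpen_lt continuous_const ci)))
    ((safe_cpt.prod (isCompact_closedBall I δ₀)).of_isClosed_subset
      (((isClosed_le ca continuous_const).inter ((isClosed_le cb continuous_const).inter
        (isClosed_le cc continuous_const))).inter ((isClosed_le ce continuous_const).inter
          (isClosed_le continuous_const ci)))
      fun q hq => ⟨sf q (KU hq), mem_closedBall_iff_norm.2 (nr q (KU hq))⟩) KU
    (((cd_GR μ).comp contDiffOn_fst fun q hq => safe_nc (sf q hq)).prodMk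
      (cd_Kp.comp contDiff_snd).contDiffOn)
  obtain ⟨δ', d1, hδ'⟩ := Metric.eventually_nhds_iff.1 (Filter.Eventually.and
    (ec_cont.continuousAt.eventually_lt (continuousAt_const (y := s ^ 2 / 2)) (x₀ := I)
      (by simp only [ec, I_im, I_re]; nlinarith))
    ((continuousAt_const (y := (0 : ℝ))).eventually_lt continuous_im.continuousAt (by simp)))
  refine ⟨δ', d1, fun η hη U hU => ?_⟩
  obtain ⟨η1, η2⟩ := hδ' (y := η) (by rwa [dist_eq_norm])
  obtain ⟨st, cs, s0', sy⟩ : ∃ st : ℂ → Z3, Continuous st ∧ st 0 = lag η ∧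
      ∀ p, yr c (st p, η) = un p := by
    refine ⟨fun p => oc (xL + c.C.mulVec (c.y (lag η) + un p)), oc_cont.comp (continuous_const.add
      (continuous_const.matrix_mulVec (continuous_const.add un_cont))), ?_, fun p => ?_⟩
    · have : un 0 = 0 := funext fun i => by cases i <;> rfl
      simp only [this, add_zero, co_y hc.det]
      rfl
    · rw [yr, y_oc hc.det, add_sub_cancel_left]
  have q1 : ∀ p, qa (yr c (st p, η)) = ‖p‖ ^ 2 := fun p => by
    rw [sy, Complex.sq_norm, normSq_apply, qa, sq, sq]; rfl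
  have q2 : ∀ p, qb (yr c (st p, η)) = 0 := fun p => by simp [sy, qb, un]
  have q3 : ∀ p, qc (yr c (st p, η)) = 0 := fun p => by simp [sy, qc, un]
  obtain ⟨δ, δ0, hδ⟩ := Metric.mem_nhds_iff.1 (cs.continuousAt.preimage_mem_nhds (s0' ▸ hU))
  obtain ⟨r, r0, r1, r2⟩ : ∃ r : ℝ, 0 < r ∧ r < δ ∧ r ≤ 1 / 2 :=
    ⟨min (δ / 2) (1 / 2), by positivity, (min_le_left _ _).trans_lt (by linarith),
      min_le_right _ _⟩
  obtain ⟨p, cp, p0, pn, p1⟩ : ∃ p : ℂ → ℂ, Continuous p ∧ (∀ ξ, ‖p ξ‖ ≤ r) ∧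
      (∀ ξ, ξ ≠ 0 → 0 < ‖p ξ‖) ∧ ∀ ξ, ‖ξ‖ = 1 → p ξ = r * ξ := by
    have m : ∀ ξ : ℂ, 0 < max 1 ‖ξ‖ := fun ξ => by positivity
    refine ⟨fun ξ => r * (ξ / (max 1 ‖ξ‖ : ℝ)), continuous_const.mul (continuous_id.div
      (by fun_prop) fun ξ => ofReal_ne_zero.2 (m ξ).ne'), fun ξ => ?_, fun ξ h => ?_, fun ξ h => ?_⟩
    · rw [norm_mul, norm_div, norm_real, norm_real, Real.norm_of_nonneg r0.le,
        Real.norm_of_nonneg (m ξ).le]
      exact mul_le_of_le_one_right r0.le ((div_le_one (m ξ)).2 (le_max_right _ _))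
    · exact norm_pos_iff.2 (mul_ne_zero (ofReal_ne_zero.2 r0.ne')
        (div_ne_zero h (ofReal_ne_zero.2 (m ξ).ne')))
    · simp only [h, max_self, ofReal_one, div_one]
  have ok : ∀ ξ, (st (p ξ), η) ∈ V := fun ξ => by
    rw [hV, mem_ofPred, q1, q2, q3]
    have := pow_le_pow_left₀ (norm_nonneg _) ((p0 ξ).trans r2) 2
    exact ⟨⟨by linarith, by norm_num, by norm_num⟩, η1.trans (by nlinarith), η2⟩
  have cγ : ∀ z, Continuous fun t => Φ t z := fun z => c1.comp (Continuous.prodMk_left z)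
  have d1 : ∀ ξ t, HasDerivAt (fun t => (Φ t (st (p ξ), η)).1)
      (β (Φ t (st (p ξ), η)) • GR μ (Φ t (st (p ξ), η)).1) t := fun ξ t => (hf _ (ok ξ) t).2.fst
  have d2 : ∀ ξ t, HasDerivAt (fun t => (Φ t (st (p ξ), η)).2)
      (β (Φ t (st (p ξ), η)) • Kp (Φ t (st (p ξ), η)).2) t := fun ξ t => (hf _ (ok ξ) t).2.snd
  have ecc : ∀ ξ t, ec (Φ t (st (p ξ), η)).2 = ec η := fun ξ t => by
    have := is_const_of_deriv_eq_zero (fun t => (ec_der (d2 ξ t)).differentiableAt)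
      (fun t => (ec_der (d2 ξ t)).deriv) t 0
    rwa [f0] at this
  have tp := fun ξ (h : 0 < ‖p ξ‖) T (hT : 0 ≤ T) =>
    cone_flow (c := { c with d := fun j => c.d j + γ }) (u := u + 2 * γ) (e := e + 2 * γ)
    (v := v + 2 * γ) (by positivity) (by positivity) (by positivity) (sq_add u0 hu γ0.le)
    (sq_add e0 he γ0.le) (sq_add v0 hv γ0.le) k1 k2
    (y := fun t => yr c (Φ t (st (p ξ), η))) (g := fun t => β (Φ t (st (p ξ), η)))
    (w := fun t => c.C⁻¹.mulVec (fr ((μ 0 - μ 1) / 2) (μ 2) (co (Φ t (st (p ξ), η)).1)) -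
      c.C⁻¹.mulVec (fr ((μ 0 - μ 1) / 2) (μ 2) (co (lag (Φ t (st (p ξ), η)).2))) -
      c.lam (yr c (Φ t (st (p ξ), η)))) (fun t => b0 _)
    (fun t j => by
      refine hd_congr ((y_der c (d1 ξ t) j).fun_sub (y_der c (lag_der μ (d2 ξ t)) j))
        (fun _ => rfl) ?_
      have : LC.lam { c with d := fun j => c.d j + γ } = c.lam := rfl
      rw [this, Pi.sub_apply, Pi.sub_apply]
      ring)
    (fun t k1 k2 => by
      have a := (hf _ (ok ξ) t).1
      have a' := a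
      rw [hV] at a'
      generalize Φ t (st (p ξ), η) = z at *
      have n1 : 0 ≤ qa (yr c z) := by unfold qa; positivity
      have q := Real.sq_sqrt n1
      refine ((hn _ (nr z a)).2 (yr c z) _ (Real.sqrt_le_iff.2 ⟨by norm_num, a'.1.1.le⟩)
        (abs_le_s (Real.sqrt_nonneg _) q.ge (k1.trans q.ge) (k2.trans q.ge))).2 _ ?_
      rw [co_yr hc.det, Matrix.mulVec_sub, Matrix.mulVec_sub, Matrix.mulVec_mulVec,
        Matrix.mulVec_mulVec, Matrix.mul_nonsing_inv _ (isUnit_iff_ne_zero.2 hc.det),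
        Matrix.one_mulVec, Matrix.one_mulVec])
    (by simp only [f0, q1, q2]; positivity) (by simp only [f0, q1, q3]; positivity) hT
  simp only [f0, q1] at tp
  have cX : Continuous fun q : ℂ × ℝ => Φ q.2 (st (p q.1), η) :=
    c1.comp (continuous_snd.prodMk ((cs.comp (cp.comp continuous_fst)).prodMk continuous_const))
  have g1 : ∀ ξ T, 0 ≤ T → qa (yr c (Φ T (st (p ξ), η))) ≤ (127 / 128) ^ 2 →
      ∀ t ∈ Icc 0 T, β (Φ t (st (p ξ), η)) = 1 := fun ξ T hT k t ht => by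
    have ct : ∀ t, Continuous fun ξ => Φ t (st (p ξ), η) := fun t =>
      cX.comp (Continuous.prodMk_left t)
    have cl : IsClosed {ξ | (qb (yr c (Φ t (st (p ξ), η))) ≤ qa (yr c (Φ t (st (p ξ), η))) ∧
        qc (yr c (Φ t (st (p ξ), η))) ≤ qa (yr c (Φ t (st (p ξ), η)))) ∧
        qa (yr c (Φ t (st (p ξ), η))) ≤ qa (yr c (Φ T (st (p ξ), η)))} :=
      ((isClosed_le (cb.comp (ct t)) (ca.comp (ct t))).inter
        (isClosed_le (cc.comp (ct t)) (ca.comp (ct t)))).inter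
        (isClosed_le (ca.comp (ct t)) (ca.comp (ct T)))
    obtain ⟨⟨a1, a2⟩, a3⟩ := closure_minimal (fun ξ h => And.intro ((tp ξ (pn ξ h) T hT).1 t ht).1
      ((tp ξ (pn ξ h) T hT).1 t ht).2.2) cl (dense_compl_singleton (0 : ℂ) ξ)
    have a := (hf _ (ok ξ) t).1
    rw [hV] at a
    exact b1 _ ⟨⟨a3.trans k, a1.trans (a3.trans k), a2.trans (a3.trans k)⟩,
      (ecc ξ t).trans_le η1.le, a.2.2.le⟩
  have pa : 0 < c.a - (u + 2 * γ) := by linarith
  obtain ⟨T, T0, T1⟩ : ∃ T : ℝ, 0 ≤ T ∧ 2 * (c.a - (u + 2 * γ)) * r ^ 2 * T = 1 :=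
    ⟨(2 * (c.a - (u + 2 * γ)) * r ^ 2)⁻¹, by positivity, mul_inv_cancel₀ (by positivity)⟩
  have cH := (mk_cont ((continuous_apply I6.i0).comp (cy.comp cX))
    ((continuous_apply I6.i1).comp (cy.comp cX))).const_smul (128 / 127 : ℝ)
  have cT : Continuous fun ξ => (Φ T (st (p ξ), η)).1 :=
    continuous_fst.comp (cX.comp (Continuous.prodMk_left T))
  have es : Ess norm univ fun ξ => (128 / 127 : ℝ) •
      (⟨yr c (Φ T (st (p ξ), η)) .i0, yr c (Φ T (st (p ξ), η)) .i1⟩ : ℂ) := by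
    refine ess_base (H := fun q => (128 / 127 : ℝ) •
      (⟨yr c (Φ q.2 (st (p q.1), η)) .i0, yr c (Φ q.2 (st (p q.1), η)) .i1⟩ : ℂ)) cH
      (T := fun _ => T) continuous_const (fun _ => T0) (r := 128 / 127 * r) (by positivity)
      (fun ξ h => ?_) fun ξ h => ?_
    · simp only [f0, sy, un, p1 ξ h, Complex.eta, real_smul]
      push_cast
      ring
    have n : ‖p ξ‖ = r := by
      rw [p1 ξ h, norm_mul, h, norm_real, Real.norm_of_nonneg r0.le, mul_one]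
    obtain ⟨a1, a2⟩ := tp ξ (n ▸ r0) T T0
    rw [n] at a1 a2
    refine ⟨fun t ht h0 => ?_, ?_⟩
    · have a3 := nsq' (128 / 127) (yr c (Φ t (st (p ξ), η)))
      beta_reduce at h0
      rw [h0, norm_zero] at a3
      have := pow_pos r0 2
      linarith [(a1 t ht).2.1]
    · by_contra hh
      have a3 := nsq' (128 / 127) (yr c (Φ T (st (p ξ), η)))
      have a4 := pow_le_one₀ (norm_nonneg _) (not_le.1 hh).le (n := 2)
      beta_reduce at a4
      have a5 : qa (yr c (Φ T (st (p ξ), η))) ≤ (127 / 128) ^ 2 := by linarith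
      linarith [a2 (g1 ξ T T0 a5)]
  have hl := fun ξ => (hn _ (nr _ (hf _ (ok ξ) T).1)).1
  have ey : ∀ (q : Z3 × ℂ) j, c.y q.1 j = yr c q j + c.y (lag q.2) j := fun q j =>
    (sub_add_cancel _ _).symm
  have cH' := cH.comp (Continuous.prodMk_left T)
  refine ⟨fun ξ => (Φ T (st (p ξ), η)).1, cT, fun ξ => safe_nc (sf _ (hf _ (ok ξ) T).1), _,
    isClosed_univ.inter (isClosed_le (continuous_norm.comp cH') continuous_const),
    ess_step continuous_norm (by simp) isClosed_univ cH'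
      ((mk_cont ((continuous_apply I6.i0).comp ((y_cont c).comp cT))
        ((continuous_apply I6.i1).comp ((y_cont c).comp cT))).const_smul (64 / 63 : ℝ)) es
      fun ξ _ h => ?_, fun ξ h _ => ⟨fun j => ?_, fun hE => ?_⟩⟩
  · have := shift (D := ⟨c.y (lag (Φ T (st (p ξ), η)).2) .i0, c.y (lag (Φ T (st (p ξ), η)).2) .i1⟩)
      h ((norm_le_abs_re_add_abs_im _).trans (by linarith [hl ξ .i0, hl ξ .i1]))
    simp only [ey]
    exact this
  · rw [ey]
    linarith [abs_add_le (yr c (Φ T (st (p ξ), η)) j) (c.y (lag (Φ T (st (p ξ), η)).2) j), hl ξ j,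
      le1 _ (hf _ (ok ξ) T).1 j]
  · have a3 := nsq' (128 / 127) (yr c (Φ T (st (p ξ), η)))
    have a4 : ‖(128 / 127 : ℝ) • (⟨yr c (Φ T (st (p ξ), η)) .i0,
        yr c (Φ T (st (p ξ), η)) .i1⟩ : ℂ)‖ ^ 2 ≤ 1 := pow_le_one₀ (norm_nonneg _) h.2
    refine ⟨st (p ξ), hδ (by simpa using (p0 ξ).trans_lt r1 : p ξ ∈ _), ?_⟩
    have := RS.back hμ (c2.comp (cγ _)) T0
      (fun t => ⟨safe_nc (sf _ (hf _ (ok ξ) t).1), d1 ξ t⟩) (fun t ht => by
        rw [Function.comp_apply, g1 ξ T T0 (by linarith) t ht]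
        exact one_pos) hE
    rwa [f0] at this

end Pool.Agent.Lib.MP_6e7c44_mp.MR
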