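import Pool.Agent.Lib.MP_6e7c44_mp.MR.EFam
import Pool.Agent.Lib.MP_6e7c44_mp.MR.Fam

/-! From a certificate to escape near the nearly circular solutions. -/

set_option autoImplicit false

open Set Complex Filter Topology

noncomputable section

namespace Pool.Agent.Lib.MP_6e7c44_mp.MR

open LA

theorem Cert.nearE {μ : Fin 3 → ℝ} (hμ : RS.Ms μ) (h : Cert μ) : NearE μ := by
  obtain ⟨c, n, s, l, hc, ⟨κ, κ', D, D', k0, k1, hR, hD⟩, ch⟩ := h
  obtain ⟨δ, δ0, hδ⟩ := LC.famE hμ hc
  refine ⟨δ, δ0, fun η hη => ?_⟩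
  have cp : Continuous phys := by
    unfold phys
    refine Continuous.prodMk (continuous_pi fun i => ?_) (continuous_pi fun i => ?_) <;>
      fin_cases i <;> simp <;> fun_prop
  refine mem_closure_iff_nhds.2 fun U hU => ?_
  obtain ⟨X, cX, nX, A, hA, he, hX⟩ := hδ η hη _ (cp.continuousAt.preimage_mem_nhds hU)
  have ey : ∀ z, xL + c.C.mulVec (c.y z) = co z := fun z => by
    rw [LC.y, Matrix.mulVec_mulVec, Matrix.mul_nonsing_inv _ (Ne.isUnit hc.det),
      Matrix.one_mulVec, add_sub_cancel]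
  have cy : ∀ j, Continuous fun ξ => c.y (X ξ) j := fun j =>
    (continuous_apply j).comp (continuous_const.matrix_mulVec
      ((co_cont.comp cX).sub continuous_const))
  have cs : Continuous fun ξ => (64 / 63 : ℝ) • (⟨c.y (X ξ) .i0, c.y (X ξ) .i1⟩ : ℂ) := by
    have h0 := cy .i0
    have h1 := cy .i1
    simp only [mk_eq_add_mul_I]
    fun_prop
  have R0 := ch.ok.R0
  have hd := fun ξ a h => hD _ (hX ξ a h).1
  simp only [ey] at hd
  obtain ⟨ξ, hξ, h⟩ := chain_main hμ cX nX
    (hA.inter (isClosed_le (continuous_norm.comp cs) (continuous_const (y := 1)))) ch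
    (ess_step (N' := nM) continuous_norm (by simp) hA cs
      (ch.ok.cg.comp (co_cont.comp cX)) he fun ξ a h => by
        have n := sq_norm' ((64 / 63 : ℝ) • (⟨c.y (X ξ) .i0, c.y (X ξ) .i1⟩ : ℂ))
        rw [h] at n
        simp only [smul_re, smul_im, smul_eq_mul] at n
        have d := hd ξ a h.le
        by_cases h0 : (s.R .i0 + D) / κ ≤ |c.y (X ξ) .i0|
        · have := sign_ge (R0 _) (init_sign k0 (R0 _) h0 d.1)
          exact ⟨this.1.trans (le_max_left _ _), fun t ht h0 =>
            this.2 t ht (by simpa [SS.g] using congrArg re h0)⟩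
        · have h1 : (s.R .i1 + D') / κ' ≤ |c.y (X ξ) .i1| := by
            by_contra h1
            have a0 := pow_lt_pow_left₀ (not_le.1 h0) (abs_nonneg _) two_ne_zero
            have a1 := pow_lt_pow_left₀ (not_le.1 h1) (abs_nonneg _) two_ne_zero
            rw [sq_abs] at a0 a1
            nlinarith
          have := sign_ge (R0 _) (init_sign k1 (R0 _) h1 d.2.1)
          exact ⟨this.1.trans (le_max_right _ _), fun t ht h0 =>
            this.2 t ht (by simpa [SS.g] using congrArg im h0)⟩)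
    fun ξ hξ h => (hd ξ hξ.1 hξ.2).2.2 (box_exit (R0 _) h (Or.inl rfl)) (box_exit (R0 _) h (Or.inr rfl))
  obtain ⟨z, h1, h2⟩ := (hX ξ hξ.1 hξ.2).2 h
  exact ⟨_, h1, h2⟩

end Pool.Agent.Lib.MP_6e7c44_mp.MR
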