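import Pool.Agent.Lib.MP_6e7c44_mp.MR.FamA

/-! The estimate in the cone with a base point on the elliptic Lagrange family. -/

set_option autoImplicit false

open Set Complex Filter Topology

noncomputable section

namespace Pool.Agent.Lib.MP_6e7c44_mp.MR

open LA

namespace EPt

lemma cd_yc : ContDiff ℝ 1 yc := by
  have e : yc = fun x => (x .i2 : ℂ) + (x .i3 : ℂ) * I := funext fun x => Complex.ext
    (by simp [yc]) (by simp [yc])
  rw [e]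
  exact (ofRealCLM.contDiff.comp (contDiff_apply ℝ ℝ I6.i2)).add
    ((ofRealCLM.contDiff.comp (contDiff_apply ℝ ℝ I6.i3)).mul contDiff_const)

lemma cd_ff' {f : (I6 → ℝ) → ℂ} {x : I6 → ℝ} (hf : ContDiffAt ℝ 1 f x) (h : f x ≠ 0) :
    ContDiffAt ℝ 1 (fun z => ff (f z)) x :=
  (((hf.norm ℝ h).pow 3).inv (pow_ne_zero _ (norm_ne_zero_iff.2 h))).smul hf

lemma cd_fr (k ν : ℝ) {x : I6 → ℝ} (hx : Safe x) : ContDiffAt ℝ 1 (fr k ν) x := by
  have h1 := cd_ff' (f := fun z => yc z + 1 / 2) (cd_yc.contDiffAt.add contDiffAt_const)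
    (norm_pos_iff.1 (lt_of_lt_of_le (by norm_num) hx.2.1))
  have h2 := cd_ff' (f := fun z => yc z - 1 / 2) (cd_yc.contDiffAt.sub contDiffAt_const)
    (norm_pos_iff.1 (lt_of_lt_of_le (by norm_num) hx.2.2))
  have h3 : ∀ a b : ℝ, ContDiffAt ℝ 1 (fun z => Fc a b (yc z)) x := fun a b =>
    (h1.const_smul a).add (h2.const_smul b)
  have re : ∀ a b : ℝ, ContDiffAt ℝ 1 (fun z => (Fc a b (yc z)).re) x := fun a b =>
    reCLM.contDiff.contDiffAt.comp x (h3 a b)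
  have im : ∀ a b : ℝ, ContDiffAt ℝ 1 (fun z => (Fc a b (yc z)).im) x := fun a b =>
    imCLM.contDiff.contDiffAt.comp x (h3 a b)
  refine contDiffAt_pi.2 fun i => ?_
  cases i <;> simp only [fr]
  · exact ContDiffAt.sub (by fun_prop) (re _ _)
  · exact ContDiffAt.sub (by fun_prop) (im _ _)
  · fun_prop
  · fun_prop
  · exact ContDiffAt.sub (by fun_prop) (re _ _)
  · exact ContDiffAt.sub (by fun_prop) (im _ _)

lemma cd_mv (A : Matrix I6 I6 ℝ) : ContDiff ℝ 1 A.mulVec :=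
  (LinearMap.toContinuousLinearMap A.mulVecLin).contDiff

/-- Increments of a map of class `C¹` on the cube depend little on the base point. -/
lemma incr {Φ : (I6 → ℝ) → I6 → ℝ} (hΦ : ∀ y, ‖y‖ ≤ 1 → ContDiffAt ℝ 1 Φ y) {γ : ℝ} (hγ : 0 < γ) :
    ∃ δ : ℝ, 0 < δ ∧ δ ≤ 1 / 1024 ∧ ∀ u y : I6 → ℝ, ‖u‖ < δ → ‖y‖ ≤ 255 / 256 →
      ‖Φ (u + y) - Φ y - (Φ u - Φ 0)‖ ≤ γ * ‖y‖ := by
  have c : ContinuousOn (fderiv ℝ Φ) (Metric.closedBall 0 1) := fun y hy =>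
    ((hΦ y (mem_closedBall_zero_iff.1 hy)).continuousAt_fderiv one_ne_zero).continuousWithinAt
  obtain ⟨δ, δ0, hδ⟩ := Metric.uniformContinuousOn_iff.1
    ((isCompact_closedBall (0 : I6 → ℝ) 1).uniformContinuousOn_of_continuous c) γ hγ
  refine ⟨min δ (1 / 1024), lt_min δ0 (by norm_num), min_le_right _ _, fun u y hu hy => ?_⟩
  obtain ⟨u1, u2⟩ := lt_min_iff.1 hu
  have b : ∀ z : I6 → ℝ, ‖z‖ ≤ 255 / 256 → ‖u + z‖ ≤ 1 ∧ ‖z‖ ≤ 1 := fun z hz =>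
    ⟨(norm_add_le _ _).trans (by linarith), by linarith⟩
  have := (convex_closedBall (0 : I6 → ℝ) (255 / 256)).norm_image_sub_le_of_norm_hasFDerivWithin_le
    (f := fun z => Φ (u + z) - Φ z) (f' := fun z => fderiv ℝ Φ (u + z) - fderiv ℝ Φ z) (C := γ)
    (x := 0) (y := y) (fun z hz => ?_) (fun z hz => ?_) (Metric.mem_closedBall_self (by norm_num))
    (mem_closedBall_zero_iff.2 hy)
  · simpa only [add_zero, sub_zero] using this
  · obtain ⟨b1, b2⟩ := b z (mem_closedBall_zero_iff.1 hz)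
    exact (((hasFDerivAt_comp_add_left u).2
      ((hΦ _ b1).differentiableAt one_ne_zero).hasFDerivAt).sub
      ((hΦ _ b2).differentiableAt one_ne_zero).hasFDerivAt).hasFDerivWithinAt
  · obtain ⟨b1, b2⟩ := b z (mem_closedBall_zero_iff.1 hz)
    rw [← dist_eq_norm]
    exact (hδ _ (mem_closedBall_zero_iff.2 b1) _ (mem_closedBall_zero_iff.2 b2)
      (by rwa [dist_eq_norm, add_sub_cancel_right])).le

end EPt

theorem LC.OK.near {μ : Fin 3 → ℝ} (hμ : RS.Ms μ) {c : LC} (hc : c.OK ((μ 0 - μ 1) / 2) (μ 2))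
    {γ : ℝ} (hγ : 0 < γ) : ∃ δ : ℝ, 0 < δ ∧ ∀ η : ℂ, ‖η - I‖ ≤ δ →
      (∀ j, |c.y (lag η) j| ≤ 1 / 1024) ∧ ∀ (y : I6 → ℝ) (s : ℝ), s ≤ 255 / 256 →
        (∀ j, |y j| ≤ s) → Safe (co (lag η) + c.C.mulVec y) ∧ ∀ w : I6 → ℝ,
          c.C.mulVec w = fr ((μ 0 - μ 1) / 2) (μ 2) (co (lag η) + c.C.mulVec y) -
            fr ((μ 0 - μ 1) / 2) (μ 2) (co (lag η)) - c.C.mulVec (c.lam y) →
          ∀ j, |w j| ≤ s * (c.d j + γ) := by
  generalize (μ 0 - μ 1) / 2 = k at hc ⊢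
  generalize μ 2 = ν at hc ⊢
  have hd : IsUnit c.C.det := hc.det.isUnit
  have i1 : ∀ v, c.C.mulVec (c.C⁻¹.mulVec v) = v := fun v => by
    rw [Matrix.mulVec_mulVec, Matrix.mul_nonsing_inv _ hd, Matrix.one_mulVec]
  have i2 : ∀ v, c.C⁻¹.mulVec (c.C.mulVec v) = v := fun v => by
    rw [Matrix.mulVec_mulVec, Matrix.nonsing_inv_mul _ hd, Matrix.one_mulVec]
  have sf : ∀ y : I6 → ℝ, ‖y‖ ≤ 1 → Safe (xL + c.C.mulVec y) := fun y hy =>
    (hc.pt y 1 le_rfl fun j => (norm_le_pi_norm y j).trans hy).1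
  obtain ⟨Φ, hΦ⟩ : ∃ Φ : (I6 → ℝ) → I6 → ℝ,
      Φ = fun y => c.C⁻¹.mulVec (fr k ν (xL + c.C.mulVec y)) := ⟨_, rfl⟩
  have w0 : ∀ (y : I6 → ℝ) (s : ℝ), s ≤ 1 → (∀ j, |y j| ≤ s) → ∀ j,
      |(Φ y - c.lam y) j| ≤ s * c.d j := fun y s hs hy =>
    (hc.pt y s hs hy).2 _ (by rw [Matrix.mulVec_sub, hΦ, i1])
  have z0 : Φ 0 = 0 := funext fun j => by
    have h := w0 0 0 zero_le_one (by simp) j
    have e : c.lam 0 j = 0 := by cases j <;> simp [LC.lam]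
    simpa [e] using h
  obtain ⟨δ, δ0, δ1, hδ⟩ := EPt.incr (Φ := Φ) (fun y hy => by
    have a1 : ContDiffAt ℝ 1 (fun y => xL + c.C.mulVec y) y :=
      contDiffAt_const.add (EPt.cd_mv c.C).contDiffAt
    rw [hΦ]
    exact (EPt.cd_mv c.C⁻¹).contDiffAt.comp y
      (ContDiffAt.comp (f := fun y => xL + c.C.mulVec y) y (EPt.cd_fr k ν (sf y hy)) a1)) hγ
  have cy : Continuous fun η => c.y (lag η) := (FamA.y_cont c).comp (by unfold lag; fun_prop)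
  obtain ⟨ε, ε0, hε⟩ := Metric.continuous_iff.1 cy I δ δ0
  refine ⟨ε / 2, half_pos ε0, fun η hη => ?_⟩
  have hu := hε η (by rw [dist_eq_norm]; linarith)
  rw [show c.y (lag I) = 0 by simp [LC.y, xL], dist_zero_right] at hu
  rw [← FamA.co_y hc.det (lag η)]
  generalize c.y (lag η) = u at hu
  refine ⟨fun j => (norm_le_pi_norm u j).trans (hu.le.trans δ1), fun y s hs hy => ?_⟩
  have s0 : 0 ≤ s := (abs_nonneg _).trans (hy .i0)
  have ny : ‖y‖ ≤ s := (pi_norm_le_iff_of_nonneg s0).2 hy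
  rw [add_assoc, ← Matrix.mulVec_add]
  refine ⟨sf _ ((norm_add_le _ _).trans (by linarith)), fun w hw j => ?_⟩
  have e : w = (Φ y - c.lam y) + (Φ (u + y) - Φ y - (Φ u - Φ 0)) := by
    rw [z0, ← i2 w, hw, Matrix.mulVec_sub, Matrix.mulVec_sub, i2, hΦ]
    abel
  have a1 := w0 y s (by linarith) hy j
  have a2 := (norm_le_pi_norm _ j).trans ((hδ u y hu (ny.trans hs)).trans
    (mul_le_mul_of_nonneg_left ny hγ.le))
  rw [e]
  exact (abs_add_le _ _).trans ((add_le_add a1 a2).trans (le_of_eq (by ring)))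

end Pool.Agent.Lib.MP_6e7c44_mp.MR
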