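import Pool.Agent.Lib.MP_6e7c44_mp.MR.Red

/-! Reduction of the theorem for nearly circular solutions. -/

set_option autoImplicit false

open Set Complex Filter Topology

noncomputable section

namespace Pool.Agent.Lib.MP_6e7c44_mp.MR

open LA

/-- The four configurations of a Lagrange state. -/
lemma fourE {m n Q V : _} {x : ℂ} {ω : ℝ} (hr : 0 < ‖x‖) (hω : 0 < ω)
    (hmn : ∀ b : Fin 3, m b = ω ^ 2 * ‖x‖ ^ 3 * n b) {σ η : ℂ}
    (hx : Q 1 = x + Q 0) (hη : V 1 = ω * (x * η) + V 0) (h0 : Q 2 = (1 / 2 + σ * cL) * x + Q 0)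
    (h1 : V 2 = (1 / 2 + σ * cL) * (ω * (x * η)) + V 0)
    (h : σ = 1 ∧ (phys (lag η) ∈ closure (Esc n) ∨
        phys (lag ((starRingEnd ℂ) η)) ∈ closure (Esc fun b => n (Equiv.swap 0 1 b))) ∨
      σ = -1 ∧ (phys (lag ((starRingEnd ℂ) η)) ∈ closure (Esc n) ∨
        phys (lag η) ∈ closure (Esc fun b => n (Equiv.swap 0 1 b)))) :
    (Q, V) ∈ closure (Esc m) := by
  obtain ⟨c1, c2⟩ := bk_cL
  have s2 : Equiv.swap (0 : Fin 3) 1 2 = 2 := by decide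
  have g1 : ∀ y : ℂ, ‖y‖ = ‖x‖ → ∀ z, ‖ContinuousLinearMap.mul ℝ ℂ y z‖ = ‖x‖ * ‖z‖ := by
    intro y h z; simp [h]
  have g2 : ∀ y : ℂ, ‖y‖ = ‖x‖ → ∀ z, ‖((ContinuousLinearMap.mul ℝ ℂ y).comp
      (Complex.conjCLE : ℂ →L[ℝ] ℂ)) z‖ = ‖x‖ * ‖z‖ := by
    intro y h z; simp [h]
  have c3 : (starRingEnd ℂ) 2 = 2 := map_ofNat _ 2
  rcases h with ⟨rfl, M1 | M2⟩ | ⟨rfl, M1 | M2⟩
  · have := bk_cl _ hr hω (g1 x rfl) 1 (Q 0) (V 0) (m' := m) hmn M1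
    refine mem_of this (fun a => ?_) (fun a => ?_) <;> fin_cases a <;>
      simp [phys, lag, h0, h1, hx, hη] <;> ring
  · have := bk_cl _ hr hω (g2 (-x) (norm_neg x)) (Equiv.swap 0 1) (Q 1) (V 1) (m' := m)
      (fun b => by simp [hmn b]) M2
    refine mem_of this (fun a => ?_) (fun a => ?_) <;> fin_cases a <;>
      simp [phys, lag, s2, c2, c3, h0, h1, hx, hη] <;> ring
  · have := bk_cl _ hr hω (g2 x rfl) 1 (Q 0) (V 0) (m' := m) hmn M1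
    refine mem_of this (fun a => ?_) (fun a => ?_) <;> fin_cases a <;>
      simp [phys, lag, c2, c3, h0, h1, hx, hη] <;> ring
  · have := bk_cl _ hr hω (g1 (-x) (norm_neg x)) (Equiv.swap 0 1) (Q 1) (V 1) (m' := m)
      (fun b => by simp [hmn b]) M2
    refine mem_of this (fun a => ?_) (fun a => ?_) <;> fin_cases a <;>
      simp [phys, lag, s2, h0, h1, hx, hη] <;> ring

/-- A Kepler orbit of nearly constant distance is nearly circular. -/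
lemma keplerE {x p : ℝ → ℂ} {M ω ε : ℝ} {η : ℂ} (hε : ε ≤ 1 / 1000) (hx : ∀ t, HasDerivAt x (p t) t)
    (hp : ∀ t, HasDerivAt p (-(M * ff (x t))) t) (h0 : 0 < ‖x 0‖) (hω : 0 < ω)
    (hM : ω ^ 2 = M / ‖x 0‖ ^ 3) (hr : ∀ s t, ‖x s‖ ≤ (1 + ε) * ‖x t‖)
    (hη : p 0 = ω * (x 0 * η)) : ‖η - I‖ ≤ 40 * ε ∨ ‖η + I‖ ≤ 40 * ε := by
  have x0 := norm_pos_iff.1 h0
  have hωc : (ω : ℂ) ≠ 0 := by exact_mod_cast hω.ne'
  have l : ∀ t, HasDerivAt (fun s => s / ω) (1 / ω) t := fun t => (hasDerivAt_id t).div_const ω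
  have e0 : 0 ≤ ε := by nlinarith [hr 0 0]
  have k := kepler (z := fun t => x (t / ω) / x 0) (p := fun t => p (t / ω) / (ω * x 0)) hε
    (fun t => hd_congr (((hx _).scomp t (l t)).div_const (x 0)) (fun _ => rfl) (by
      simp only [Complex.real_smul]; push_cast; field_simp))
    (fun t => hd_congr (((hp _).scomp t (l t)).div_const (ω * x 0)) (fun _ => rfl) (by
      have e := bk_ff_mul (x (t / ω) / x 0) (x 0)
      have s2 : (ω : ℂ) ^ 2 = M * ((‖x 0‖ ^ 3)⁻¹ : ℝ) := by exact_mod_cast hM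
      rw [div_mul_cancel₀ _ x0] at e
      rw [e, Complex.real_smul, eq_div_iff (mul_ne_zero hωc x0)]
      generalize (‖x 0‖ ^ 3)⁻¹ = u at *
      generalize ff (x (t / ω) / x 0) = f
      push_cast
      field_simp
      linear_combination (-f) * s2))
    (fun t => by
      have a := hr (t / ω) 0
      have b := hr 0 (t / ω)
      rw [norm_div, abs_le, le_sub_iff_add_le, sub_le_iff_le_add, le_div_iff₀ h0, div_le_iff₀ h0]
      exact ⟨le_of_mul_le_mul_left (by nlinarith [mul_nonneg (sq_nonneg ε) h0.le])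
        (by linarith : 0 < 1 + ε), by linarith⟩)
  have e : p 0 / (ω * x 0) = η := by rw [hη]; field_simp
  exact k.imp (fun h => by simpa [e, x0] using h 0) fun h => by simpa [e, x0] using h 0

theorem redE (m : Fin 3 → ℝ) (hm : ∀ a, 0 < m a)
    (hN : NearE (fun a => m a / (m 0 + m 1 + m 2)) ∨
      NearE fun a => m (Equiv.swap 0 1 a) / (m 0 + m 1 + m 2)) :
    ∃ ε : ℝ, 0 < ε ∧ ∀ q v : ℝ → Fin 3 → ℂ, (∀ t a, HasDerivAt (fun s => q s a) (v t a) t) →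
      (∀ t a, HasDerivAt (fun s => v s a)
        (∑ b ∈ Finset.univ.erase a, (m b / ‖q t b - q t a‖ ^ 3) • (q t b - q t a)) t) →
      (∀ t a b, a ≠ b → q t a ≠ q t b) →
      (∀ t, ‖q t 0 - q t 1‖ = ‖q t 1 - q t 2‖ ∧ ‖q t 1 - q t 2‖ = ‖q t 2 - q t 0‖) →
      (∀ s t, ‖q s 0 - q s 1‖ ≤ (1 + ε) * ‖q t 0 - q t 1‖) →
      ∀ U ∈ 𝓝 (q 0, v 0), Concl m U := by
  obtain ⟨M, hM⟩ : ∃ M, M = m 0 + m 1 + m 2 := ⟨_, rfl⟩
  rw [← hM] at hN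
  obtain ⟨δ, δ0, hδ⟩ : ∃ δ : ℝ, 0 < δ ∧
      ((∀ η : ℂ, ‖η - I‖ < δ → phys (lag η) ∈ closure (Esc fun a => m a / M)) ∨
      ∀ η : ℂ, ‖η - I‖ < δ → phys (lag η) ∈ closure (Esc fun a => m (Equiv.swap 0 1 a) / M)) := by
    rcases hN with ⟨δ, a, b⟩ | ⟨δ, a, b⟩
    exacts [⟨δ, a, .inl b⟩, ⟨δ, a, .inr b⟩]
  refine ⟨min (1 / 1000) (δ / 41), by positivity, fun q v hq hv hc he hs U hU => ?_⟩
  have m0 := hm 0
  have m1 := hm 1
  have m2 := hm 2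
  have hM0 : 0 < M := by rw [hM]; positivity
  have n0 : ∀ t, q t 1 - q t 0 ≠ 0 := fun t => sub_ne_zero.mpr (hc t 1 0 (by decide))
  have e1 : ∀ t, ‖q t 2 - q t 0‖ = ‖q t 1 - q t 0‖ := fun t => by
    rw [← (he t).2, ← (he t).1, norm_sub_rev]
  have e2 : ∀ t, ‖q t 2 - q t 1‖ = ‖q t 1 - q t 0‖ := fun t => by
    rw [norm_sub_rev, ← (he t).1, norm_sub_rev]
  have hP : ∀ t, HasDerivAt (fun s => v s 1 - v s 0) (-(M * ff (q t 1 - q t 0))) t := fun t => by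
    refine hd_congr ((hv t 1).sub (hv t 0)) (fun _ => rfl) ?_
    obtain ⟨b0, b1, -⟩ := bk_acc m (q t)
    have : _ = bkAcc m (q t) 1 - bkAcc m (q t) 0 := rfl
    rw [← neg_sub (q t 1), ff_neg] at b1
    refine Eq.trans ?_ this.symm
    rw [b0, b1, hM]
    simp only [ff, e1, e2, Complex.real_smul]
    push_cast; ring
  have hpos : ∀ t, q t 2 - q t 0 = (1 / 2 + cL) * (q t 1 - q t 0) ∨
      q t 2 - q t 0 = (1 / 2 - cL) * (q t 1 - q t 0) := fun t =>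
    bk_apex (n0 t) (e1 t) (by rw [← e2]; congr 1; ring)
  obtain ⟨c1, c2⟩ := bk_cL
  have hne : 1 / 2 + cL ≠ 1 / 2 - cL := fun h => by
    have : cL = 0 := by linear_combination h / 2
    rw [this] at c1; norm_num at c1
  have hor : (q 0 2 - q 0 0 = (1 / 2 + cL) * (q 0 1 - q 0 0) ∧
      v 0 2 - v 0 0 = (1 / 2 + cL) * (v 0 1 - v 0 0)) ∨
      (q 0 2 - q 0 0 = (1 / 2 - cL) * (q 0 1 - q 0 0) ∧
      v 0 2 - v 0 0 = (1 / 2 - cL) * (v 0 1 - v 0 0)) := by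
    rcases hpos 0 with h | h
    · exact Or.inl ⟨h, bk_orient ((hq 0 1).sub (hq 0 0)) ((hq 0 2).sub (hq 0 0)) hpos h hne (n0 0)⟩
    · exact Or.inr ⟨h, bk_orient ((hq 0 1).sub (hq 0 0)) ((hq 0 2).sub (hq 0 0))
        (fun t => (hpos t).symm) h hne.symm (n0 0)⟩
  have x0 := n0 0
  have hr : 0 < ‖q 0 1 - q 0 0‖ := norm_pos_iff.mpr x0
  obtain ⟨ω, hω, hω2⟩ : ∃ ω : ℝ, 0 < ω ∧ ω ^ 2 = M / ‖q 0 1 - q 0 0‖ ^ 3 :=
    ⟨√(M / ‖q 0 1 - q 0 0‖ ^ 3), by positivity, Real.sq_sqrt (by positivity)⟩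
  have hωc : (ω : ℂ) ≠ 0 := by exact_mod_cast hω.ne'
  obtain ⟨η, hη⟩ : ∃ η : ℂ, v 0 1 - v 0 0 = ω * ((q 0 1 - q 0 0) * η) :=
    ⟨(v 0 1 - v 0 0) / (ω * (q 0 1 - q 0 0)), by field_simp⟩
  have k := keplerE (x := fun s => q s 1 - q s 0) (min_le_left _ (δ / 41))
    (fun t => (hq t 1).sub (hq t 0)) hP hr hω hω2
    (fun s t => by rw [norm_sub_rev, norm_sub_rev (q t 1)]; exact hs s t) hη
  have δ1 := min_le_right (1 / 1000) (δ / 41)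
  have e : ‖η - I‖ < δ ∧ ‖(starRingEnd ℂ) (-η) - I‖ < δ ∨
      ‖-η - I‖ < δ ∧ ‖(starRingEnd ℂ) η - I‖ < δ := by
    refine k.imp (fun h => ⟨by linarith, ?_⟩) fun h => ⟨?_, ?_⟩
    · rw [← Complex.norm_conj, map_sub, conj_conj, conj_I, ← neg_sub', norm_neg]; linarith
    · rw [← norm_neg, neg_sub, sub_neg_eq_add, add_comm]; linarith
    · rw [← Complex.norm_conj, map_sub, conj_conj, conj_I, sub_neg_eq_add]; linarith
  clear hP hpos e1 e2 n0 he hv hq hs hc k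
  generalize q 0 = Q at *
  generalize v 0 = V at *
  obtain ⟨x, hx⟩ : ∃ x, x = Q 1 - Q 0 := ⟨_, rfl⟩
  rw [← hx] at hor x0 hr hω2 hη
  have hmn : ∀ b, m b = ω ^ 2 * ‖x‖ ^ 3 * (fun k => m k / M) b := fun b => by
    rw [hω2]; field_simp
  rw [hη, sub_eq_iff_eq_add, sub_eq_iff_eq_add, sub_eq_iff_eq_add, sub_eq_iff_eq_add] at hor
  rw [sub_eq_iff_eq_add] at hη
  replace hx : Q 1 = x + Q 0 := by rw [hx]; ring
  obtain ⟨σ, hσ, h0, h1⟩ : ∃ σ : ℂ, (σ = 1 ∨ σ = -1) ∧ Q 2 = (1 / 2 + σ * cL) * x + Q 0 ∧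
      V 2 = (1 / 2 + σ * cL) * (ω * (x * η)) + V 0 := by
    rcases hor with ⟨h0, h1⟩ | ⟨h0, h1⟩
    · exact ⟨1, Or.inl rfl, by rw [h0]; ring, by rw [h1]; ring⟩
    · exact ⟨-1, Or.inr rfl, by rw [h0]; ring, by rw [h1]; ring⟩
  have F := fun h => Concl.fwd (fourE hr hω hmn hx hη h0 h1 h) hU
  have B := fun h => Concl.bwd (fourE (V := -V) (η := -η) hr hω hmn hx
    (by simp only [Pi.neg_apply, hη]; ring) h0 (by simp only [Pi.neg_apply, h1]; ring) h) hU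
  rcases hσ with s | s <;> rcases e with e | e <;> rcases hδ with k | k
  · exact F (.inl ⟨s, .inl (k _ e.1)⟩)
  · exact B (.inl ⟨s, .inr (k _ e.2)⟩)
  · exact B (.inl ⟨s, .inl (k _ e.1)⟩)
  · exact F (.inl ⟨s, .inr (k _ e.2)⟩)
  · exact B (.inr ⟨s, .inl (k _ e.2)⟩)
  · exact F (.inr ⟨s, .inr (k _ e.1)⟩)
  · exact F (.inr ⟨s, .inl (k _ e.2)⟩)
  · exact B (.inr ⟨s, .inr (k _ e.1)⟩)

end Pool.Agent.Lib.MP_6e7c44_mp.MR
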