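import Pool.Agent.Lib.MP_6e7c44_mp.MR.Defs

/-! The escape criterion with the quadrupole term. -/

set_option autoImplicit false

open Set Complex Filter Topology

noncomputable section

namespace Pool.Agent.Lib.MP_6e7c44_mp.MR

open LA

/-- The comparison function for the accumulated perturbations. -/
def Ph (κ j s : ℝ) : ℝ := 1 / (2 * j * s) + j / (4 * κ * s ^ 2)

lemma Ph_pos {κ j s : ℝ} (hκ : 0 < κ) (hj : 0 < j) (hs : 0 < s) : 0 < Ph κ j s := by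
  unfold Ph; positivity

lemma Ph_anti {κ j a b : ℝ} (hκ : 0 < κ) (hj : 0 < j) (ha : 0 < a) (h : a ≤ b) :
    Ph κ j b ≤ Ph κ j a := by
  unfold Ph; gcongr

lemma Ph_der {σ : ℝ → ℝ} {u κ j t : ℝ} (hκ : 0 < κ) (hj : 0 < j) (h : HasDerivAt σ u t)
    (h0 : 0 < σ t) :
    HasDerivAt (fun s => Ph κ j (σ s)) (-(u / σ t ^ 3 * (σ t / (2 * j) + j / (2 * κ)))) t := by
  have a1 := ((h.const_mul (2 * j)).inv (by positivity)).add
    ((((h.pow 2).const_mul (4 * κ)).inv (by simp only [Pi.pow_apply]; positivity)).const_mul j)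
  refine hd_congr a1 (fun s => by simp [Ph, div_eq_mul_inv]) ?_
  simp only [Pi.pow_apply]
  field_simp
  ring

lemma Ph_am {u σ κ j : ℝ} (hκ : 0 < κ) (hj : 0 < j) (hσ : 0 < σ) (hu : 0 ≤ u)
    (h : κ / σ ≤ u ^ 2) : 1 / σ ^ 3 ≤ u / σ ^ 3 * (σ / (2 * j) + j / (2 * κ)) := by
  have a1 : σ / κ ≤ (σ / (2 * j) + j / (2 * κ)) ^ 2 := by
    have e : (σ / (2 * j) + j / (2 * κ)) ^ 2 - σ / κ = (σ / (2 * j) - j / (2 * κ)) ^ 2 := by
      field_simp; ring
    nlinarith [sq_nonneg (σ / (2 * j) - j / (2 * κ))]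
  have a2 : 1 ≤ u ^ 2 * (σ / κ) := by
    have e : κ / σ * (σ / κ) = 1 := by field_simp
    rw [← e]; gcongr
  have a3 : 1 ≤ u * (σ / (2 * j) + j / (2 * κ)) := by
    apply abs_le_of_sq_le_sq' _ (by positivity) |>.2
    rw [mul_pow]
    nlinarith [mul_le_mul_of_nonneg_left a1 (sq_nonneg u)]
  rw [div_mul_eq_mul_div]
  gcongr

/-- A quantity with a derivative of the order of the tidal force changes little. -/
lemma drift {F F' σ u : ℝ → ℝ} {κ j K φ t : ℝ} (ht : 0 ≤ t) (hκ : 0 < κ) (hj : 0 < j)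
    (hK : 0 ≤ K) (hF : ∀ s ∈ Icc 0 t, HasDerivAt F (F' s) s)
    (hσ : ∀ s ∈ Icc 0 t, HasDerivAt σ (u s) s) (σ0 : ∀ s ∈ Icc 0 t, 0 < σ s)
    (u0 : ∀ s ∈ Icc 0 t, 0 ≤ u s) (hu : ∀ s ∈ Icc 0 t, κ / σ s ≤ u s ^ 2)
    (hb : ∀ s ∈ Icc 0 t, -(K * (1 / σ s ^ 3)) ≤ F' s) (hφ : Ph κ j (σ 0) ≤ φ) :
    F 0 - K * φ + K * Ph κ j (σ t) ≤ F t := by
  have := mono_of_deriv (F := fun s => F s - K * Ph κ j (σ s))
    (F' := fun s => F' s + K * (u s / σ s ^ 3 * (σ s / (2 * j) + j / (2 * κ)))) ht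
    (fun s hs => hd_congr ((hF s hs).sub ((Ph_der hκ hj (hσ s hs) (σ0 s hs)).const_mul K))
      (fun _ => rfl) (by ring))
    (fun s hs => by
      have a1 := mul_le_mul_of_nonneg_left (Ph_am hκ hj (σ0 s hs) (u0 s hs) (hu s hs)) hK
      linarith [hb s hs])
  have a2 := mul_le_mul_of_nonneg_left hφ hK
  linarith

lemma low {θ α β : ℝ} {x y : ℂ} (θ0 : 0 < θ) (θ1 : θ < 1) (b0 : θ * α ≤ β) (b1 : (1 - θ) * α ≤ β)
    (h : ‖x‖ ≤ α) : ‖y‖ - β ≤ ‖y - θ • x‖ ∧ ‖y‖ - β ≤ ‖y + (1 - θ) • x‖ := by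
  constructor
  · have a1 := norm_sub_norm_le y (θ • x)
    rw [norm_smul, Real.norm_of_nonneg θ0.le] at a1
    nlinarith
  · have a1 := norm_sub_norm_le y (-((1 - θ) • x))
    rw [sub_neg_eq_add, norm_neg, norm_smul, Real.norm_of_nonneg (by linarith)] at a1
    nlinarith

/-- The attraction of the binary is the attraction of its centre of mass up to the second order. -/
lemma quad {θ α β c : ℝ} {x y : ℂ} (θ0 : 0 < θ) (θ1 : θ < 1) (b0 : θ * α ≤ β)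
    (b1 : (1 - θ) * α ≤ β) (h : ‖x‖ ≤ α) (hy : β < ‖y‖) (hc : 3 * (θ * (1 - θ)) * α ^ 2 ≤ c) :
    ‖-((1 - θ) • ff (y - θ • x)) - θ • ff (y + (1 - θ) • x) + ff y‖ ≤ c / (‖y‖ - β) ^ 4 := by
  have n0 := norm_nonneg x
  have hα : 0 ≤ α := n0.trans h
  have s0 : 0 < ‖y‖ - β := by linarith
  have a1 := ff2 (x := y) (e := -(θ • x)) (ε := θ * α)
    (by rw [norm_neg, norm_smul, Real.norm_of_nonneg θ0.le]; gcongr) (by linarith)
  have a2 := ff2 (x := y) (e := (1 - θ) • x) (ε := (1 - θ) * α)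
    (by rw [norm_smul, Real.norm_of_nonneg (by linarith)]; gcongr) (by linarith)
  have a3 : 3 * (θ * α) ^ 2 / (‖y‖ - θ * α) ^ 4 ≤ 3 * (θ * α) ^ 2 / (‖y‖ - β) ^ 4 := by gcongr
  have a4 : 3 * ((1 - θ) * α) ^ 2 / (‖y‖ - (1 - θ) * α) ^ 4
      ≤ 3 * ((1 - θ) * α) ^ 2 / (‖y‖ - β) ^ 4 := by gcongr
  have e : -((1 - θ) • ff (y - θ • x)) - θ • ff (y + (1 - θ) • x) + ff y
      = -((1 - θ) • (ff (y + -(θ • x)) - ff y - dff y (-(θ • x))))
        - θ • (ff (y + (1 - θ) • x) - ff y - dff y ((1 - θ) • x)) := by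
    rw [← sub_eq_add_neg]
    generalize ff (y - θ • x) = A
    generalize ff (y + (1 - θ) • x) = B
    generalize ff y = C
    apply Complex.ext <;>
      simp only [dff, dot, Complex.add_re, Complex.add_im, Complex.neg_re, Complex.neg_im,
        Complex.sub_re, Complex.sub_im, Complex.smul_re, Complex.smul_im, smul_eq_mul] <;> ring
  rw [e]
  refine (norm_sub_le _ _).trans ?_
  rw [norm_neg, norm_smul, norm_smul, Real.norm_of_nonneg (by linarith),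
    Real.norm_of_nonneg θ0.le]
  have a5 := mul_le_mul_of_nonneg_left (a1.trans a3) (by linarith : 0 ≤ 1 - θ)
  have a6 := mul_le_mul_of_nonneg_left (a2.trans a4) θ0.le
  have a7 : (1 - θ) * (3 * (θ * α) ^ 2 / (‖y‖ - β) ^ 4)
      + θ * (3 * ((1 - θ) * α) ^ 2 / (‖y‖ - β) ^ 4)
      = 3 * (θ * (1 - θ)) * α ^ 2 / (‖y‖ - β) ^ 4 := by ring
  have a8 : 3 * (θ * (1 - θ)) * α ^ 2 / (‖y‖ - β) ^ 4 ≤ c / (‖y‖ - β) ^ 4 := by gcongr
  linarith

lemma rad {κ ρ β l r : ℝ} (hκ : 0 < κ) (hβ : 0 ≤ β) (h1 : β < ρ) (h2 : ρ ≤ r)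
    (h : κ * ρ ^ 2 ≤ (2 * ρ - l ^ 2) * (ρ - β)) :
    κ / (r - β) ≤ 2 * (1 / r - l ^ 2 / (2 * r ^ 2)) := by
  have ρ0 : 0 < ρ := by linarith
  have r0 : 0 < r := by linarith
  have a1 : κ ≤ (2 - l ^ 2 / ρ) * (1 - β / ρ) := by
    have e : (2 - l ^ 2 / ρ) * (1 - β / ρ) = (2 * ρ - l ^ 2) * (ρ - β) / ρ ^ 2 := by field_simp
    rw [e, le_div_iff₀ (by positivity)]; exact h
  have a2 : 0 < 1 - β / ρ := by rw [sub_pos, div_lt_one ρ0]; exact h1
  have a3 : 0 < 2 - l ^ 2 / ρ := by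
    by_contra hh
    nlinarith [mul_nonneg (neg_nonneg.2 (not_lt.1 hh)) a2.le]
  have a4 : l ^ 2 / r ≤ l ^ 2 / ρ := by gcongr
  have a5 : β / r ≤ β / ρ := by gcongr
  have a6 : (2 - l ^ 2 / ρ) * (1 - β / ρ) ≤ (2 - l ^ 2 / r) * (1 - β / r) :=
    mul_le_mul (by linarith) (by linarith) a2.le (by linarith)
  rw [div_le_iff₀ (by linarith)]
  have e : 2 * (1 / r - l ^ 2 / (2 * r ^ 2)) * (r - β) = (2 - l ^ 2 / r) * (1 - β / r) := by
    field_simp
  linarith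

/-- The consequences of the bounds for the energy and the angular momentum of the binary. -/
lemma bin {ν α m : ℝ} {x p : ℂ} (ν0 : 0 ≤ ν) (ν1 : ν ≤ 1 / 2) (hx : 0 < ‖x‖) (hα : ‖x‖ ≤ α)
    (m0 : 3 / 20 ≤ m) (m1 : m ^ 2 ≤ α) (hm : m ≤ cr x p)
    (he : ‖p‖ ^ 2 / 2 - (1 - ν) * ‖x‖⁻¹ < m ^ 2 / (2 * α ^ 2) - (1 - ν) / α) :
    1 / 100 < ‖x‖ ∧ ‖x‖ < α ∧ ‖p‖ ^ 2 * ‖x‖ < 2 := by
  have α0 : 0 < α := by linarith
  have a1 : m ^ 2 / (2 * α ^ 2) ≤ (1 - ν) / α := by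
    rw [div_le_div_iff₀ (by positivity) α0]
    nlinarith [mul_le_mul_of_nonneg_right m1 α0.le, mul_nonneg (sub_nonneg.2 ν1) (sq_nonneg α)]
  have a2 : ‖p‖ ^ 2 * ‖x‖ < 2 := by
    have b1 : ‖p‖ ^ 2 / 2 < (1 - ν) * ‖x‖⁻¹ := by linarith
    have b2 := mul_lt_mul_of_pos_right b1 hx
    rw [mul_assoc, inv_mul_cancel₀ hx.ne'] at b2
    linarith
  have a3 : m ^ 2 ≤ ‖x‖ ^ 2 * ‖p‖ ^ 2 := by
    have := pow_le_pow_left₀ (by linarith) hm 2
    nlinarith [dot_cr x p, sq_nonneg (dot x p)]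
  refine ⟨by nlinarith, lt_of_le_of_ne hα fun e => ?_, a2⟩
  rw [e] at he a3
  have a4 : m ^ 2 / (2 * α ^ 2) ≤ ‖p‖ ^ 2 / 2 := by
    rw [div_le_div_iff₀ (by positivity) (by norm_num)]; linarith
  rw [← div_eq_mul_inv] at he
  linarith

theorem core {x p y w : ℝ → ℂ} {θ ν : ℝ}
    (hx : ∀ t, HasDerivAt x (p t) t)
    (hp : ∀ t, HasDerivAt p
      (-((1 - ν) • fc (x t)) + ν • (fc (y t - θ • x t) - fc (y t + (1 - θ) • x t))) t)
    (hy : ∀ t, HasDerivAt y (w t) t)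
    (hw : ∀ t, HasDerivAt w
      (-((1 - θ) • fc (y t - θ • x t)) - θ • fc (y t + (1 - θ) • x t)) t)
    (θ0 : 0 < θ) (θ1 : θ < 1) (ν0 : 0 ≤ ν) (x0 : x 0 = 1) (h : OutC θ ν (p 0) (y 0) (w 0)) :
    ∀ t, 0 ≤ t → 1 / 100 ≤ ‖x t‖ ∧ 1 / 2 + t / 20 ≤ ‖y t - θ • x t‖ ∧
      1 / 2 + t / 20 ≤ ‖y t + (1 - θ) • x t‖ := by
  obtain ⟨α, ρ, β, c, κ, j, φ, l, m, q, hα, b0, b1, hρ, i1, i2, hc, hκ, hj, hφ, l0, hκρ, i3, i4,
    ν1, m0, m1, i5, q0, hq, i6⟩ := h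
  have β0 : 0 ≤ β := le_trans (by positivity) b0
  have c0 : 0 < c := lt_of_lt_of_le (by have := sub_pos.2 θ1; positivity) hc
  have ρβ : 0 < ρ - β := by linarith
  have φ0 : 0 < φ := lt_of_lt_of_le (Ph_pos hκ hj ρβ) hφ
  have hφ' : Ph κ j (‖y 0‖ - β) ≤ φ := (Ph_anti hκ hj ρβ (by linarith)).trans hφ
  have K0 : 0 < c * ρ / (ρ - β) := by have : 0 < ρ := by linarith
                                      positivity
  obtain ⟨ε, hε, hε0⟩ : ∃ ε : ℝ, |ε| = 1 ∧ ε * cr (y 0) (w 0) = |cr (y 0) (w 0)| := by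
    rcases le_total 0 (cr (y 0) (w 0)) with h | h
    · exact ⟨1, by simp, by rw [abs_of_nonneg h, one_mul]⟩
    · exact ⟨-1, by simp, by rw [abs_of_nonpos h, neg_one_mul]⟩
  let S : Set ℝ := {t | 1 / 100 ≤ ‖x t‖ ∧ ‖x t‖ ≤ α ∧ ‖p t‖ ^ 2 * ‖x t‖ ≤ 2 ∧
    0 ≤ dot (y t) (w t) ∧ l ≤ ε * cr (y t) (w t)}
  have core : ∀ t1, 0 ≤ t1 → Icc 0 t1 ⊆ S →
      (1 / 100 < ‖x t1‖ ∧ ‖x t1‖ < α ∧ ‖p t1‖ ^ 2 * ‖x t1‖ < 2 ∧
        0 < dot (y t1) (w t1) ∧ l < ε * cr (y t1) (w t1)) ∧ 1 / 2 + t1 / 20 ≤ ‖y t1‖ - β := by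
    intro t1 ht1 hS
    have sub : ∀ {t s : ℝ}, t ∈ Icc 0 t1 → s ∈ Icc 0 t → s ∈ Icc 0 t1 :=
      fun ht hs => ⟨hs.1, le_trans hs.2 ht.2⟩
    have hxr : ∀ t ∈ Icc 0 t1, 0 < ‖x t‖ := fun t ht => by linarith [(hS ht).1]
    have hyρ : ∀ t ∈ Icc 0 t1, ρ ≤ ‖y t‖ := fun t ht => by
      have := mono_of_deriv (F := fun s => ‖y s‖ ^ 2) (F' := fun s => 2 * dot (y s) (w s)) ht.1
        (fun s _ => esc_hd_sq (hy s)) (fun s hs => by linarith [(hS (sub ht hs)).2.2.2.1])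
      exact i1.trans (abs_le_of_sq_le_sq' this (norm_nonneg _)).2
    have hσ : ∀ t ∈ Icc 0 t1, 0 < ‖y t‖ - β := fun t ht => by linarith [hyρ t ht]
    have hys : ∀ t ∈ Icc 0 t1, 0 < ‖y t‖ := fun t ht => by linarith [hσ t ht]
    have l01 : ∀ t ∈ Icc 0 t1, ‖y t‖ - β ≤ ‖y t - θ • x t‖ ∧ ‖y t‖ - β ≤ ‖y t + (1 - θ) • x t‖ :=
      fun t ht => low θ0 θ1 b0 b1 (hS ht).2.1
    have f0 : ∀ t ∈ Icc 0 t1, fc (y t - θ • x t) = ff (y t - θ • x t) :=
      fun t ht => fc_eq (by linarith [(l01 t ht).1, hyρ t ht])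
    have f1 : ∀ t ∈ Icc 0 t1, fc (y t + (1 - θ) • x t) = ff (y t + (1 - θ) • x t) :=
      fun t ht => fc_eq (by linarith [(l01 t ht).2, hyρ t ht])
    -- the two perturbations
    obtain ⟨δ, hδ⟩ : ∃ δ : ℝ → ℂ, ∀ t, δ t =
      -((1 - θ) • ff (y t - θ • x t)) - θ • ff (y t + (1 - θ) • x t) + ff (y t) := ⟨_, fun _ => rfl⟩
    obtain ⟨τ, hτ⟩ : ∃ τ : ℝ → ℂ, ∀ t, τ t =
      ν • (ff (y t - θ • x t) - ff (y t + (1 - θ) • x t)) := ⟨_, fun _ => rfl⟩
    have hw' : ∀ t ∈ Icc 0 t1, HasDerivAt w (δ t - ff (y t)) t := fun t ht =>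
      hd_congr (hw t) (fun _ => rfl) (by rw [hδ, f0 t ht, f1 t ht]; abel)
    have hp' : ∀ t ∈ Icc 0 t1, HasDerivAt p (τ t - (1 - ν) • ff (x t)) t := fun t ht =>
      hd_congr (hp t) (fun _ => rfl) (by rw [hτ, f0 t ht, f1 t ht, fc_eq (hS ht).1]; abel)
    have bδ : ∀ t ∈ Icc 0 t1, ‖δ t‖ ≤ c / (‖y t‖ - β) ^ 4 := fun t ht => by
      rw [hδ]; exact quad θ0 θ1 b0 b1 (hS ht).2.1 (by linarith [hσ t ht]) hc
    have bτ : ∀ t ∈ Icc 0 t1, ‖τ t‖ ≤ 2 * ν * ‖x t‖ * (1 / (‖y t‖ - β) ^ 3) := fun t ht => by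
      have c2 := ff_lip (hσ t ht) (l01 t ht).1 (l01 t ht).2
      have c3 : y t - θ • x t - (y t + (1 - θ) • x t) = -x t := by
        rw [sub_smul, one_smul]; abel
      rw [c3, norm_neg] at c2
      rw [hτ, norm_smul, Real.norm_of_nonneg ν0]
      refine (mul_le_mul_of_nonneg_left c2 ν0).trans_eq (by ring)
    -- the radial motion of the third body
    let u : ℝ → ℝ := fun t => dot (y t) (w t) / ‖y t‖
    have hu0 : ∀ t ∈ Icc 0 t1, 0 ≤ u t := fun t ht => div_nonneg (hS ht).2.2.2.1 (norm_nonneg _)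
    have hs : ∀ t ∈ Icc 0 t1, HasDerivAt (fun s => ‖y s‖) (u t) t :=
      fun t ht => hd_norm (hy t) (hys t ht)
    have hsσ : ∀ t ∈ Icc 0 t1, HasDerivAt (fun s => ‖y s‖ - β) (u t) t :=
      fun t ht => (hs t ht).sub_const β
    let u' : ℝ → ℝ := fun t =>
      cr (y t) (w t) ^ 2 / ‖y t‖ ^ 3 - 1 / ‖y t‖ ^ 2 + dot (y t) (δ t) / ‖y t‖
    have hu : ∀ t ∈ Icc 0 t1, HasDerivAt u (u' t) t := fun t ht => by
      refine hd_congr ((hd_dot (hy t) (hw' t ht)).div (hs t ht) (hys t ht).ne') (fun _ => rfl) ?_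
      have a0 := (hys t ht).ne'
      have a3 : cr (y t) (w t) ^ 2 = ‖y t‖ ^ 2 * ‖w t‖ ^ 2 - dot (y t) (w t) ^ 2 := by
        linarith [dot_cr (y t) (w t)]
      have a4 : dot (y t) (δ t - ff (y t)) = dot (y t) (δ t) - (‖y t‖ ^ 3)⁻¹ * ‖y t‖ ^ 2 := by
        rw [← dot_self]
        simp only [ff, dot, Complex.sub_re, Complex.sub_im, Complex.smul_re, Complex.smul_im,
          smul_eq_mul]
        ring
      simp only [u', u]
      rw [dot_self, a3, a4]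
      field_simp
      ring
    have hu' : ∀ t ∈ Icc 0 t1,
        0 ≤ u' t - l ^ 2 / ‖y t‖ ^ 3 + 1 / ‖y t‖ ^ 2 + c / (‖y t‖ - β) ^ 4 := by
      intro t ht
      have a0 := hys t ht
      have a2 := (abs_le.mp (abs_dot_le (y t) (δ t))).1
      have a4 : -‖δ t‖ ≤ dot (y t) (δ t) / ‖y t‖ := by
        rw [le_div_iff₀ a0]; linarith
      have a5 : l ^ 2 ≤ cr (y t) (w t) ^ 2 := by
        have b1 := pow_le_pow_left₀ l0 (hS ht).2.2.2.2 2
        rwa [mul_pow, ← sq_abs ε, hε, one_pow, one_mul] at b1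
      have a6 : l ^ 2 / ‖y t‖ ^ 3 ≤ cr (y t) (w t) ^ 2 / ‖y t‖ ^ 3 := by gcongr
      simp only [u']
      linarith [bδ t ht]
    have hG : ∀ t ∈ Icc 0 t1, 1 / 400 + κ / (‖y t‖ - β) ≤ u t ^ 2 := by
      intro t ht
      have a1 := mono_of_deriv (F := fun s => u s ^ 2 / 2 + l ^ 2 / 2 * (‖y s‖ ^ 2)⁻¹ - ‖y s‖⁻¹
          - c / 3 * ((‖y s‖ - β) ^ 3)⁻¹)
        (F' := fun s => u s * (u' s - l ^ 2 / ‖y s‖ ^ 3 + 1 / ‖y s‖ ^ 2 + c / (‖y s‖ - β) ^ 4)) ht.1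
        (fun s hs' => by
          have hs2 := sub ht hs'
          have n1 := (hys s hs2).ne'
          have n2 := (hσ s hs2).ne'
          have a1 := (((((hu s hs2).pow 2).div_const 2).add
            ((((hs s hs2).pow 2).inv (pow_ne_zero 2 n1)).const_mul (l ^ 2 / 2))).sub
            ((hs s hs2).inv n1)).sub
            ((((hsσ s hs2).pow 3).inv (pow_ne_zero 3 n2)).const_mul (c / 3))
          refine hd_congr a1 (fun _ => rfl) ?_
          simp only [Pi.pow_apply, Nat.cast_ofNat, Nat.add_one_sub_one]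
          field_simp
          ring)
        (fun s hs' => mul_nonneg (hu0 s (sub ht hs')) (hu' s (sub ht hs')))
      have y0 := hys 0 ⟨le_rfl, ht1⟩
      have a2 : c / 3 * ((‖y 0‖ - β) ^ 3)⁻¹ ≤ c / (3 * (ρ - β) ^ 3) := by
        rw [← div_div, div_eq_mul_inv (c / 3)]; gcongr
      have a3 : (dot (y 0) (w 0) ^ 2 + l ^ 2) / (2 * ‖y 0‖ ^ 2)
          = u 0 ^ 2 / 2 + l ^ 2 / 2 * (‖y 0‖ ^ 2)⁻¹ := by
        simp only [u]; field_simp
      have a4 := rad hκ β0 (by linarith) (hyρ t ht) hκρ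
      have a5 : 0 ≤ c / 3 * ((‖y t‖ - β) ^ 3)⁻¹ := by have := hσ t ht; positivity
      have a6 : l ^ 2 / (2 * ‖y t‖ ^ 2) = l ^ 2 / 2 * (‖y t‖ ^ 2)⁻¹ := by
        rw [← div_div, div_eq_mul_inv (l ^ 2 / 2)]
      rw [one_div ‖y 0‖] at i4
      rw [one_div ‖y t‖] at a4
      linarith
    have huv : ∀ t ∈ Icc 0 t1, 1 / 20 ≤ u t := by
      intro t ht
      apply abs_le_of_sq_le_sq' _ (hu0 t ht) |>.2
      have a2 : 0 < κ / (‖y t‖ - β) := div_pos hκ (hσ t ht)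
      linarith [hG t ht]
    have huκ : ∀ t ∈ Icc 0 t1, κ / (‖y t‖ - β) ≤ u t ^ 2 := fun t ht => by linarith [hG t ht]
    have hgrow : 1 / 2 + t1 / 20 ≤ ‖y t1‖ - β := by
      have := mono_of_deriv (F := fun s => ‖y s‖ - 1 / 20 * s) (F' := fun s => u s - 1 / 20) ht1
        (fun s hs' => hd_congr ((hs s hs').sub ((hasDerivAt_id s).const_mul (1 / 20)))
          (fun _ => rfl) (by simp))
        (fun s hs' => by linarith [huv s hs'])
      linarith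
    have i3' : ∀ t ∈ Icc 0 t1, 0 ≤ 1 / (‖y t‖ - β) ^ 3 := fun t ht => by
      have := hσ t ht; positivity
    -- the angular momentum of the third body
    have hL := drift (F := fun s => ε * cr (y s) (w s)) (F' := fun s => ε * cr (y s) (δ s))
      ht1 hκ hj K0.le
      (fun s hs' => hd_congr ((hd_cr (hy s) (hw' s hs')).const_mul ε) (fun _ => rfl) (by
        simp only [ff, cr, Complex.sub_re, Complex.sub_im, Complex.smul_re, Complex.smul_im,
          smul_eq_mul]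
        ring))
      hsσ hσ hu0 huκ
      (fun s hs' => by
        have a0 := hσ s hs'
        have a1 : |ε * cr (y s) (δ s)| ≤ ‖y s‖ * (c / (‖y s‖ - β) ^ 4) := by
          rw [abs_mul, hε, one_mul]
          exact (abs_cr_le _ _).trans (mul_le_mul_of_nonneg_left (bδ s hs') (norm_nonneg _))
        have a2 : ‖y s‖ / (‖y s‖ - β) ≤ ρ / (ρ - β) := by
          rw [div_le_div_iff₀ a0 ρβ]
          nlinarith [mul_le_mul_of_nonneg_left (hyρ s hs') β0]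
        have a3 : ‖y s‖ * (c / (‖y s‖ - β) ^ 4)
            = c * (‖y s‖ / (‖y s‖ - β)) * (1 / (‖y s‖ - β) ^ 3) := by field_simp
        have a4 : c * (‖y s‖ / (‖y s‖ - β)) * (1 / (‖y s‖ - β) ^ 3)
            ≤ c * (ρ / (ρ - β)) * (1 / (‖y s‖ - β) ^ 3) := by gcongr
        rw [mul_div_assoc c ρ]
        linarith [(abs_le.mp a1).1]) hφ'
    -- the angular momentum of the binary
    have hM := drift (F := fun s => cr (x s) (p s)) (F' := fun s => cr (x s) (τ s))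
      (K := 2 * ν * α ^ 2) ht1 hκ hj (by positivity)
      (fun s hs' => hd_congr (hd_cr (hx s) (hp' s hs')) (fun _ => rfl) (by
        simp only [ff, cr, Complex.sub_re, Complex.sub_im, Complex.smul_re, Complex.smul_im,
          smul_eq_mul]
        ring))
      hsσ hσ hu0 huκ
      (fun s hs' => by
        have a1 := bτ s hs'
        have a2 := (abs_le.mp (abs_cr_le (x s) (τ s))).1
        have b2 := (hS hs').2.1
        have a4 := i3' s hs'
        have a6 : ‖x s‖ * ‖τ s‖ ≤ 2 * ν * α ^ 2 * (1 / (‖y s‖ - β) ^ 3) := by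
          calc ‖x s‖ * ‖τ s‖ ≤ ‖x s‖ * (2 * ν * ‖x s‖ * (1 / (‖y s‖ - β) ^ 3)) := by gcongr
            _ = 2 * ν * ‖x s‖ ^ 2 * (1 / (‖y s‖ - β) ^ 3) := by ring
            _ ≤ 2 * ν * α ^ 2 * (1 / (‖y s‖ - β) ^ 3) := by gcongr
        linarith) hφ'
    -- the energy of the binary
    have hE := drift (F := fun s => -(‖p s‖ ^ 2 / 2 - (1 - ν) * ‖x s‖⁻¹))
      (F' := fun s => -dot (p s) (τ s)) (K := 2 * ν * q) ht1 hκ hj (by positivity)
      (fun s hs' => hd_congr ((((esc_hd_sq (hp' s hs')).div_const 2).sub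
        ((esc_hd_inv (hx s) (hxr s hs')).const_mul (1 - ν))).neg) (fun _ => rfl) (by
          generalize ff (x s) = A
          simp only [dot, Complex.sub_re, Complex.sub_im, Complex.smul_re, Complex.smul_im,
            smul_eq_mul]
          ring))
      hsσ hσ hu0 huκ
      (fun s hs' => by
        have a0 := hxr s hs'
        have a1 := bτ s hs'
        have a2 := (abs_le.mp (abs_dot_le (p s) (τ s))).2
        have a3 : ‖p s‖ * ‖x s‖ ≤ q := by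
          apply abs_le_of_sq_le_sq' _ q0 |>.2
          have b1 := (hS hs').2.2.1
          have b2 := (hS hs').2.1
          nlinarith
        have a4 := i3' s hs'
        have a6 : ‖p s‖ * ‖τ s‖ ≤ 2 * ν * q * (1 / (‖y s‖ - β) ^ 3) := by
          calc ‖p s‖ * ‖τ s‖ ≤ ‖p s‖ * (2 * ν * ‖x s‖ * (1 / (‖y s‖ - β) ^ 3)) := by gcongr
            _ = 2 * ν * (‖p s‖ * ‖x s‖) * (1 / (‖y s‖ - β) ^ 3) := by ring
            _ ≤ 2 * ν * q * (1 / (‖y s‖ - β) ^ 3) := by gcongr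
        linarith) hφ'
    have ht1' : t1 ∈ Icc 0 t1 := ⟨ht1, le_rfl⟩
    have P0 := Ph_pos hκ hj (hσ t1 ht1')
    have P1 := mul_pos K0 P0
    have P2 : 0 ≤ 2 * ν * α ^ 2 * Ph κ j (‖y t1‖ - β) := by positivity
    have P3 : 0 ≤ 2 * ν * q * Ph κ j (‖y t1‖ - β) := by positivity
    have e1 : cr (x 0) (p 0) = (p 0).im := by simp [x0, cr]
    have e2 : (1 - ν) * (1 - 1 / α) = (1 - ν) - (1 - ν) / α := by ring
    simp only [x0, norm_one, inv_one, mul_one] at hE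
    obtain ⟨b7, b3, b4⟩ := bin (p := p t1) ν0 ν1 (hxr t1 ht1') (hS ht1').2.1 m0 m1 (by linarith)
      (by linarith)
    have b8 : 0 < dot (y t1) (w t1) :=
      (div_pos_iff_of_pos_right (hys t1 ht1')).mp (lt_of_lt_of_le (by norm_num) (huv t1 ht1'))
    exact ⟨⟨b7, b3, b4, b8, by linarith⟩, hgrow⟩
  have cx : Continuous x := continuous_iff_continuousAt.mpr fun t => (hx t).continuousAt
  have cp : Continuous p := continuous_iff_continuousAt.mpr fun t => (hp t).continuousAt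
  have cy : Continuous y := continuous_iff_continuousAt.mpr fun t => (hy t).continuousAt
  have cw : Continuous w := continuous_iff_continuousAt.mpr fun t => (hw t).continuousAt
  have cd : Continuous fun t => dot (y t) (w t) := by unfold dot; fun_prop
  have cc : Continuous fun t => ε * cr (y t) (w t) := by unfold cr; fun_prop
  have cpx : Continuous fun t => ‖p t‖ ^ 2 * ‖x t‖ := by fun_prop
  have hclosed : IsClosed S :=
    (isClosed_le continuous_const cx.norm).inter ((isClosed_le cx.norm continuous_const).inter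
      ((isClosed_le cpx continuous_const).inter ((isClosed_le continuous_const cd).inter
        (isClosed_le continuous_const cc))))
  have hT : (0 : ℝ) ∈ S := by
    have n1 : ‖x 0‖ = 1 := by rw [x0, norm_one]
    have e1 : cr (x 0) (p 0) = (p 0).im := by simp [x0, cr]
    have e2 : (1 - ν) * (1 - 1 / α) = (1 - ν) - (1 - ν) / α := by ring
    have P1 := mul_pos K0 φ0
    have P2 : 0 ≤ 2 * ν * α ^ 2 * φ := by positivity
    have P3 : 0 ≤ 2 * ν * q * φ := by positivity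
    obtain ⟨b7, b3, b4⟩ := bin (x := x 0) (p := p 0) ν0 ν1 (by linarith) (by linarith) m0 m1
      (by linarith) (by rw [n1, inv_one, mul_one]; linarith)
    exact ⟨b7.le, b3.le, b4.le, i2, by linarith⟩
  intro t ht
  have hall : Icc 0 t ⊆ S := by
    apply (hclosed.inter isClosed_Icc).Icc_subset_of_forall_mem_nhdsGT_of_Icc_subset hT
    intro s hs hsub
    obtain ⟨⟨a1, a2, a3, a4, a5⟩, -⟩ := core s hs.1 hsub
    apply mem_nhdsWithin_of_mem_nhds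
    filter_upwards [cx.norm.continuousAt.eventually (lt_mem_nhds a1),
      cx.norm.continuousAt.eventually (gt_mem_nhds a2),
      cpx.continuousAt.eventually (gt_mem_nhds a3),
      cd.continuousAt.eventually (lt_mem_nhds a4),
      cc.continuousAt.eventually (lt_mem_nhds a5)] with r b1 b2 b3 b4 b5
    exact ⟨b1.le, b2.le, b3.le, b4.le, b5.le⟩
  obtain ⟨⟨a1, a2, -⟩, a3⟩ := core t ht hall
  obtain ⟨a4, a5⟩ := low (y := y t) θ0 θ1 b0 b1 a2.le
  exact ⟨a1.le, by linarith, by linarith⟩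

theorem escape {μ : Fin 3 → ℝ} (hμ : RS.Ms μ) {z : Z3}
    (h : Out ((μ 0 - μ 1) / 2) (μ 2) (co z)) : EscR μ z := by
  have p0 := hμ.1 0
  have p1 := hμ.1 1
  have p2 := hμ.1 2
  have hsum := hμ.2
  have hν : 0 < 1 - μ 2 := by linarith
  obtain ⟨a, ha⟩ : ∃ a, a = (μ 0 - μ 1) / 2 / (1 - μ 2) := ⟨_, rfl⟩
  obtain ⟨θ, hθ⟩ : ∃ θ, θ = 1 / 2 + a := ⟨_, rfl⟩
  have hθ1 : θ * (1 - μ 2) = μ 0 := by
    rw [hθ, ha, add_mul, div_mul_cancel₀ _ hν.ne']; linarith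
  have θ0 : 0 < θ := by
    by_contra hh
    nlinarith [mul_nonneg (neg_nonneg.2 (not_lt.1 hh)) hν.le]
  have θ1 : θ < 1 := by
    by_contra hh
    nlinarith [mul_nonneg (sub_nonneg.2 (not_lt.1 hh)) hν.le]
  rw [Out, ← ha, ← hθ] at h
  obtain ⟨d, v, hs, e0, e1⟩ := exists_sol μ (fun k => by
    rw [abs_of_pos (hμ.1 k)]
    fin_cases k
    · show μ 0 ≤ 1; linarith
    · show μ 1 ≤ 1; linarith
    · show μ 2 ≤ 1; linarith) (rel (phys z).1) (rel (phys z).2)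
  have hz := esc_zero_sum hs hsum (by rw [e0]; exact rel_sum _) (by rw [e1]; exact rel_sum _)
  have hd : ∀ k t, HasDerivAt (fun s => d s k) (v t k) t := fun k t => hasDerivAt_pi.mp (hs.hd t) k
  have hv : ∀ k t, HasDerivAt (fun s => v s k) (GG μ (d t) k) t :=
    fun k t => hasDerivAt_pi.mp (hs.hv t) k
  have r0 : ∀ t, d t 0 + θ • d t 2 - θ • d t 2 = d t 0 := fun t => by abel
  have r1 : ∀ t, d t 0 + θ • d t 2 + (1 - θ) • d t 2 = -d t 1 := fun t => by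
    have := hz t
    rw [sub_smul, one_smul]
    linear_combination this
  have d0 : d 0 0 = z.2.1 - 1 / 2 := by rw [e0]; simp [rel, phys]; ring
  have d2 : d 0 2 = 1 := by rw [e0]; simp [rel, phys]
  have v0 : v 0 0 = z.2.2 - z.1 / 2 := by rw [e1]; simp [rel, phys]; ring
  have v2 : v 0 2 = z.1 := by rw [e1]; simp [rel, phys]
  have y0 : d 0 0 + θ • d 0 2 = ⟨co z .i2 + a, co z .i3⟩ := by
    rw [d0, d2, hθ]; apply Complex.ext <;> simp [co]
    ring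
  have w0 : v 0 0 + θ • v 0 2 = ⟨co z .i4 + a * co z .i0, co z .i5 + a * co z .i1⟩ := by
    rw [v0, v2, hθ]; apply Complex.ext <;> simp [co] <;> ring
  have key := core (x := fun t => d t 2) (p := fun t => v t 2)
    (y := fun t => d t 0 + θ • d t 2) (w := fun t => v t 0 + θ • v t 2) (θ := θ) (ν := μ 2)
    (hd 2)
    (fun t => hd_congr (hv 2 t) (fun _ => rfl) (by
      simp only [r0, r1, esc_fc_neg, GG, Fin.sum_univ_three]
      module))
    (fun t => (hd 0 t).add ((hd 2 t).const_smul θ))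
    (fun t => hd_congr ((hv 0 t).add ((hv 2 t).const_smul θ)) (fun _ => rfl) (by
      have h0 : μ 0 = θ - θ * μ 2 := by linarith
      simp only [r0, r1, esc_fc_neg, GG, Fin.sum_univ_three, h0]
      module))
    θ0 θ1 p2.le d2 (by simp only [y0, w0]; rw [v2]; exact h)
  simp only [r0, r1, norm_neg] at key
  have far : ∀ t, 0 ≤ t → ∀ k, 1 / 100 ≤ ‖d t k‖ := by
    intro t ht k
    obtain ⟨k1, k2, k3⟩ := key t ht
    fin_cases k
    · show 1 / 100 ≤ ‖d t 0‖; linarith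
    · show 1 / 100 ≤ ‖d t 1‖; linarith
    · exact k1
  refine esc_lift hsum e0 e1 hs.hd (fun t ht => hd_congr (hs.hv t) (fun _ => rfl) ?_) hz
    (fun t ht k h => ?_) ?_
  · funext k
    simp only [GG, fc_eq (far t ht _)]
  · have := far t ht k
    rw [h, norm_zero] at this
    norm_num at this
  · have h1 : Tendsto (fun t : ℝ => 1 / 2 + t / 20) atTop atTop :=
      tendsto_atTop_add_const_left _ _ (tendsto_id.atTop_div_const (by norm_num))
    refine tendsto_atTop_mono' _ ?_ h1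
    filter_upwards [eventually_ge_atTop 0] with t ht using (key t ht).2.1

end Pool.Agent.Lib.MP_6e7c44_mp.MR
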