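import Pool.Agent.Lib.MP_6e7c44_mp.MR.Tube

/-! The cone at the Lagrange state and an essential family of orbits that leave inside it. -/

set_option autoImplicit false

open Set Complex Filter Topology

noncomputable section

namespace Pool.Agent.Lib.MP_6e7c44_mp.MR

open LA

/-- The coordinates of a state in the frame. -/
def LC.y (c : LC) (z : Z3) : I6 → ℝ := c.C⁻¹.mulVec (co z - xL)

namespace FamA

lemma cs {p q w1 w2 t s d1 d2 u : ℝ} (t0 : 0 ≤ t) (ht : p ^ 2 + q ^ 2 = t ^ 2) (s0 : 0 ≤ s)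
    (h1 : |w1| ≤ s * d1) (h2 : |w2| ≤ s * d2) (u0 : 0 ≤ u) (hu : d1 ^ 2 + d2 ^ 2 ≤ u ^ 2) :
    |p * w1 + q * w2| ≤ t * (s * u) := by
  have a1 := pow_le_pow_left₀ (abs_nonneg _) h1 2
  have a2 := pow_le_pow_left₀ (abs_nonneg _) h2 2
  rw [sq_abs] at a1 a2
  have a3 : w1 ^ 2 + w2 ^ 2 ≤ (s * u) ^ 2 := by
    have := mul_le_mul_of_nonneg_left hu (sq_nonneg s)
    linarith
  refine abs_le_of_sq_le_sq ?_ (by positivity)
  have a4 := mul_le_mul_of_nonneg_left a3 (sq_nonneg t)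
  rw [mul_pow, ← ht]
  rw [← ht] at a4
  linarith [sq_nonneg (p * w2 - q * w1)]

/-- The squared norms of the three blocks. -/
def qa (y : I6 → ℝ) : ℝ := y .i0 ^ 2 + y .i1 ^ 2
def qb (y : I6 → ℝ) : ℝ := y .i2 ^ 2 + y .i3 ^ 2
def qc (y : I6 → ℝ) : ℝ := y .i4 ^ 2 + y .i5 ^ 2

lemma qa_cont : Continuous qa := by unfold qa; fun_prop
lemma qb_cont : Continuous qb := by unfold qb; fun_prop
lemma qc_cont : Continuous qc := by unfold qc; fun_prop

lemma abs_le_s {y : I6 → ℝ} {s : ℝ} (s0 : 0 ≤ s) (h1 : qa y ≤ s ^ 2) (h2 : qb y ≤ s ^ 2)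
    (h3 : qc y ≤ s ^ 2) (j : I6) : |y j| ≤ s := by
  refine abs_le_of_sq_le_sq ?_ s0
  unfold qa at h1
  unfold qb at h2
  unfold qc at h3
  cases j <;> linarith [sq_nonneg (y .i0), sq_nonneg (y .i1), sq_nonneg (y .i2),
    sq_nonneg (y .i3), sq_nonneg (y .i4), sq_nonneg (y .i5)]

/-- The signs of the derivatives inside the cone. -/
lemma cone_pt {c : LC} {u e v : ℝ} (u0 : 0 ≤ u) (e0 : 0 ≤ e) (v0 : 0 ≤ v)
    (hu : c.d .i0 ^ 2 + c.d .i1 ^ 2 ≤ u ^ 2) (he : c.d .i2 ^ 2 + c.d .i3 ^ 2 ≤ e ^ 2)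
    (hv : c.d .i4 ^ 2 + c.d .i5 ^ 2 ≤ v ^ 2) (h1 : u + e < c.a) (h2 : v ^ 2 < 4 * c.a' * (c.a - u))
    {y w : I6 → ℝ} (hw : ∀ j, |w j| ≤ √(qa y) * c.d j) (hb : qb y ≤ qa y) :
    (c.a - u) * qa y ≤ y .i0 * (c.lam y .i0 + w .i0) + y .i1 * (c.lam y .i1 + w .i1) ∧
    y .i2 * (c.lam y .i2 + w .i2) + y .i3 * (c.lam y .i3 + w .i3) ≤ (c.a - u) * qa y ∧
    y .i4 * (c.lam y .i4 + w .i4) + y .i5 * (c.lam y .i5 + w .i5) ≤ (c.a - u) * qa y := by
  have n1 : 0 ≤ qa y := by unfold qa; positivity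
  have n2 : 0 ≤ qb y := by unfold qb; positivity
  have n3 : 0 ≤ qc y := by unfold qc; positivity
  have s0 := Real.sqrt_nonneg (qa y)
  have q1 := Real.sq_sqrt n1
  have q2 := Real.sq_sqrt n2
  have q3 := Real.sq_sqrt n3
  have a1 := abs_le.1 (cs s0 q1.symm s0 (hw .i0) (hw .i1) u0 hu)
  have a2 := abs_le.1 (cs (Real.sqrt_nonneg _) q2.symm s0 (hw .i2) (hw .i3) e0 he)
  have a3 := abs_le.1 (cs (Real.sqrt_nonneg _) q3.symm s0 (hw .i4) (hw .i5) v0 hv)
  have a4 := mul_le_mul_of_nonneg_right (Real.sqrt_le_sqrt hb) (mul_nonneg s0 e0)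
  have t0 := Real.sqrt_nonneg (qc y)
  have e1 : qa y = y .i0 ^ 2 + y .i1 ^ 2 := rfl
  have e3 : qc y = y .i4 ^ 2 + y .i5 ^ 2 := rfl
  simp only [LC.lam]
  generalize √(qa y) = s at *
  generalize √(qb y) = r at *
  generalize √(qc y) = t at *
  have p0 : 0 < c.a - u := by linarith
  refine ⟨?_, ?_, ?_⟩
  · have : c.a * qa y = c.a * (y .i0 ^ 2 + y .i1 ^ 2) := by rw [e1]
    have : u * s ^ 2 = u * qa y := by rw [q1]
    linarith [a1.1]
  · have := mul_le_mul_of_nonneg_right (show e ≤ c.a - u by linarith) n1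
    have : e * s ^ 2 = e * qa y := by rw [q1]
    linarith [a2.2]
  · have b1 : c.a' * t ^ 2 = c.a' * (y .i4 ^ 2 + y .i5 ^ 2) := by rw [q3, e3]
    have b2 : 0 ≤ (c.a - u) * s ^ 2 + c.a' * t ^ 2 - t * (s * v) := by
      refine le_of_mul_le_mul_left (a := 4 * (c.a - u)) ?_ (by positivity)
      have := mul_le_mul_of_nonneg_right h2.le (sq_nonneg t)
      linarith [sq_nonneg (2 * (c.a - u) * s - v * t)]
    rw [← q1]
    linarith [a3.2]

lemma hd_sq {f g : ℝ → ℝ} {f' g' k t : ℝ} (hf : HasDerivAt f (k * f') t)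
    (hg : HasDerivAt g (k * g') t) :
    HasDerivAt (fun s => f s ^ 2 + g s ^ 2) (2 * k * (f t * f' + g t * g')) t :=
  hd_congr ((hf.fun_pow 2).fun_add (hg.fun_pow 2)) (fun _ => rfl) (by simp; ring)

/-- The cone is invariant and the first block grows. -/
lemma cone_flow {c : LC} {u e v : ℝ} (u0 : 0 ≤ u) (e0 : 0 ≤ e) (v0 : 0 ≤ v)
    (hu : c.d .i0 ^ 2 + c.d .i1 ^ 2 ≤ u ^ 2) (he : c.d .i2 ^ 2 + c.d .i3 ^ 2 ≤ e ^ 2)
    (hv : c.d .i4 ^ 2 + c.d .i5 ^ 2 ≤ v ^ 2) (h1 : u + e < c.a) (h2 : v ^ 2 < 4 * c.a' * (c.a - u))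
    {y w : ℝ → I6 → ℝ} {g : ℝ → ℝ} (g0 : ∀ t, 0 ≤ g t)
    (hd : ∀ t j, HasDerivAt (fun s => y s j) (g t * (c.lam (y t) j + w t j)) t)
    (hw : ∀ t, qb (y t) ≤ qa (y t) → qc (y t) ≤ qa (y t) → ∀ j, |w t j| ≤ √(qa (y t)) * c.d j)
    (b0 : qb (y 0) < qa (y 0)) (c0 : qc (y 0) < qa (y 0)) {T : ℝ} (hT : 0 ≤ T) :
    (∀ t ∈ Icc 0 T, (qb (y t) ≤ qa (y t) ∧ qc (y t) ≤ qa (y t)) ∧
      qa (y 0) ≤ qa (y t) ∧ qa (y t) ≤ qa (y T)) ∧
    ((∀ t ∈ Icc 0 T, g t = 1) → 2 * (c.a - u) * qa (y 0) * T ≤ qa (y T)) := by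
  have cy : Continuous y := continuous_pi fun j =>
    continuous_iff_continuousAt.2 fun t => (hd t j).continuousAt
  have ca := qa_cont.comp cy
  have cb := qb_cont.comp cy
  have cc := qc_cont.comp cy
  have da := fun t => hd_sq (hd t .i0) (hd t .i1)
  have db := fun t => hd_sq (hd t .i2) (hd t .i3)
  have dc := fun t => hd_sq (hd t .i4) (hd t .i5)
  have pt := fun t (h : qb (y t) ≤ qa (y t) ∧ qc (y t) ≤ qa (y t)) =>
    cone_pt u0 e0 v0 hu he hv h1 h2 (hw t h.1 h.2) h.1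
  have p0 : 0 < c.a - u := by linarith
  have n1 : ∀ t, 0 ≤ qa (y t) := fun t => by unfold qa; positivity
  have key : Icc 0 T ⊆ {t | qb (y t) ≤ qa (y t) ∧ qc (y t) ≤ qa (y t)} := by
    refine IsClosed.Icc_subset_of_forall_mem_nhdsGT_of_Icc_subset (IsClosed.inter ?_ isClosed_Icc)
      ⟨b0.le, c0.le⟩ fun t ht hs => mem_nhdsWithin_of_mem_nhds ?_
    · exact (isClosed_le cb ca).inter (isClosed_le cc ca)
    have m1 : qa (y 0) - qb (y 0) ≤ qa (y t) - qb (y t) :=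
      mono_of_deriv (F := fun t => qa (y t) - qb (y t)) ht.1
        (fun s _ => (da s).fun_sub (db s)) fun s k => by
          have := pt s (hs k)
          rw [← mul_sub]
          exact mul_nonneg (by have := g0 s; positivity) (by linarith [this.1, this.2.1])
    have m2 : qa (y 0) - qc (y 0) ≤ qa (y t) - qc (y t) :=
      mono_of_deriv (F := fun t => qa (y t) - qc (y t)) ht.1
        (fun s _ => (da s).fun_sub (dc s)) fun s k => by
          have := pt s (hs k)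
          rw [← mul_sub]
          exact mul_nonneg (by have := g0 s; positivity) (by linarith [this.1, this.2.2])
    filter_upwards [cb.continuousAt.eventually_lt ca.continuousAt
        (show qb (y t) < qa (y t) by linarith),
      cc.continuousAt.eventually_lt ca.continuousAt (show qc (y t) < qa (y t) by linarith)]
      with s k1 k2
    exact ⟨k1.le, k2.le⟩
  have mono : ∀ a b, 0 ≤ a → a ≤ b → b ≤ T → qa (y a) ≤ qa (y b) := fun a b ha hab hb =>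
    mono_of_deriv (F := fun t => qa (y t)) hab (fun s _ => da s) fun s k =>
      mul_nonneg (by have := g0 s; positivity)
        ((mul_nonneg p0.le (n1 s)).trans (pt s (key ⟨ha.trans k.1, k.2.trans hb⟩)).1)
  refine ⟨fun t ht => ⟨key ht, mono 0 t le_rfl ht.1 ht.2, mono t T ht.1 ht.2 le_rfl⟩, fun g1 => ?_⟩
  have m := mono_of_deriv (F := fun t => qa (y t) - 2 * (c.a - u) * qa (y 0) * t) hT
    (fun s _ => (da s).fun_sub ((hasDerivAt_id' s).const_mul _)) fun s k => by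
      have := mul_le_mul_of_nonneg_left (mono 0 s le_rfl k.1 k.2) p0.le
      rw [g1 s k]
      linarith [(pt s (key k)).1]
  linarith [n1 0]

/-- The state with given real coordinates. -/
def oc (x : I6 → ℝ) : Z3 := (⟨x .i0, x .i1⟩, ⟨x .i2, x .i3⟩, ⟨x .i4, x .i5⟩)

lemma co_oc (x : I6 → ℝ) : co (oc x) = x := funext fun i => by cases i <;> rfl

lemma mk_cont {A : Type} [TopologicalSpace A] {f g : A → ℝ} (hf : Continuous f)
    (hg : Continuous g) : Continuous fun a => (⟨f a, g a⟩ : ℂ) :=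
  Complex.equivRealProdCLM.symm.continuous.comp (hf.prodMk hg)

lemma oc_cont : Continuous oc :=
  (mk_cont (continuous_apply _) (continuous_apply _)).prodMk
    ((mk_cont (continuous_apply _) (continuous_apply _)).prodMk
      (mk_cont (continuous_apply _) (continuous_apply _)))

/-- A point of the first block. -/
def un (u : ℂ) : I6 → ℝ
  | .i0 => u.re
  | .i1 => u.im
  | _ => 0

lemma un_cont : Continuous un := continuous_pi fun i => by
  cases i <;> simp only [un] <;> fun_prop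

lemma y_cont (c : LC) : Continuous c.y := by
  unfold LC.y
  exact continuous_const.matrix_mulVec (co_cont.sub continuous_const)

lemma co_y {c : LC} (h : c.C.det ≠ 0) (z : Z3) : xL + c.C.mulVec (c.y z) = co z := by
  rw [LC.y, Matrix.mulVec_mulVec, Matrix.mul_nonsing_inv _ (isUnit_iff_ne_zero.2 h),
    Matrix.one_mulVec, add_sub_cancel]

lemma y_oc {c : LC} (h : c.C.det ≠ 0) (y : I6 → ℝ) : c.y (oc (xL + c.C.mulVec y)) = y := by
  rw [LC.y, co_oc, add_sub_cancel_left, Matrix.mulVec_mulVec,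
    Matrix.nonsing_inv_mul _ (isUnit_iff_ne_zero.2 h), Matrix.one_mulVec]

lemma y_der {μ : Fin 3 → ℝ} (c : LC) {γ : ℝ → Z3} {g t : ℝ}
    (h : HasDerivAt γ (g • GR μ (γ t)) t) (j : I6) : HasDerivAt (fun s => c.y (γ s) j)
      (g * c.C⁻¹.mulVec (fr ((μ 0 - μ 1) / 2) (μ 2) (co (γ t))) j) t := by
  have := HasDerivAt.fun_sum (u := Finset.univ) fun i _ =>
    ((co_der h i).sub_const (xL i)).const_mul (c.C⁻¹ j i)
  refine hd_congr this (fun s => rfl) ?_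
  rw [Matrix.mulVec, dotProduct, Finset.mul_sum]
  exact Finset.sum_congr rfl fun i _ => by ring

lemma nsq (y : I6 → ℝ) :
    ‖(64 / 63 : ℝ) • (⟨y .i0, y .i1⟩ : ℂ)‖ ^ 2 = (64 / 63) ^ 2 * qa y := by
  rw [norm_smul, mul_pow, Real.norm_eq_abs, sq_abs, Complex.sq_norm, normSq_mk, qa]
  ring

end FamA

open FamA

theorem LC.fam {μ : Fin 3 → ℝ} (hμ : RS.Ms μ) {c : LC} (hc : c.OK ((μ 0 - μ 1) / 2) (μ 2))
    {U : Set Z3} (hU : U ∈ 𝓝 (lag I)) : ∃ X : ℂ → Z3, Continuous X ∧ (∀ ξ, NC (X ξ)) ∧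
      Ess norm univ (fun ξ => (64 / 63 : ℝ) • (⟨c.y (X ξ) .i0, c.y (X ξ) .i1⟩ : ℂ)) ∧
      ∀ ξ, ‖(64 / 63 : ℝ) • (⟨c.y (X ξ) .i0, c.y (X ξ) .i1⟩ : ℂ)‖ ≤ 1 →
        (∀ j, |c.y (X ξ) j| ≤ 1) ∧ (EscR μ (X ξ) → ∃ z ∈ U, EscR μ z) := by
  obtain ⟨u, e, v, u0, e0, v0, hu, he, hv, h1, h2⟩ := hc.cone
  have cy := y_cont c
  have ca := qa_cont.comp cy
  have cb := qb_cont.comp cy
  have cc := qc_cont.comp cy
  have le1 : ∀ z, qa (c.y z) < 1 ∧ qb (c.y z) < 1 ∧ qc (c.y z) < 1 → ∀ j, |c.y z j| ≤ 1 :=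
    fun z hz => abs_le_s zero_le_one (by linarith [hz.1]) (by linarith [hz.2.1])
      (by linarith [hz.2.2])
  have sf : ∀ z, qa (c.y z) < 1 ∧ qb (c.y z) < 1 ∧ qc (c.y z) < 1 → Safe (co z) := fun z hz => by
    rw [← co_y hc.det]
    exact (hc.pt _ 1 le_rfl (le1 z hz)).1
  have KU : {z | qa (c.y z) ≤ (63 / 64) ^ 2 ∧ qb (c.y z) ≤ (63 / 64) ^ 2 ∧
      qc (c.y z) ≤ (63 / 64) ^ 2} ⊆ {z | qa (c.y z) < 1 ∧ qb (c.y z) < 1 ∧ qc (c.y z) < 1} :=
    fun z hz => ⟨hz.1.trans_lt (by norm_num), hz.2.1.trans_lt (by norm_num),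
      hz.2.2.trans_lt (by norm_num)⟩
  obtain ⟨Φ, β, c1, f0, c2, b0, b1, fx, hf⟩ := RS.cut_flow
    ((isOpen_lt ca continuous_const).inter ((isOpen_lt cb continuous_const).inter
      (isOpen_lt cc continuous_const)))
    (safe_cpt.of_isClosed_subset ((isClosed_le ca continuous_const).inter
      ((isClosed_le cb continuous_const).inter (isClosed_le cc continuous_const)))
      fun z hz => sf z (KU hz)) KU ((cd_GR μ).mono fun z hz => safe_nc (sf z hz))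
  obtain ⟨st, cs, s0, sy⟩ : ∃ st : ℂ → Z3, Continuous st ∧ st 0 = lag I ∧
      ∀ p, c.y (st p) = un p := by
    refine ⟨fun p => oc (xL + c.C.mulVec (un p)), oc_cont.comp
      (continuous_const.add (continuous_const.matrix_mulVec un_cont)), ?_, fun p => y_oc hc.det _⟩
    have : un 0 = 0 := funext fun i => by cases i <;> rfl
    simp only [this, Matrix.mulVec_zero, add_zero]
    rfl
  have q1 : ∀ p, qa (c.y (st p)) = ‖p‖ ^ 2 := fun p => by
    rw [sy, Complex.sq_norm, normSq_apply, qa, sq, sq]; rfl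
  have q2 : ∀ p, qb (c.y (st p)) = 0 := fun p => by simp [sy, qb, un]
  have q3 : ∀ p, qc (c.y (st p)) = 0 := fun p => by simp [sy, qc, un]
  obtain ⟨δ, δ0, hδ⟩ := Metric.mem_nhds_iff.1 (cs.continuousAt.preimage_mem_nhds (s0 ▸ hU))
  obtain ⟨r, r0, r1, r2⟩ : ∃ r : ℝ, 0 < r ∧ r < δ ∧ r ≤ 1 / 2 :=
    ⟨min (δ / 2) (1 / 2), by positivity, (min_le_left _ _).trans_lt (by linarith),
      min_le_right _ _⟩
  obtain ⟨p, cp, p0, p1⟩ : ∃ p : ℂ → ℂ, Continuous p ∧ (∀ ξ, ‖p ξ‖ ≤ r) ∧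
      ∀ ξ, ‖ξ‖ = 1 → p ξ = r * ξ := by
    have m : ∀ ξ : ℂ, 0 < max 1 ‖ξ‖ := fun ξ => by positivity
    refine ⟨fun ξ => r * (ξ / (max 1 ‖ξ‖ : ℝ)), continuous_const.mul (continuous_id.div
      (by fun_prop) fun ξ => ofReal_ne_zero.2 (m ξ).ne'), fun ξ => ?_, fun ξ h => ?_⟩
    · rw [norm_mul, norm_div, norm_real, norm_real, Real.norm_of_nonneg r0.le,
        Real.norm_of_nonneg (m ξ).le]
      exact mul_le_of_le_one_right r0.le ((div_le_one (m ξ)).2 (le_max_right _ _))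
    · simp only [h, max_self, ofReal_one, div_one]
  have ok : ∀ ξ, qa (c.y (st (p ξ))) < 1 ∧ qb (c.y (st (p ξ))) < 1 ∧ qc (c.y (st (p ξ))) < 1 :=
    fun ξ => by
      rw [q1, q2, q3]
      have := pow_le_pow_left₀ (norm_nonneg _) ((p0 ξ).trans r2) 2
      exact ⟨by linarith, one_pos, one_pos⟩
  have cγ : ∀ z, Continuous fun t => Φ t z := fun z => c1.comp (Continuous.prodMk_left z)
  have tp := fun ξ (h : 0 < ‖p ξ‖) T (hT : 0 ≤ T) => cone_flow u0 e0 v0 hu he hv h1 h2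
    (y := fun t => c.y (Φ t (st (p ξ)))) (g := fun t => β (Φ t (st (p ξ))))
    (w := fun t => c.C⁻¹.mulVec (fr ((μ 0 - μ 1) / 2) (μ 2) (co (Φ t (st (p ξ))))) -
      c.lam (c.y (Φ t (st (p ξ))))) (fun t => b0 _)
    (fun t j => by
      rw [Pi.sub_apply, add_sub_cancel]
      exact y_der c (hf _ (ok ξ) t).2 j)
    (fun t k1 k2 => by
      have a := (hf _ (ok ξ) t).1.1
      generalize Φ t (st (p ξ)) = z at *
      have n1 : 0 ≤ qa (c.y z) := by unfold qa; positivity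
      have q := Real.sq_sqrt n1
      refine (hc.pt (c.y z) _ (Real.sqrt_le_one.2 (le_of_lt a))
        (abs_le_s (Real.sqrt_nonneg _) q.ge (k1.trans q.ge) (k2.trans q.ge))).2 _ ?_
      rw [co_y hc.det, Matrix.mulVec_sub, Matrix.mulVec_mulVec,
        Matrix.mul_nonsing_inv _ (isUnit_iff_ne_zero.2 hc.det), Matrix.one_mulVec])
    (by simp only [f0, q1, q2]; positivity) (by simp only [f0, q1, q3]; positivity) hT
  simp only [f0, q1] at tp
  have g1 : ∀ ξ, 0 < ‖p ξ‖ → ∀ T, 0 ≤ T → qa (c.y (Φ T (st (p ξ)))) ≤ (63 / 64) ^ 2 →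
      ∀ t ∈ Icc 0 T, β (Φ t (st (p ξ))) = 1 := fun ξ h T hT k t ht => by
    obtain ⟨⟨a1, a2⟩, -, a3⟩ := (tp ξ h T hT).1 t ht
    exact b1 _ ⟨a3.trans k, a1.trans (a3.trans k), a2.trans (a3.trans k)⟩
  have pa : 0 < c.a - u := by linarith
  obtain ⟨T, T0, T1⟩ : ∃ T : ℝ, 0 ≤ T ∧ 2 * (c.a - u) * r ^ 2 * T = 1 :=
    ⟨(2 * (c.a - u) * r ^ 2)⁻¹, by positivity, mul_inv_cancel₀ (by positivity)⟩
  have cX : Continuous fun q : ℂ × ℝ => Φ q.2 (st (p q.1)) :=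
    c1.comp (continuous_snd.prodMk (cs.comp (cp.comp continuous_fst)))
  refine ⟨fun ξ => Φ T (st (p ξ)), cX.comp (Continuous.prodMk_left T),
    fun ξ => safe_nc (sf _ (hf _ (ok ξ) T).1), ?_,
    fun ξ h => ⟨le1 _ (hf _ (ok ξ) T).1, fun hE => ?_⟩⟩
  · refine ess_base (H := fun q => (64 / 63 : ℝ) •
      (⟨c.y (Φ q.2 (st (p q.1))) .i0, c.y (Φ q.2 (st (p q.1))) .i1⟩ : ℂ))
      ((mk_cont ((continuous_apply I6.i0).comp (cy.comp cX))
        ((continuous_apply I6.i1).comp (cy.comp cX))).const_smul (64 / 63 : ℝ)) (T := fun _ => T)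
      continuous_const (fun _ => T0) (r := 64 / 63 * r) (by positivity) (fun ξ h => ?_)
      fun ξ h => ?_
    · simp only [f0, sy, un, p1 ξ h, Complex.eta, real_smul]
      push_cast
      ring
    have n : ‖p ξ‖ = r := by
      rw [p1 ξ h, norm_mul, h, norm_real, Real.norm_of_nonneg r0.le, mul_one]
    obtain ⟨a1, a2⟩ := tp ξ (n ▸ r0) T T0
    rw [n] at a1 a2
    refine ⟨fun t ht h0 => ?_, ?_⟩
    · have a3 := nsq (c.y (Φ t (st (p ξ))))
      beta_reduce at h0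
      rw [h0, norm_zero] at a3
      have := pow_pos r0 2
      linarith [(a1 t ht).2.1]
    · by_contra hh
      have a3 := nsq (c.y (Φ T (st (p ξ))))
      have a4 := pow_le_one₀ (norm_nonneg _) (not_le.1 hh).le (n := 2)
      beta_reduce at a4
      have a5 : qa (c.y (Φ T (st (p ξ)))) ≤ (63 / 64) ^ 2 := by linarith
      linarith [a2 (g1 ξ (n ▸ r0) T T0 a5)]
  · rcases (norm_nonneg (p ξ)).eq_or_lt with h0 | h0
    · have g : GR μ (lag I) = 0 := by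
        simp only [GR, lag, Kp, Sg, i_ff i_n1, i_ff i_n2, Prod.mk_eq_zero, I_re]
        push_cast
        exact ⟨by linear_combination -I_sq, by ring, by linear_combination -cL * I_sq⟩
      beta_reduce at hE
      rw [norm_eq_zero.1 h0.symm, s0, fx _ g] at hE
      exact ⟨_, mem_of_mem_nhds hU, hE⟩
    · have a3 := nsq (c.y (Φ T (st (p ξ))))
      have a4 := pow_le_one₀ (norm_nonneg _) h (n := 2)
      refine ⟨st (p ξ), hδ (by simpa using (p0 ξ).trans_lt r1 : p ξ ∈ _), ?_⟩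
      have := RS.back hμ (c2.comp (cγ _)) T0
        (fun t => ⟨safe_nc (sf _ (hf _ (ok ξ) t).1), (hf _ (ok ξ) t).2⟩) (fun t ht => by
          rw [Function.comp_apply, g1 ξ h0 T T0 (by beta_reduce at a4; linarith) t ht]
          exact one_pos) hE
      rwa [f0] at this

end Pool.Agent.Lib.MP_6e7c44_mp.MR
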