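import Pool.Agent.Lib.MP_6e7c44_mp.MR.Up
import Pool.Agent.Lib.MP_6e7c44_mp.MR.ENear
import Pool.Agent.Lib.MP_6e7c44_mp.MR.ERed

/-! From the cover of the region of normalised masses to all masses. -/

set_option autoImplicit false

namespace Pool.Agent.Lib.MP_6e7c44_mp.MR

lemma near_all (h : Up 0 1048576 0) {m : Fin 3 → ℝ} (hm : ∀ a, 0 < m a)
    (h1 : 15 * m 2 ≤ 2 * (m 0 + m 1 + m 2)) (h2 : 2 * m 2 ≤ m 0) (h3 : 2 * m 2 ≤ m 1)
    (h4 : m 0 ≤ 14 * m 1) (h5 : m 1 ≤ 14 * m 0) :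
    NearE (fun a => m a / (m 0 + m 1 + m 2)) ∨
      NearE fun a => m (Equiv.swap 0 1 a) / (m 0 + m 1 + m 2) := by
  have m0 := hm 0
  have m1 := hm 1
  have m2 := hm 2
  have hM : 0 < m 0 + m 1 + m 2 := by positivity
  have key : ∀ n : Fin 3 → ℝ, (∀ a, 0 < n a) → n 0 + n 1 + n 2 = m 0 + m 1 + m 2 →
      15 * n 2 ≤ 2 * (m 0 + m 1 + m 2) → 2 * n 2 ≤ n 0 → n 1 ≤ 14 * n 0 → n 0 ≤ n 1 →
      NearE fun a => n a / (m 0 + m 1 + m 2) := fun n p s a1 a2 a3 a4 => by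
    have ms : RS.Ms fun a => n a / (m 0 + m 1 + m 2) :=
      ⟨fun a => div_pos (p a) hM, by rw [← add_div, ← add_div, s, div_self hM.ne']⟩
    refine (h.all ms ⟨?_, ?_, ?_⟩ (div_le_div_of_nonneg_right a4 hM.le)).nearE ms
    · rw [← mul_div_assoc, div_le_iff₀ hM]
      exact a1
    · rw [← mul_div_assoc]
      exact div_le_div_of_nonneg_right a2 hM.le
    · rw [← mul_div_assoc]
      exact div_le_div_of_nonneg_right a3 hM.le
  have s2 : Equiv.swap (0 : Fin 3) 1 2 = 2 := by decide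
  rcases le_total (m 0) (m 1) with o | o
  · exact Or.inl (key m hm rfl h1 h2 h5 o)
  · refine Or.inr (key (fun a => m (Equiv.swap 0 1 a)) (fun a => hm _) ?_ ?_ ?_ ?_ ?_) <;>
      simp only [s2, Equiv.swap_apply_left, Equiv.swap_apply_right] <;> linarith

end Pool.Agent.Lib.MP_6e7c44_mp.MR
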