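import Pool.Agent.Lib.MP_6e7c44_mp.MR.Core
import Pool.Agent.Lib.MP_6e7c44_mp.MR.Fld

/-! Soundness of the checker of the cone. -/

set_option autoImplicit false

open Set Filter Topology

noncomputable section

namespace Pool.Agent.Lib.MP_6e7c44_mp.MR

open LA hiding TM Rep Pt Raw mX mA mB

lemma Fc_xL (a b : ℝ) : Fc a b (yc xL) = ⟨(a - b) / 2, (a + b) * (√3 / 2)⟩ := by
  have s : √3 * √3 = 3 := Real.mul_self_sqrt (by norm_num)
  have e : yc xL = ⟨0, √3 / 2⟩ := Complex.ext (by simp [yc, xL, co, lag, cL])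
    (by simp [yc, xL, co, lag, cL])
  have n1 : ‖yc xL + 1 / 2‖ = 1 := by
    rw [e, Complex.norm_def, Complex.normSq_apply, Real.sqrt_eq_one]
    simp
    nlinarith
  have n2 : ‖yc xL - 1 / 2‖ = 1 := by
    rw [e, Complex.norm_def, Complex.normSq_apply, Real.sqrt_eq_one]
    simp
    nlinarith
  simp only [Fc, ff, n1, n2]
  rw [e]
  apply Complex.ext <;> simp <;> ring

lemma fr_xL (k ν : ℝ) : fr k ν xL = 0 := funext fun i => by
  cases i <;> simp only [fr, Fc_xL] <;> simp [xL, co, lag, cL] <;> ring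

lemma LC.lam_smul (c : LC) (s : ℝ) (y : I6 → ℝ) : c.lam (s • y) = s • c.lam y :=
  funext fun i => by cases i <;> simp only [LC.lam, Pi.smul_apply, smul_eq_mul] <;> ring

lemma Raw.rdL (r : Raw) (x : Bx) (π : Pt) (hx : π.x = 1) (l : I6) : Rep π 80 10 4 6 (r.dL l)
    ((r.cone π.p π.q x).C.mulVec ((r.cone π.p π.q x).lam π.y) l) := by
  have hX : ∀ i, Rep π 36 5 3 0 (r.X i) (r.xs π.p π.q π.x i) := fun i => Raw.repX π _ _
  have hc := r.rcy π l
  have m : ∀ (i : I6) {t : TM} {a : ℝ}, Rep π 44 5 1 6 t a →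
      Rep π 80 10 4 6 ((r.X i).mul t) (r.xs π.p π.q π.x i * a) := fun i _ _ h =>
    (hX i).mul h (by decide) (by decide)
  refine (((((m .i0 ((hc .i0 .i0).add (hc .i1 .i1))).add (m .i1 ((hc .i1 .i0).sub (hc .i0 .i1)))).add
    (m .i2 ((hc .i3 .i2).sub (hc .i2 .i3)))).add (m .i4 ((hc .i5 .i4).sub (hc .i4 .i5)))).sub
    (m .i3 ((hc .i4 .i4).add (hc .i5 .i5)))).congr ?_
  simp only [hx, Raw.cone, Matrix.mulVec, dotProduct, I6.sum, LC.lam]
  ring

lemma sq2_le {a b c : ℕ} (h : Raw.sq2 a b c = true) :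
    ((a : ℝ) / 2 ^ 24) ^ 2 + ((b : ℝ) / 2 ^ 24) ^ 2 ≤ ((c : ℝ) / 2 ^ 24) ^ 2 := by
  simp only [Raw.sq2, Nat.ble_eq, Nat.add_eq, Nat.mul_eq] at h
  have h' : (a : ℝ) * a + b * b ≤ c * c := by exact_mod_cast h
  nlinarith

theorem Raw.cone_ok {r : Raw} {x : Bx} {k ν p q : ℝ} (h : r.okL x = true) (hp : Par x k ν p q) :
    (r.cone p q x).OK k ν := by
  simp only [okL, Bool.and_eq_true] at h
  obtain ⟨h0, h1, h2, h3, h4, h5⟩ := h
  let b : Pb := ⟨1, p, q, by simp, hp.hp, hp.hq⟩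
  have S : Sem (r.lc x) b xL (r.As p q 1) (r.Bs p q 1) := r.semL x b
  have hd := Cr.det_ne h0 S
  refine ⟨hd, fun z s s1 hz => ?_, r.R .i0 / 2 ^ 24, r.R .i1 / 2 ^ 24, r.R .i2 / 2 ^ 24,
    by positivity, by positivity, by positivity, sq2_le h1, sq2_le h2, sq2_le h3, ?_, ?_⟩
  · have s0 : 0 ≤ s := (abs_nonneg _).trans (hz .i0)
    obtain ⟨y, hy, rfl⟩ : ∃ y : I6 → ℝ, (∀ j, |y j| ≤ 1) ∧ z = s • y := by
      rcases s0.eq_or_lt with rfl | s0
      · exact ⟨0, by simp, funext fun j => by simpa using hz j⟩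
      · refine ⟨s⁻¹ • z, fun j => ?_, (smul_inv_smul₀ s0.ne' z).symm⟩
        rw [Pi.smul_apply, smul_eq_mul, abs_mul, abs_of_pos (inv_pos.2 s0), inv_mul_le_iff₀ s0,
          mul_one]
        exact hz j
    obtain ⟨f1, f2⟩ := Cr.fld (b := b) h0 hp S hy
    rw [Matrix.mulVec_smul]
    refine ⟨f1 s ⟨s0, s1⟩, fun w hw j => ?_⟩
    rw [LC.lam_smul, Matrix.mulVec_smul] at hw
    rcases s0.eq_or_lt with rfl | s0
    · simp only [zero_smul, add_zero, fr_xL, sub_zero] at hw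
      by_contra hn
      exact hd (Matrix.exists_mulVec_eq_zero_iff.1 ⟨w, fun e => hn (by simp [e]), hw⟩)
    · have g := Cr.gg_le h0 S hy (v := r.GL' x) (w := s⁻¹ • w) (fun l => by
        obtain ⟨v, v1, v2⟩ := f2 l
        refine (Rep.tG 16 (v1.sub (((r.rdL x (b.pt y hy) rfl l).up 4).mono le_rfl (by decide)
          le_rfl))).err (le_trans ?_ (le_dn _ _))
        have v3 := v2 s ⟨s0.le, s1⟩
        have e := congrFun hw l
        simp only [fr_xL, Pi.zero_apply, mul_zero, zero_add, Pi.sub_apply, Pi.smul_apply,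
          smul_eq_mul] at v3 e
        rw [Matrix.mulVec_smul, Pi.smul_apply, smul_eq_mul]
        change (r.As p q 1).mulVec w l = _ at e
        rw [e]
        change |s⁻¹ * (fr k ν (xL + s • (r.As p q 1).mulVec y) l - s * (r.cone p q x).C.mulVec
          ((r.cone p q x).lam y) l) - (v - (r.cone p q x).C.mulVec ((r.cone p q x).lam y) l)| * _ ≤ _
        generalize fr k ν (xL + s • (r.As p q 1).mulVec y) l = F at v3
        generalize (r.cone p q x).C.mulVec ((r.cone p q x).lam y) l = G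
        rw [show s⁻¹ * (F - s * G) - (v - G) = s⁻¹ * (F - s * v) by field_simp; ring, abs_mul,
          abs_of_pos (inv_pos.2 s0), mul_assoc, inv_mul_le_iff₀ s0]
        linarith) j
      rw [Pi.smul_apply, smul_eq_mul, abs_mul, abs_of_pos (inv_pos.2 s0), inv_mul_le_iff₀ s0] at g
      exact g
  · have hX : Rep (b.pt 0 (by simp)) 36 5 3 0 (r.X .i0) (r.xs p q 1 .i0) := Raw.repX _ _ _
    have := (hX.sub (Rep.cs (a := r.R .i0 / 2 ^ 24 + r.R .i1 / 2 ^ 24) _ _ _ _ _ ?_)).pos mk_S h4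
    · exact sub_pos.1 this
    · simp only [Nat.shiftLeft_eq', Nat.shiftLeft_eq, Nat.add_eq]
      push_cast
      ring
  · have hX : ∀ i, Rep (b.pt 0 (by simp)) 36 5 3 0 (r.X i) (r.xs p q 1 i) := fun i =>
      Raw.repX _ _ _
    have := (((((hX .i3).mul ((hX .i0).sub (Rep.cs (a := r.R .i0 / 2 ^ 24) _ _ _ _ _ ?_))
      (by decide) (by decide)).up 2).scale (f := 72)
      (b := 4 * r.xs p q 1 .i3 * (r.xs p q 1 .i0 - r.R .i0 / 2 ^ 24)) (by ring)).sub
      (Rep.cs (a := (r.R .i2 / 2 ^ 24) ^ 2) _ _ _ _ _ ?_)).pos mk_S h5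
    · exact sub_pos.1 this
    all_goals
      simp only [Nat.shiftLeft_eq', Nat.shiftLeft_eq, Nat.mul_eq]
      push_cast
      ring

end Pool.Agent.Lib.MP_6e7c44_mp.MR
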