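import Pool.Agent.Lib.MP_6e7c44_mp.MR.Step
import Pool.Agent.Lib.MP_6e7c44_mp.MR.Link
import Pool.Agent.Lib.MP_6e7c44_mp.MR.Loc
import Pool.Agent.Lib.MP_6e7c44_mp.MR.OutC

/-! From the data of a rectangle of masses to escaping orbits. -/

set_option autoImplicit false

open Set Filter Topology

noncomputable section

namespace Pool.Agent.Lib.MP_6e7c44_mp.MR

open LA hiding TM Rep Pt Raw mX mA mB

/-- The step `D` starts a chain with `n` exit links that ends in escape. -/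
def Gd (x : Bx) (n : ℕ) (D : DT) : Prop := D.un.ok x = true ∧ ∀ k ν p q, Par x k ν p q →
  ∃ l, Chain k ν n (D.un.ss p q x) l

theorem fin_ok {x : Bx} {D : DT} (o : ℕ) (h : (unO o).ok D.un x = true) : Gd x 0 D := by
  have h0 : D.un.ok x = true := by
    simp only [Oc.ok, Bool.and_eq_true] at h
    exact h.1
  exact ⟨h0, fun k ν p q hp => ⟨[], Raw.ss_ok h0 hp, (Oc.out_ok h hp).2⟩⟩

theorem run_ok {x : Bx} {n m : ℕ} {D D' : DT} (l : List DT) (h : run x n D l = true)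
    (e : n - l.length = m) (e' : l.getLastD D = D') (g : Gd x m D') : Gd x n D := by
  induction l generalizing n D with
  | nil =>
    obtain rfl : n = m := e
    obtain rfl : D = D' := e'
    exact g
  | cons E l ih =>
    simp only [run, Bool.and_eq_true] at h
    obtain ⟨h1, h2, h3⟩ := h
    have g' := ih h3 (by simp only [List.length_cons, Nat.pred_eq_sub_one] at e ⊢; omega)
      (by rw [← e', List.getLastD_cons])
    refine ⟨h1, fun k ν p q hp => ?_⟩
    obtain ⟨L, hL⟩ := g'.2 k ν p q hp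
    have lk := link_ok h2 g'.1 hp
    cases n with
    | zero => exact ⟨_ :: L, Raw.ss_ok h1 hp, lk, hL⟩
    | succ n => exact ⟨_ :: L, Raw.ss_ok h1 hp, lk, hL⟩

lemma par_abs {a b t : ℝ} (h : a < b) (h1 : a ≤ t) (h2 : t ≤ b) :
    |(2 * t - (a + b)) / (b - a)| ≤ 1 := by
  rw [abs_div, abs_of_pos (sub_pos.2 h), div_le_one (sub_pos.2 h), abs_le]
  constructor <;> linarith

theorem box_ok {a b c d n : ℕ} (C : DT) {D : DT} (h : (C.un.okL ⟨a, b, c, d⟩ &&
    init ⟨a, b, c, d⟩ C.un D.un) = true) (g : Gd ⟨a, b, c, d⟩ n D) : Cov a b c d := by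
  intro μ hμ a1 a2 a3 a4
  rw [Bool.and_eq_true] at h
  have h0 : Bx.ok ⟨a, b, c, d⟩ = true := by
    have := g.1
    simp only [Raw.ok, Cr.ok, Bool.and_eq_true] at this
    exact this.2.1.1
  simp only [Bx.ok, Bool.and_eq_true, Nat.blt_eq] at h0
  have ab : (a : ℝ) < b := Nat.cast_lt.2 h0.1
  have cd : (c : ℝ) < d := Nat.cast_lt.2 h0.2.1
  have hp : Par ⟨a, b, c, d⟩ ((μ 0 - μ 1) / 2) (μ 2)
      (-((2 * ((μ 1 - μ 0) / 2 * 2 ^ 20) - (a + b)) / (b - a)) )
      ((2 * (μ 2 * 2 ^ 20) - (c + d)) / (d - c)) := by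
    refine ⟨by rw [abs_neg]; exact par_abs ab a1 a2, par_abs cd a3 a4, ?_, ?_⟩
    · have := (sub_pos.2 ab).ne'
      field_simp
      ring
    · have := (sub_pos.2 cd).ne'
      field_simp
      ring
  obtain ⟨l, hl⟩ := g.2 _ _ _ _ hp
  exact ⟨_, _, _, _, Raw.cone_ok h.1 hp, init_ok h.2 g.1 hp, hl⟩

end Pool.Agent.Lib.MP_6e7c44_mp.MR
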