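import Pool.Agent.Lib.MP_6e7c44_mp.MR.Defs

/-! Reduction of the theorem to the normalised Lagrange state. -/

set_option autoImplicit false

open Set Complex Filter Topology

namespace Pool.Agent.Lib.MP_6e7c44_mp.MR

open LA

/-- The conclusion: an escaping solution, forward or backward in time, starts in `U`. -/
def Concl (m : Fin 3 → ℝ) (U : Set ((Fin 3 → ℂ) × (Fin 3 → ℂ))) : Prop :=
  ∃ p ∈ U, ∃ s : ℝ, (s = 1 ∨ s = -1) ∧ ∃ Q V : ℝ → Fin 3 → ℂ, Q 0 = p.1 ∧ V 0 = p.2 ∧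
    (∀ t, 0 ≤ s * t → ∀ a, HasDerivAt (fun τ => Q τ a) (V t a) t ∧ HasDerivAt (fun τ => V τ a)
      (∑ b ∈ Finset.univ.erase a, (m b / ‖Q t b - Q t a‖ ^ 3) • (Q t b - Q t a)) t) ∧
    (∀ t, 0 ≤ s * t → ∀ a b, a ≠ b → Q t a ≠ Q t b) ∧
    ∃ a b, Tendsto (fun t => ‖Q (s * t) a - Q (s * t) b‖) atTop atTop

lemma Concl.fwd {m : Fin 3 → ℝ} {p : (Fin 3 → ℂ) × (Fin 3 → ℂ)} (h : p ∈ closure (Esc m))
    {U : Set ((Fin 3 → ℂ) × (Fin 3 → ℂ))} (hU : U ∈ 𝓝 p) : Concl m U := by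
  obtain ⟨z, hz, Q, V, h0, h1, hd, hc, a, b, ht⟩ := mem_closure_iff_nhds.1 h U hU
  exact ⟨z, hz, 1, Or.inl rfl, Q, V, h0, h1, fun t ht => hd t (by simpa using ht),
    fun t ht => hc t (by simpa using ht), a, b, by simpa using ht⟩

lemma Concl.bwd {m : Fin 3 → ℝ} {Q0 V0 : Fin 3 → ℂ} (h : (Q0, -V0) ∈ closure (Esc m))
    {U : Set ((Fin 3 → ℂ) × (Fin 3 → ℂ))} (hU : U ∈ 𝓝 (Q0, V0)) : Concl m U := by
  have cr : Continuous fun z : (Fin 3 → ℂ) × (Fin 3 → ℂ) => (z.1, -z.2) := by fun_prop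
  obtain ⟨z, hz, Q, V, h0, h1, hd, hc, a, b, ht⟩ := mem_closure_iff_nhds.1 h _
    (cr.continuousAt.preimage_mem_nhds (by simpa using hU))
  refine ⟨_, hz, -1, Or.inr rfl, fun t => Q (-t), fun t => -V (-t), by simp [h0], by simp [h1],
    fun t ht a => ?_, fun t ht => hc (-t) (by simpa using ht), a, b, by simpa using ht⟩
  obtain ⟨k1, k2⟩ := hd (-t) (by simpa using ht) a
  exact ⟨hd_congr (k1.scomp t (hasDerivAt_neg t)) (fun _ => rfl) (by simp),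
    hd_congr (k2.scomp t (hasDerivAt_neg t)).neg (fun _ => rfl) (by rw [neg_one_smul, neg_neg])⟩

lemma mem_of {S : Set ((Fin 3 → ℂ) × (Fin 3 → ℂ))} {a b c d : Fin 3 → ℂ} (h : (a, b) ∈ S)
    (h1 : ∀ i, c i = a i) (h2 : ∀ i, d i = b i) : (c, d) ∈ S := by
  rwa [funext h1, funext h2]

/-- The four configurations of the circular Lagrange solution. -/
lemma four {m n Q V : _} {x : ℂ} {ω : ℝ} (hr : 0 < ‖x‖) (hω : 0 < ω)
    (hmn : ∀ b : Fin 3, m b = ω ^ 2 * ‖x‖ ^ 3 * n b) {σ η : ℂ} (hσ : σ = 1 ∨ σ = -1)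
    (hx : Q 1 = x + Q 0) (hη : V 1 = ω * (x * η) + V 0) (h0 : Q 2 = (1 / 2 + σ * cL) * x + Q 0)
    (h1 : V 2 = (1 / 2 + σ * cL) * (ω * (x * η)) + V 0)
    (h : η = σ * I ∧ Near n ∨ η = -(σ * I) ∧ Near fun b => n (Equiv.swap 0 1 b)) :
    (Q, V) ∈ closure (Esc m) := by
  obtain ⟨c1, c2⟩ := bk_cL
  have s2 : Equiv.swap (0 : Fin 3) 1 2 = 2 := by decide
  have g1 : ∀ y : ℂ, ‖y‖ = ‖x‖ → ∀ z, ‖ContinuousLinearMap.mul ℝ ℂ y z‖ = ‖x‖ * ‖z‖ := by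
    intro y h z; simp [h]
  have g2 : ∀ y : ℂ, ‖y‖ = ‖x‖ → ∀ z, ‖((ContinuousLinearMap.mul ℝ ℂ y).comp
      (Complex.conjCLE : ℂ →L[ℝ] ℂ)) z‖ = ‖x‖ * ‖z‖ := by
    intro y h z; simp [h]
  have c3 : (starRingEnd ℂ) 2 = 2 := map_ofNat _ 2
  rcases hσ with rfl | rfl <;> rcases h with ⟨rfl, M1⟩ | ⟨rfl, M2⟩
  · have := bk_cl _ hr hω (g1 x rfl) 1 (Q 0) (V 0) (m' := m) hmn M1
    refine mem_of this (fun a => ?_) (fun a => ?_) <;> fin_cases a <;>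
      simp [phys, lag, h0, h1, hx, hη] <;> ring
  · have := bk_cl _ hr hω (g2 (-x) (norm_neg x)) (Equiv.swap 0 1) (Q 1) (V 1) (m' := m)
      (fun b => by simp [hmn b]) M2
    refine mem_of this (fun a => ?_) (fun a => ?_) <;> fin_cases a <;>
      simp [phys, lag, s2, c2, c3, h0, h1, hx, hη] <;> ring
  · have := bk_cl _ hr hω (g2 x rfl) 1 (Q 0) (V 0) (m' := m) hmn M1
    refine mem_of this (fun a => ?_) (fun a => ?_) <;> fin_cases a <;>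
      simp [phys, lag, c2, c3, h0, h1, hx, hη] <;> ring
  · have := bk_cl _ hr hω (g1 (-x) (norm_neg x)) (Equiv.swap 0 1) (Q 1) (V 1) (m' := m)
      (fun b => by simp [hmn b]) M2
    refine mem_of this (fun a => ?_) (fun a => ?_) <;> fin_cases a <;>
      simp [phys, lag, s2, h0, h1, hx, hη] <;> ring

/-- It is enough to treat the normalised masses in one of the two orders of the first two bodies. -/
theorem red (m : Fin 3 → ℝ) (q v : ℝ → Fin 3 → ℂ) (hm : ∀ a, 0 < m a)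
    (hN : Near (fun a => m a / (m 0 + m 1 + m 2)) ∨
      Near fun a => m (Equiv.swap 0 1 a) / (m 0 + m 1 + m 2))
    (hq : ∀ t a, HasDerivAt (fun s => q s a) (v t a) t)
    (hv : ∀ t a, HasDerivAt (fun s => v s a)
      (∑ b ∈ Finset.univ.erase a, (m b / ‖q t b - q t a‖ ^ 3) • (q t b - q t a)) t)
    {r : ℝ} (r0 : 0 < r) (he : ∀ t a b, a ≠ b → ‖q t a - q t b‖ = r)
    {U : Set ((Fin 3 → ℂ) × (Fin 3 → ℂ))} (hU : U ∈ 𝓝 (q 0, v 0)) : Concl m U := by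
  obtain ⟨M, hM⟩ : ∃ M, M = m 0 + m 1 + m 2 := ⟨_, rfl⟩
  have m0 := hm 0
  have m1 := hm 1
  have m2 := hm 2
  have hM0 : 0 < M := by rw [hM]; positivity
  have e0 : ∀ t, ‖q t 1 - q t 0‖ = r := fun t => he t 1 0 (by decide)
  have n0 : ∀ t, q t 1 - q t 0 ≠ 0 := fun t => norm_pos_iff.1 (e0 t ▸ r0)
  have e1 : ∀ t, ‖q t 2 - q t 0‖ = ‖q t 1 - q t 0‖ := fun t => by rw [e0, he t 2 0 (by decide)]
  have e2 : ∀ t, ‖q t 2 - q t 1‖ = ‖q t 1 - q t 0‖ := fun t => by rw [e0, he t 2 1 (by decide)]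
  have hP : ∀ t, HasDerivAt (fun s => v s 1 - v s 0) (-(M * ff (q t 1 - q t 0))) t := fun t => by
    refine hd_congr ((hv t 1).sub (hv t 0)) (fun _ => rfl) ?_
    obtain ⟨b0, b1, -⟩ := bk_acc m (q t)
    have : _ = bkAcc m (q t) 1 - bkAcc m (q t) 0 := rfl
    rw [← neg_sub (q t 1), ff_neg] at b1
    refine Eq.trans ?_ this.symm
    rw [b0, b1, hM]
    simp only [ff, e1, e2, Complex.real_smul]
    push_cast; ring
  have k0 : ∀ t, dot (q t 1 - q t 0) (v t 1 - v t 0) = 0 := fun t => by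
    have := (i_nsq ((hq t 1).fun_sub (hq t 0))).unique
      (hd_congr (hasDerivAt_const t (r ^ 2)) (fun s => by rw [e0]) rfl)
    linarith
  have k1 := (hd_dot ((hq 0 1).fun_sub (hq 0 0)) (hP 0)).unique
    (hd_congr (hasDerivAt_const (0 : ℝ) (0 : ℝ)) k0 rfl)
  have k2 := k0 0
  have hpos : ∀ t, q t 2 - q t 0 = (1 / 2 + cL) * (q t 1 - q t 0) ∨
      q t 2 - q t 0 = (1 / 2 - cL) * (q t 1 - q t 0) := fun t =>
    bk_apex (n0 t) (e1 t) (by rw [← e2]; congr 1; ring)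
  obtain ⟨c1, c2⟩ := bk_cL
  have hne : 1 / 2 + cL ≠ 1 / 2 - cL := fun h => by
    have : cL = 0 := by linear_combination h / 2
    rw [this] at c1; norm_num at c1
  have hor : (q 0 2 - q 0 0 = (1 / 2 + cL) * (q 0 1 - q 0 0) ∧
      v 0 2 - v 0 0 = (1 / 2 + cL) * (v 0 1 - v 0 0)) ∨
      (q 0 2 - q 0 0 = (1 / 2 - cL) * (q 0 1 - q 0 0) ∧
      v 0 2 - v 0 0 = (1 / 2 - cL) * (v 0 1 - v 0 0)) := by
    rcases hpos 0 with h | h
    · exact Or.inl ⟨h, bk_orient ((hq 0 1).sub (hq 0 0)) ((hq 0 2).sub (hq 0 0)) hpos h hne (n0 0)⟩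
    · exact Or.inr ⟨h, bk_orient ((hq 0 1).sub (hq 0 0)) ((hq 0 2).sub (hq 0 0))
        (fun t => (hpos t).symm) h hne.symm (n0 0)⟩
  have x0 := n0 0
  clear hP hpos e0 e1 e2 n0 he hv hq k0
  generalize q 0 = Q at *
  generalize v 0 = V at *
  obtain ⟨x, hx⟩ : ∃ x, x = Q 1 - Q 0 := ⟨_, rfl⟩
  rw [← hx] at k1 k2 hor x0
  have hr : 0 < ‖x‖ := norm_pos_iff.mpr x0
  obtain ⟨ω, hω, hω2⟩ : ∃ ω : ℝ, 0 < ω ∧ ω ^ 2 = M / ‖x‖ ^ 3 :=
    ⟨√(M / ‖x‖ ^ 3), by positivity, Real.sq_sqrt (by positivity)⟩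
  have hωc : (ω : ℂ) ≠ 0 := by exact_mod_cast hω.ne'
  obtain ⟨η, hη⟩ : ∃ η : ℂ, V 1 - V 0 = ω * (x * η) := ⟨(V 1 - V 0) / (ω * x), by field_simp⟩
  have η1 : η.re = 0 := by
    have : ω * ‖x‖ ^ 2 * η.re = 0 := by rw [← k2, hη, sq_norm']; simp [dot]; ring
    exact (mul_eq_zero.1 this).resolve_left (by positivity)
  have η2 : η = I ∨ η = -I := by
    have a1 : dot x (-(M * ff x)) = -(ω ^ 2 * ‖x‖ ^ 2) := by
      rw [hω2, sq_norm' x]; simp [dot, ff, -ofReal_inv, -ofReal_pow]; ring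
    rw [a1, dot_self, hη, norm_mul, norm_mul, norm_real, Real.norm_of_nonneg hω.le] at k1
    have a2 : ‖η‖ ^ 2 = 1 := mul_left_cancel₀ (by positivity : ω ^ 2 * ‖x‖ ^ 2 ≠ 0) (by linarith)
    rw [sq_norm', η1] at a2
    exact (sq_eq_sq_iff_eq_or_eq_neg.1 (show η.im ^ 2 = 1 ^ 2 by linarith)).imp
      (fun h => Complex.ext η1 h) fun h => Complex.ext (by simpa using η1) (by simpa using h)
  rw [← hM] at hN
  have hmn : ∀ b, m b = ω ^ 2 * ‖x‖ ^ 3 * (fun k => m k / M) b := fun b => by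
    rw [hω2]; field_simp
  rw [hη, sub_eq_iff_eq_add, sub_eq_iff_eq_add, sub_eq_iff_eq_add, sub_eq_iff_eq_add] at hor
  rw [sub_eq_iff_eq_add] at hη
  replace hx : Q 1 = x + Q 0 := by rw [hx]; ring
  obtain ⟨σ, hσ, h0, h1⟩ : ∃ σ : ℂ, (σ = 1 ∨ σ = -1) ∧ Q 2 = (1 / 2 + σ * cL) * x + Q 0 ∧
      V 2 = (1 / 2 + σ * cL) * (ω * (x * η)) + V 0 := by
    rcases hor with ⟨h0, h1⟩ | ⟨h0, h1⟩
    · exact ⟨1, Or.inl rfl, by rw [h0]; ring, by rw [h1]; ring⟩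
    · exact ⟨-1, Or.inr rfl, by rw [h0]; ring, by rw [h1]; ring⟩
  have F := fun h => Concl.fwd (four hr hω hmn hσ hx hη h0 h1 h) hU
  have B := fun h => Concl.bwd (four (V := -V) (η := -η) hr hω hmn hσ hx
    (by simp only [Pi.neg_apply, hη]; ring) h0 (by simp only [Pi.neg_apply, h1]; ring) h) hU
  have e : η = σ * I ∨ η = -(σ * I) := by
    rcases hσ with rfl | rfl <;> rcases η2 with rfl | rfl <;> simp
  rcases e with e | e <;> rcases hN with k | k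
  · exact F (Or.inl ⟨e, k⟩)
  · exact B (Or.inr ⟨by rw [e], k⟩)
  · exact B (Or.inl ⟨by rw [e, neg_neg], k⟩)
  · exact F (Or.inr ⟨e, k⟩)

end Pool.Agent.Lib.MP_6e7c44_mp.MR
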