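import Pool.Agent.Lib.MP_6e7c44_mp.MR.Chk

/-! The numbers described by the data, and the masks. -/

set_option autoImplicit false

open Set Filter Topology

noncomputable section

namespace Pool.Agent.Lib.MP_6e7c44_mp.MR

open LA hiding TM Rep Pt Raw mX mA mB

lemma e_m3 : m3 = msk cM 64 (sr 3 r0) (cl 5) := by decide +kernel
lemma e_m2 : m2 = msk cM 64 (sr 2 r0) (cl 5) := by decide +kernel
lemma e_mG : mG = msk cM 80 (sr 5 ra) (cl 10) := by decide +kernel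
lemma e_mE : mE = msk cM 80 (sr 3 ra) (cl 0) := by decide +kernel
lemma e_mX : mX (gs 1 6) = msk cM 41 (sr 3 r0) (cl 5) := by decide +kernel
lemma e_mX0 : mX c0 = msk cM 41 (sr 3 r0) (cb 0) := by decide +kernel
lemma e_mX1 : mX c1 = msk cM 41 (sr 3 r0) (cb 1) := by decide +kernel
lemma e_mX2 : mX c2 = msk cM 41 (sr 3 r0) (cb 2) := by decide +kernel
lemma e_mA : mA (gs 1 6) = msk cM 31 (sr 1 r1) (cl 5) := by decide +kernel
lemma e_mA0 : mA c0 = msk cM 31 (sr 1 r1) (cb 0) := by decide +kernel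
lemma e_mA1 : mA c1 = msk cM 31 (sr 1 r1) (cb 1) := by decide +kernel
lemma e_mA2 : mA c2 = msk cM 31 (sr 1 r1) (cb 2) := by decide +kernel
lemma e_mC : mC = msk cM 31 (sr 1 r0) (cl 5) := by decide +kernel
lemma e_mB : mB = msk cM 20 (sr 1 r0) (cl 3) := by decide +kernel

namespace Rep
variable {π : Pt} {e dx dp dr : ℕ} {p : TM} {a : ℝ}
lemma t3 (s : ℕ) (hp : Rep π (e + s) dx dp dr p a) : Rep π e 5 3 0 (t3 s p) a :=
  hp.tr mk_S (e_m3 ▸ mk_msk (by decide) h_r0 (h_cl 5)) s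
lemma t2 (s : ℕ) (hp : Rep π (e + s) dx dp dr p a) : Rep π e 5 2 0 (t2 s p) a :=
  hp.tr mk_S (e_m2 ▸ mk_msk (by decide) h_r0 (h_cl 5)) s
lemma tE (s : ℕ) (hp : Rep π (e + s) dx dp dr p a) : Rep π e 0 3 6 (tE s p) a :=
  hp.tr mk_V (e_mE ▸ mk_msk (by decide) h_ra (h_cl 0)) s
lemma tG (s : ℕ) (hp : Rep π (e + s) dx dp dr p a) : Rep π e 10 5 6 (p.tr oV mG s) a :=
  hp.tr mk_V (e_mG ▸ mk_msk (by decide) h_ra (h_cl 10)) s
end Rep

lemma p2_eq (n : ℕ) : p2 n = 2 ^ n := by simp [p2, Nat.shiftLeft_eq]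

/-- A time and two parameters in the unit cube. -/
structure Pb where
  x : ℝ
  p : ℝ
  q : ℝ
  hx : |x| ≤ 1
  hp : |p| ≤ 1
  hq : |q| ≤ 1

def Pb.pt (b : Pb) (y : I6 → ℝ) (hy : ∀ j, |y j| ≤ 1) : Pt := ⟨b.x, b.p, b.q, y, b.hx, b.hp, b.hq, hy⟩

/-- The masses `k`, `ν` have the parameters `p`, `q` in the rectangle. -/
structure Par (x : Bx) (k ν p q : ℝ) : Prop where
  hp : |p| ≤ 1
  hq : |q| ≤ 1
  hk : k * 2 ^ 21 = -(x.a + x.b) + (x.b - x.a) * p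
  hν : ν * 2 ^ 21 = x.c + x.d + (x.d - x.c) * q

/-- What the models of a core represent. -/
structure Sem (r : Cr) (b : Pb) (X : I6 → ℝ) (A B : Matrix I6 I6 ℝ) : Prop where
  rX : ∀ y hy i, Rep (b.pt y hy) 36 5 3 0 (r.X i) (X i)
  rE : ∀ y hy i, Rep (b.pt y hy) 44 5 1 6 (r.E i) (A.mulVec y i)
  rH : ∀ y hy j, ∃ h, Rep (b.pt y hy) 36 5 3 0 (r.H j) h
  rB : ∀ y hy i l, Rep (b.pt y hy) 0 3 1 0 (r.B i l) (B i l)

def pol (b dp : ℕ) (t : ℕ → Bool) (P N ρ : ℕ) (p q x : ℝ) : ℝ :=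
  pw b dp t P ρ x p q - pw b dp t N ρ x p q

namespace Raw
variable (r : Raw) (p q : ℝ)
def xs (x : ℝ) (i : I6) : ℝ := pol 41 3 (cl 5) (r.xp i) (r.xn i) 0 p q x / 2 ^ 36
def As (x : ℝ) : Matrix I6 I6 ℝ :=
  .of fun k j => pol 31 1 (cl 5) (r.ap k) (r.an k) j.n p q x * 2 ^ r.u / 2 ^ 44
def Bs (x : ℝ) : Matrix I6 I6 ℝ := .of fun i l => pol 20 1 (cl 3) (r.bp i l) (r.bn i l) 0 p q x
def yy (x : ℝ) (z : I6 → ℝ) : I6 → ℝ := (r.As p q x)⁻¹.mulVec (z - r.xs p q x)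

/-- The step described by the data. -/
def ss (x : Bx) : SS where
  h := r.hn / 128
  yS j z := r.yy p q (-1) z j
  yE j z := r.yy p q 1 z j
  R j := r.R j / 2 ^ 24
  d j := r.d x j / 2 ^ 24
  out z := ∃ y : I6 → ℝ, (∀ j, |y j| ≤ 1) ∧ z = r.xs p q 1 + (r.As p q 1).mulVec y ∧
    r.yy p q 1 z = y

/-- The cone described by the data. -/
def cone (x : Bx) : LC := ⟨r.As p q 1, r.xs p q 1 .i0, r.xs p q 1 .i1, r.xs p q 1 .i2,
  r.xs p q 1 .i3, r.xs p q 1 .i4, fun i => r.dc x i / 2 ^ 24⟩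
end Raw

end Pool.Agent.Lib.MP_6e7c44_mp.MR
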