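import Pool.Agent.Lib.MP_6e7c44_mp.MR.Sem

/-! The models read off from the data represent the polynomials. -/

set_option autoImplicit false

open Set Filter Topology

noncomputable section

namespace Pool.Agent.Lib.MP_6e7c44_mp.MR

open LA hiding TM Rep Pt Raw mX mA mB

variable {x : Bx} {k ν : ℝ}

theorem Par.reps {π : Pt} (h : Par x k ν π.p π.q) (hx : x.ok = true) :
    Rep π 21 0 1 0 x.cp (1 / 2 + k) ∧ Rep π 21 0 1 0 x.cm (1 / 2 - k) ∧ Rep π 21 0 1 0 x.nu ν ∧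
      |k| ≤ 1 / 2 ∧ 0 ≤ ν ∧ ν ≤ 1 / 2 ∧ ν * 2 ^ 20 ≤ x.d := by
  simp only [Bx.ok, Bool.and_eq_true, Nat.blt_eq, Nat.ble_eq, p2_eq, Nat.mul_eq] at hx
  obtain ⟨h1, h2, h3, h4⟩ := hx
  have hk := h.hk
  have hν := h.hν
  obtain ⟨p1, p2'⟩ := abs_le.1 h.hp
  obtain ⟨q1, q2⟩ := abs_le.1 h.hq
  have e1 : ((Nat.sub x.b x.a : ℕ) : ℝ) = x.b - x.a := Nat.cast_sub h1.le
  have e2 : ((Nat.sub x.d x.c : ℕ) : ℝ) = x.d - x.c := Nat.cast_sub h2.le
  have e3 : ((Nat.sub (p2 20) (Nat.add x.a x.b) : ℕ) : ℝ) = 2 ^ 20 - (x.a + x.b) := by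
    rw [p2_eq, Nat.sub_eq, Nat.add_eq, Nat.cast_sub (by omega)]; push_cast; ring
  have e4 : ((Nat.add (p2 20) (Nat.add x.a x.b) : ℕ) : ℝ) = 2 ^ 20 + (x.a + x.b) := by
    rw [p2_eq, Nat.add_eq, Nat.add_eq]; push_cast; ring
  have e5 : ((Nat.add x.c x.d : ℕ) : ℝ) = x.c + x.d := Nat.cast_add _ _
  have r1 : (x.a : ℝ) < x.b := Nat.cast_lt.2 h1
  have r2 : (x.c : ℝ) < x.d := Nat.cast_lt.2 h2
  have r3 : 2 * (x.b : ℝ) ≤ 2 ^ 20 := by exact_mod_cast h3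
  have r4 : 2 * (x.d : ℝ) ≤ 2 ^ 20 := by exact_mod_cast h4
  have a0 : (0 : ℝ) ≤ x.a := Nat.cast_nonneg _
  have c0 : (0 : ℝ) ≤ x.c := Nat.cast_nonneg _
  have sp := fun n => (Rep.cst π 21 0 0 0 n).shp (by decide) (by decide)
  have sq := fun n => (Rep.cst π 21 0 0 0 n).shq (by decide) (by decide)
  have m1 := mul_le_mul_of_nonneg_left p1 (sub_pos.2 r1).le
  have m2 := mul_le_mul_of_nonneg_left p2' (sub_pos.2 r1).le
  have m3 := mul_le_mul_of_nonneg_left q1 (sub_pos.2 r2).le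
  have m4 := mul_le_mul_of_nonneg_left q2 (sub_pos.2 r2).le
  refine ⟨((Rep.cst π 21 0 1 0 _).add (sp _)).congr ?_, ((Rep.cst π 21 0 1 0 _).sub (sp _)).congr ?_,
    ((Rep.cst π 21 0 1 0 _).add (sq _)).congr ?_, abs_le.2 ⟨?_, ?_⟩, ?_, ?_, ?_⟩
  · rw [e1, e3]; linarith
  · rw [e1, e4]; linarith
  · rw [e2, e5]; linarith
  all_goals linarith

lemma ex0 (π : Pt) {b dx dp : ℕ} {t : ℕ → Bool} (hb : b ≤ 114) (ht : ∀ k, t k → k ≤ dx)
    (e P N : ℕ) : Rep π e dx dp 0 (TM.ex (msk cM b (sr dp r0) t) P N)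
      (pol b dp t P N 0 π.p π.q π.x / 2 ^ e) :=
  (Rep.ex π hb h_r0 ht e P N).congr (by simp [r0, zz, pol])

lemma ex1 (π : Pt) {b dx dp : ℕ} {t : ℕ → Bool} (hb : b ≤ 114) (ht : ∀ k, t k → k ≤ dx)
    (e P N : ℕ) : Rep π e dx dp 6 (TM.ex (msk cM b (sr dp r1) t) P N)
      ((∑ j : I6, pol b dp t P N j.n π.p π.q π.x * π.y j) / 2 ^ e) :=
  (Rep.ex π hb h_r1 ht e P N).congr (by
    simp only [I6.sum, Finset.sum_range_succ, Finset.sum_range_zero]
    simp [r1, zz, pol, I6.n, mul_comm])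

lemma pw_sl (b dp : ℕ) (t : ℕ → Bool) (P : ℕ) (j : I6) (x p q : ℝ) :
    pw b dp t (sl P j) 0 x p q = pw b dp t P j.n x p q := by
  have e : ∀ i, dg 128 b (sl P j) i = dg 128 b P (602 * j.n + i) := fun i =>
    dg_shift 128 b P i (602 * j.n)
  simp only [pw, e]
  refine Finset.sum_congr rfl fun i _ => ?_
  simp only [show ∀ k, 602 * j.n + (14 * (43 * 0 + i) + k) = 14 * (43 * j.n + i) + k from
    fun k => by ring]

/-- The derivative in the time. -/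
def dpw (b dp P ρ : ℕ) (x p q : ℝ) : ℝ := pw b dp (cb 0) (Nat.shiftRight P 128) ρ x p q
  + 2 * pw b dp (cb 1) (Nat.shiftRight P 128) ρ x p q
  + 4 * pw b dp (cb 2) (Nat.shiftRight P 128) ρ x p q

lemma row_der (c : ℕ → ℝ) (x : ℝ) :
    HasDerivAt (fun x : ℝ => ∑ k ∈ Finset.range 14, if cl 5 k then c k * x ^ k else 0)
      ((∑ k ∈ Finset.range 14, if cb 0 k then c (k + 1) * x ^ k else 0)
        + 2 * (∑ k ∈ Finset.range 14, if cb 1 k then c (k + 1) * x ^ k else 0)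
        + 4 * (∑ k ∈ Finset.range 14, if cb 2 k then c (k + 1) * x ^ k else 0)) x := by
  have h := HasDerivAt.fun_sum (u := Finset.range 6) fun k _ =>
    (hasDerivAt_pow k x).const_mul (c k)
  have e : (fun x : ℝ => ∑ k ∈ Finset.range 14, if cl 5 k then c k * x ^ k else 0)
      = fun x : ℝ => ∑ k ∈ Finset.range 6, c k * x ^ k := by
    funext y
    simp [Finset.sum_range_succ, cl]
  rw [e]
  refine h.congr_deriv ?_
  simp [Finset.sum_range_succ, cb, Nat.testBit]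
  ring

lemma pw_der (b dp P ρ : ℕ) (x p q : ℝ) :
    HasDerivAt (fun x => pw b dp (cl 5) P ρ x p q) (dpw b dp P ρ x p q) x := by
  have e : ∀ i, dg 128 b (Nat.shiftRight P 128) i = dg 128 b P (i + 1) := fun i => by
    rw [add_comm]; exact dg_shift 128 b P i 1
  simp only [dpw, pw, e, Finset.mul_sum, ← Finset.sum_add_distrib]
  refine HasDerivAt.fun_sum fun j _ => ?_
  by_cases h : sp dp j = true
  · simp only [h, if_true]
    have := (row_der (fun k => dg 128 b P (14 * (43 * ρ + j) + k)) x).const_mul (ψ p q j)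
    simp only [Finset.mul_sum, mul_add] at this ⊢
    refine this.congr_deriv ?_
    simp only [add_assoc, mul_left_comm]
  · simp only [h]
    simpa using hasDerivAt_const x (0 : ℝ)

def dpol (b dp P N ρ : ℕ) (p q x : ℝ) : ℝ := dpw b dp P ρ x p q - dpw b dp N ρ x p q

lemma pol_der (b dp P N ρ : ℕ) (p q x : ℝ) :
    HasDerivAt (fun x => pol b dp (cl 5) P N ρ p q x) (dpol b dp P N ρ p q x) x :=
  (pw_der ..).sub (pw_der ..)

lemma drX (π : Pt) (P N : ℕ) :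
    Rep π 0 5 3 0 (dr mX P N) (dpol 41 3 P N 0 π.p π.q π.x) := by
  have H := fun b => ex0 π (b := 41) (dp := 3) (by decide) (h_cb b) 0
    (Nat.shiftRight P 128) (Nat.shiftRight N 128)
  rw [dr, dr1, e_mX0, e_mX1, e_mX2]
  refine (((H 0).add (((H 1).up 1).scale
    (b := 2 * pol 41 3 (cb 1) (Nat.shiftRight P 128) (Nat.shiftRight N 128) 0 π.p π.q π.x) ?_)).add
    (((H 2).up 2).scale
    (b := 4 * pol 41 3 (cb 2) (Nat.shiftRight P 128) (Nat.shiftRight N 128) 0 π.p π.q π.x) ?_)).congr ?_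
  · ring
  · ring
  · simp only [dpol, dpw, pol]; ring

lemma drA (π : Pt) (P N : ℕ) :
    Rep π 0 5 1 6 (dr mA P N) (∑ j : I6, dpol 31 1 P N j.n π.p π.q π.x * π.y j) := by
  have H := fun b => ex1 π (b := 31) (dp := 1) (by decide) (h_cb b) 0
    (Nat.shiftRight P 128) (Nat.shiftRight N 128)
  rw [dr, dr1, e_mA0, e_mA1, e_mA2]
  refine (((H 0).add (((H 1).up 1).scale (b := 2 * ∑ j : I6,
    pol 31 1 (cb 1) (Nat.shiftRight P 128) (Nat.shiftRight N 128) j.n π.p π.q π.x * π.y j) ?_)).add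
    (((H 2).up 2).scale (b := 4 * ∑ j : I6,
    pol 31 1 (cb 2) (Nat.shiftRight P 128) (Nat.shiftRight N 128) j.n π.p π.q π.x * π.y j) ?_)).congr ?_
  · ring
  · ring
  · simp only [dpol, dpw, pol, I6.sum]; ring

lemma repL (π : Pt) (i : I6) : Rep π 36 5 3 0 (XL i) (xL i) := by
  have h3 : Rep π 36 5 3 0 s3 (√3 / 2) := by
    refine (Rep.cst π 36 5 3 0 59512812588).err ?_
    have a1 : (59512812588 * 2 / 2 ^ 36 : ℝ) ≤ √3 := Real.le_sqrt_of_sq_le (by norm_num)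
    have a2 : √3 ≤ (59512812589 * 2 / 2 ^ 36 : ℝ) := Real.sqrt_le_iff.2 ⟨by norm_num, by norm_num⟩
    rw [abs_of_nonneg (by push_cast; linarith)]
    push_cast
    linarith
  cases i
  · exact Rep.cs _ _ _ _ _ (by simp [xL, co, lag])
  · exact Rep.cs _ _ _ _ _ (by simp [xL, co, lag, p2_eq]; norm_num)
  · exact Rep.cs _ _ _ _ _ (by simp [xL, co, lag, cL])
  · exact h3.congr (by simp [xL, co, lag, cL])
  · exact h3.neg.congr (by simp [xL, co, lag, cL])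
  · exact Rep.cs _ _ _ _ _ (by simp [xL, co, lag, cL])

namespace Raw
variable (r : Raw)

lemma repE (π : Pt) (i : I6) :
    Rep π 44 5 1 6 (r.E i) ((r.As π.p π.q π.x).mulVec π.y i) := by
  rw [E, e_mA]
  refine ((ex1 π (b := 31) (dp := 1) (by decide) (h_cl 5) 0 (r.ap i) (r.an i)).up r.u).scale ?_
  simp only [As, Matrix.mulVec, dotProduct, Matrix.of_apply, I6.sum]
  ring

lemma repB (π : Pt) (i l : I6) : Rep π 0 3 1 0 (r.B i l) (r.Bs π.p π.q π.x i l) := by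
  rw [B, e_mB]
  exact (ex0 π (b := 20) (dp := 1) (by decide) (h_cl 3) 0 _ _).congr (by simp [Bs])

lemma repX (π : Pt) (P N : ℕ) : Rep π 36 5 3 0 (TM.ex (mX (gs 1 6)) P N)
    (pol 41 3 (cl 5) P N 0 π.p π.q π.x / 2 ^ 36) := by
  rw [e_mX]
  exact ex0 π (b := 41) (dp := 3) (by decide) (h_cl 5) 36 _ _

theorem sem (x : Bx) (b : Pb) :
    Sem (r.cr x) b (r.xs b.p b.q b.x) (r.As b.p b.q b.x) (r.Bs b.p b.q b.x) :=
  ⟨fun y hy _ => repX (b.pt y hy) _ _, fun y hy i => r.repE (b.pt y hy) i,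
    fun y hy _ => ⟨_, repX (b.pt y hy) _ _⟩, fun y hy i l => r.repB (b.pt y hy) i l⟩

theorem semL (x : Bx) (b : Pb) : Sem (r.lc x) b xL (r.As b.p b.q b.x) (r.Bs b.p b.q b.x) :=
  ⟨fun y hy i => repL (b.pt y hy) i, fun y hy i => r.repE (b.pt y hy) i,
    fun y hy _ => ⟨_, Rep.cst (b.pt y hy) 36 5 3 0 _⟩, fun y hy i l => r.repB (b.pt y hy) i l⟩

theorem rcy (π : Pt) (l j i : I6) :
    Rep π 44 5 1 6 (r.cy l j i) (r.As π.p π.q π.x l j * π.y i) := by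
  rw [cy, e_mC]
  refine (((ex0 π (b := 31) (dp := 1) (by decide) (h_cl 5) 0 (sl (r.ap l) j)
    (sl (r.an l) j)).shy i (by decide) (by decide)).up r.u).scale ?_
  simp only [As, Matrix.of_apply, pol, pw_sl]
  ring

theorem der (p q : ℝ) : ∃ (dx : ℝ → I6 → ℝ) (dA : ℝ → Matrix I6 I6 ℝ),
    (∀ x i, HasDerivAt (fun s => r.xs p q s i) (dx x i) x) ∧
    (∀ x i j, HasDerivAt (fun s => r.As p q s i j) (dA x i j) x) ∧
    ∀ π : Pt, π.p = p → π.q = q → ∀ i,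
      Rep π 92 5 3 6 (r.dZ i) ((dA π.x).mulVec π.y i + dx π.x i) := by
  refine ⟨fun x i => dpol 41 3 (r.xp i) (r.xn i) 0 p q x / 2 ^ 36,
    fun x => .of fun k j => dpol 31 1 (r.ap k) (r.an k) j.n p q x * 2 ^ r.u / 2 ^ 44,
    fun x i => (pol_der ..).div_const _, fun x i j => ((pol_der ..).mul_const _).div_const _, ?_⟩
  rintro π rfl rfl i
  refine (((((drA π (r.ap i) (r.an i)).up r.u).mono le_rfl (by decide) le_rfl).scale (f := 44) ?_).add
    ((((drX π (r.xp i) (r.xn i)).up 8).mono le_rfl le_rfl (by decide)).scale (f := 44) ?_)).up 48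
  · simp only [Matrix.mulVec, dotProduct, Matrix.of_apply, I6.sum]
    ring
  · ring

end Raw

end Pool.Agent.Lib.MP_6e7c44_mp.MR
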