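import Pool.Agent.Lib.MP_6e7c44_mp.MR.Core
import Pool.Agent.Lib.MP_6e7c44_mp.MR.Fld

/-! Soundness of the checker of a step. -/

set_option autoImplicit false

open Set Filter Topology

noncomputable section

namespace Pool.Agent.Lib.MP_6e7c44_mp.MR

open LA hiding TM Rep Pt Raw mX mA mB

namespace Raw
variable {r : Raw} {x : Bx} {k ν p q : ℝ}

lemma ok_iff (h : r.ok x = true) : 0 < r.hn ∧ (r.cr x).ok = true ∧
    ∀ i, 0 < r.R i ∧ r.R i + r.d x i < 2 ^ 24 := by
  simp only [ok, Bool.and_eq_true, all6_iff, okR, Nat.blt_eq, Nat.add_eq, p2_eq] at h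
  exact h

lemma yy_spec {t : ℝ} (h : (r.As p q t).det ≠ 0) (z : I6 → ℝ) :
    r.xs p q t + (r.As p q t).mulVec (r.yy p q t z) = z := by
  rw [yy, Matrix.mulVec_mulVec, Matrix.mul_nonsing_inv _ (Ne.isUnit h), Matrix.one_mulVec,
    add_sub_cancel]

/-- The bound of the derivative of the coordinates. -/
lemma drift (h : r.ok x = true) {b : Pb} (hp : Par x k ν b.p b.q) {y : I6 → ℝ}
    (hy : ∀ j, |y j| ≤ 1) {z w : I6 → ℝ} (hz : ∀ l, Rep (b.pt y hy) 92 5 3 6 (r.dZ l) (z l))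
    (hw : ∀ l, (r.As b.p b.q b.x).mulVec w l =
      r.hn / 256 * fr k ν (r.xs b.p b.q b.x + (r.As b.p b.q b.x).mulVec y) l - z l) (i : I6) :
    2 * |w i| ≤ r.d x i / 2 ^ 24 := by
  have hc := (ok_iff h).2.1
  have c := Cr.gg_le hc (r.sem x b) hy (v := r.G x) (w := w) (fun l => by
    obtain ⟨v, v1, v2⟩ := (Cr.fld hc hp (r.sem x b) hy).2 l
    have v3 := v2 1 ⟨zero_le_one, le_rfl⟩
    rw [one_smul, sub_self, zero_mul, zero_add, one_mul, one_mul] at v3
    refine (Rep.tG 24 (((v1.smul r.hn).scale (f := 68 + 24) (b := r.hn / 256 * v) (by ring)).sub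
      ((hz l).mono (by decide) (by decide) le_rfl))).err (le_trans ?_ (le_dn _ _))
    rw [hw, sub_sub_sub_cancel_right, ← mul_sub, abs_mul, Nat.mul_eq, Nat.cast_mul,
      abs_of_nonneg (by positivity)]
    have := mul_le_mul_of_nonneg_left v3 (Nat.cast_nonneg (α := ℝ) r.hn)
    linarith) i
  simp only [d, Nat.mul_eq, Nat.cast_mul, Nat.cast_ofNat]
  linarith

end Raw

theorem Raw.ss_ok {r : Raw} {x : Bx} {k ν p q : ℝ} (h : r.ok x = true) (hp : Par x k ν p q) :
    OK k ν (r.ss p q x) := by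
  obtain ⟨hn, hc, hi⟩ := Raw.ok_iff h
  obtain ⟨dx, dA, xd, Ad, hZ⟩ := r.der p q
  have hn' : (0 : ℝ) < r.hn := by exact_mod_cast hn
  refine ⟨by simp only [Raw.ss]; positivity, fun j => ?_, fun j => ?_, fun X hX τ hb => ?_⟩
  · have : (0 : ℝ) < r.R j := by exact_mod_cast (hi j).1
    exact div_pos this (by positivity)
  · simp only [Raw.ss, Raw.yy, Matrix.mulVec, dotProduct, Pi.sub_apply]
    fun_prop
  have dt : ∀ t : ℝ, HasDerivAt (fun s : ℝ => τ + (s + 1) * (r.hn / 256)) (r.hn / 256) t :=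
    fun t => by simpa using (((hasDerivAt_id t).add_const 1).mul_const (r.hn / 256 : ℝ)).const_add τ
  set T := fun s : ℝ => τ + (s + 1) * (r.hn / 256 : ℝ) with hT
  have cT : Continuous T := by fun_prop
  have e0 : T (-1) = τ := by simp [hT]
  have ab : ∀ t ∈ Icc (-1 : ℝ) 1, |t| ≤ 1 := fun t ht => abs_le.2 ht
  have dn0 : ∀ t ∈ Icc (-1 : ℝ) 1, (r.As p q t).det ≠ 0 := fun t ht =>
    Cr.det_ne hc (r.sem x ⟨t, p, q, ab t ht, hp.hp, hp.hq⟩)
  have di := fun t ht => diff_inv (fun k j => (Ad t k j).differentiableAt) (dn0 t ht)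
  have sf : ∀ t ∈ Icc (-1 : ℝ) 1, (∀ j, |r.yy p q t (X (T t)) j| ≤ 1) → Safe (X (T t)) :=
    fun t ht hy => by
      have := (Cr.fld hc (b := ⟨t, p, q, ab t ht, hp.hp, hp.hq⟩) hp (r.sem x _) hy).1 1
        ⟨zero_le_one, le_rfl⟩
      rwa [one_smul, Raw.yy_spec (dn0 t ht)] at this
  obtain ⟨k1, k2⟩ := boot (y := fun t => r.yy p q t (X (T t))) (R := (r.ss p q x).R)
    (d := (r.ss p q x).d)
    (fun j t ht => by
      simp only [Raw.yy, Matrix.mulVec, dotProduct, Pi.sub_apply]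
      refine ContinuousAt.continuousWithinAt (tendsto_finsetSum _ fun l _ => ?_)
      exact (di t ht j l).continuousAt.mul ((((continuous_apply l).comp
        (hX.cont.comp cT)).continuousAt).sub (xd t l).continuousAt))
    (by rw [e0]; exact hb) (fun j => by
      have : (r.R j : ℝ) + r.d x j < 2 ^ 24 := by exact_mod_cast (hi j).2
      simp only [Raw.ss]
      linarith) (fun j => div_nonneg (Nat.cast_nonneg _) (by positivity)) fun t ht hy j => by
    have d1 : ∀ l, HasDerivAt (fun s => X (T s) l) (fr k ν (X (T t)) l * (r.hn / 256)) t :=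
      fun l => (hX.der _ (sf t ht hy) l).comp t (dt t)
    have d2 : ∀ j, DifferentiableAt ℝ (fun s => r.yy p q s (X (T s)) j) t := fun j => by
      simp only [Raw.yy, Matrix.mulVec, dotProduct, Pi.sub_apply]
      exact DifferentiableAt.fun_sum fun l _ =>
        (di t ht j l).mul ((d1 l).sub (xd t l)).differentiableAt
    refine ⟨_, Raw.drift h (b := ⟨t, p, q, ab t ht, hp.hp, hp.hq⟩) hp hy (w := fun j => deriv
      (fun s => r.yy p q s (X (T s)) j) t) (hZ _ rfl rfl) (fun l => ?_) j, (d2 j).hasDerivAt⟩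
    have d3 := (xd t l).add (HasDerivAt.fun_sum (u := Finset.univ) fun j _ =>
      (Ad t l j).mul (d2 j).hasDerivAt)
    have ev : ∀ᶠ s in 𝓝 t, (r.As p q s).det ≠ 0 :=
      (diff_det fun k j => (Ad t k j).differentiableAt).continuousAt.eventually_ne (dn0 t ht)
    have d4 := (d1 l).unique (d3.congr_of_eventuallyEq (ev.mono fun s hs =>
      (congrFun (Raw.yy_spec hs (X (T s))) l).symm))
    simp only [Raw.yy_spec (dn0 t ht), Pb.pt]
    simp only [Finset.sum_add_distrib] at d4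
    simp only [Matrix.mulVec, dotProduct]
    linarith
  have e1 : T 1 = τ + (r.ss p q x).h := by simp only [hT, Raw.ss]; ring
  have m1 : (1 : ℝ) ∈ Icc (-1 : ℝ) 1 := ⟨by norm_num, le_rfl⟩
  refine ⟨fun t ht => ?_, by rw [e0, e1] at k2; exact k2, ?_⟩
  · have m : (t - τ) / (r.hn / 256) - 1 ∈ Icc (-1 : ℝ) 1 := by
      have := ht.2
      simp only [Raw.ss] at this
      constructor
      · linarith [div_nonneg (sub_nonneg.2 ht.1) (show (0 : ℝ) ≤ r.hn / 256 by positivity)]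
      · rw [sub_le_iff_le_add, div_le_iff₀ (by positivity)]; linarith
    have := sf _ m (k1 _ m)
    rwa [show T ((t - τ) / (r.hn / 256) - 1) = t by simp only [hT]; field_simp; ring] at this
  · rw [← e1]
    exact ⟨_, k1 1 m1, (Raw.yy_spec (dn0 1 m1) _).symm, rfl⟩

end Pool.Agent.Lib.MP_6e7c44_mp.MR
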