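import Pool.Agent.Lib.MP_6e7c44_mp.MR.Esc

/-! Chains of steps. -/

set_option autoImplicit false

open Set Complex Filter Topology

noncomputable section

namespace Pool.Agent.Lib.MP_6e7c44_mp.MR

open LA

/-- The reduced field in real coordinates. -/
theorem co_der {μ : Fin 3 → ℝ} {γ : ℝ → Z3} {g t : ℝ} (h : HasDerivAt γ (g • GR μ (γ t)) t)
    (i : I6) : HasDerivAt (fun s => co (γ s) i) (g * fr ((μ 0 - μ 1) / 2) (μ 2) (co (γ t)) i) t := by
  have d1 := (ContinuousLinearMap.fst ℝ ℂ (ℂ × ℂ)).hasFDerivAt.comp_hasDerivAt t h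
  have d' := (ContinuousLinearMap.snd ℝ ℂ (ℂ × ℂ)).hasFDerivAt.comp_hasDerivAt t h
  have d2 := (ContinuousLinearMap.fst ℝ ℂ ℂ).hasFDerivAt.comp_hasDerivAt t d'
  have d3 := (ContinuousLinearMap.snd ℝ ℂ ℂ).hasFDerivAt.comp_hasDerivAt t d'
  cases i
  · refine (reCLM.hasFDerivAt.comp_hasDerivAt t d1).congr_deriv ?_
    simp [GR, Kp, Sg, Fc, fr, co, yc_co]; ring
  · refine (imCLM.hasFDerivAt.comp_hasDerivAt t d1).congr_deriv ?_
    simp [GR, Kp, Sg, Fc, fr, co, yc_co]; ring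
  · refine (reCLM.hasFDerivAt.comp_hasDerivAt t d2).congr_deriv ?_
    simp [GR, fr, co]
  · refine (imCLM.hasFDerivAt.comp_hasDerivAt t d2).congr_deriv ?_
    simp [GR, fr, co]
  · refine (reCLM.hasFDerivAt.comp_hasDerivAt t d3).congr_deriv ?_
    simp [GR, Sg, Fc, fr, co, yc_co]; ring
  · refine (imCLM.hasFDerivAt.comp_hasDerivAt t d3).congr_deriv ?_
    simp [GR, Sg, Fc, fr, co, yc_co]; ring

theorem exists_step {μ : Fin 3 → ℝ} (hμ : RS.Ms μ) : ∃ Φ : ℝ → Z3 → Z3,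
    (∀ t, Continuous (Φ t)) ∧ ∀ z, NC z → (∀ t, NC (Φ t z)) ∧ ∀ s : SS,
      OK ((μ 0 - μ 1) / 2) (μ 2) s → s.Box (co z) →
      (∀ j, |s.yE j (co (Φ s.h z)) - s.yS j (co z)| ≤ s.d j) ∧ s.out (co (Φ s.h z)) ∧
      (EscR μ (Φ s.h z) → EscR μ z) := by
  obtain ⟨Φ, β, c1, f0, c2, -, b1, hf⟩ :=
    cutoff_flow isOpen_NC safe_cpt (fun _ h => safe_nc h) (cd_GR μ)
  refine ⟨Φ, fun t => c1.comp (Continuous.prodMk_right t), fun z hz =>
    ⟨fun t => (hf z hz t).1, fun s hs hb => ?_⟩⟩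
  have cγ : Continuous fun t => Φ t z := c1.comp (Continuous.prodMk_left z)
  have := hs.step (fun t => co (Φ t z)) ⟨co_cont.comp cγ, fun t ht i => by
    simpa [b1 _ ht] using co_der (hf z hz t).2 i⟩ 0 (by rwa [f0])
  rw [zero_add, f0] at this
  refine ⟨this.2.1, this.2.2, fun h => ?_⟩
  have := RS.back hμ (c2.comp cγ) hs.h0 (hf z hz) (fun t ht => by simp [b1 _ (this.1 t ht)]) h
  rwa [f0] at this

theorem Chain.ok {k ν : ℝ} {n : ℕ} {s : SS} {l : List SS} (h : Chain k ν n s l) : OK k ν s := by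
  cases l <;> cases n <;> exact h.1

theorem lk_le {k a b y R d D R' : ℝ} (k0 : 0 ≤ k) (h1 : |b| ≤ R) (h2 : |a - b| ≤ d)
    (h3 : |y - k * a| ≤ D) (h4 : k * (R + d) + D ≤ R') : |y| ≤ R' := by
  have h5 : |k * a| ≤ k * (R + d) := by
    rw [abs_mul, abs_of_nonneg k0]
    exact mul_le_mul_of_nonneg_left (by linarith [abs_sub_abs_le_abs_sub a b]) k0
  linarith [abs_sub_abs_le_abs_sub y (k * a)]

theorem sign_ge {u y R' : ℝ} (R1 : 0 < R') (h : 0 < u ∧ R' ≤ y ∨ u < 0 ∧ y ≤ -R') :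
    1 ≤ |y / R'| ∧ ∀ t ∈ Icc (0 : ℝ) 1, (1 - t) * u + t * (y / R') ≠ 0 := by
  rcases h with h | h
  · have : 1 ≤ y / R' := by rw [le_div_iff₀ R1]; linarith [h.2]
    refine ⟨this.trans (le_abs_self _), fun t ht => ?_⟩
    rcases ht.2.eq_or_lt with e | e
    · rw [e]; linarith
    · nlinarith [ht.1, mul_pos (sub_pos.2 e) h.1]
  · have : y / R' ≤ -1 := by rw [div_le_iff₀ R1]; linarith [h.2]
    refine ⟨by linarith [neg_le_abs (y / R')], fun t ht => ?_⟩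
    rcases ht.2.eq_or_lt with e | e
    · rw [e]; linarith
    · nlinarith [ht.1, mul_pos (sub_pos.2 e) (neg_pos.2 h.1)]

theorem lk_ge {k a b y R d D R' : ℝ} (k0 : 0 ≤ k) (R0 : 0 < R) (R1 : 0 < R') (h1 : |b / R| = 1)
    (h2 : |a - b| ≤ d) (h3 : |y - k * a| ≤ D) (h4 : R' + D ≤ k * (R - d)) :
    1 ≤ |y / R'| ∧ ∀ t ∈ Icc (0 : ℝ) 1, (1 - t) * (b / R) + t * (y / R') ≠ 0 := by
  have h5 := abs_le.1 h2
  have h6 := abs_le.1 h3
  refine sign_ge R1 ?_
  rcases (abs_eq zero_le_one).1 h1 with h | h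
  · refine Or.inl ⟨by rw [h]; exact one_pos, ?_⟩
    rw [div_eq_iff R0.ne'] at h
    nlinarith [mul_le_mul_of_nonneg_left (show R - d ≤ a by linarith) k0]
  · refine Or.inr ⟨by rw [h]; norm_num, ?_⟩
    rw [div_eq_iff R0.ne'] at h
    nlinarith [mul_le_mul_of_nonneg_left (show a ≤ -(R - d) by linarith) k0]

theorem OK.cg {k ν : ℝ} {s : SS} (h : OK k ν s) : Continuous s.g := by
  have h0 := h.cS .i0
  have h1 := h.cS .i1
  have : s.g = fun x => ((s.yS .i0 x / s.R .i0 : ℝ) : ℂ) + ((s.yS .i1 x / s.R .i1 : ℝ) : ℂ) * I :=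
    funext fun x => by rw [SS.g, mk_eq_add_mul_I]
  rw [this]
  fun_prop

theorem box_exit {s : SS} {x : I6 → ℝ} {j : I6} (R0 : 0 < s.R j) (h1 : nM (s.g x) ≤ 1)
    (hj : j = .i0 ∨ j = .i1) : |s.yS j x| ≤ s.R j := by
  rw [← div_le_one R0, ← abs_of_pos R0, ← abs_div]
  rcases hj with rfl | rfl
  exacts [(le_max_left _ _).trans h1, (le_max_right _ _).trans h1]

theorem chain_main {μ : Fin 3 → ℝ} (hμ : RS.Ms μ) {X : ℂ → Z3} (cX : Continuous X)
    (nX : ∀ ξ, NC (X ξ)) {A : Set ℂ} (hA : IsClosed A) {n : ℕ} {s : SS} {l : List SS}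
    (hc : Chain ((μ 0 - μ 1) / 2) (μ 2) n s l) (he : Ess nM A fun ξ => s.g (co (X ξ)))
    (hb : ∀ ξ ∈ A, nM (s.g (co (X ξ))) ≤ 1 → s.Box (co (X ξ))) :
    ∃ ξ ∈ A, EscR μ (X ξ) := by
  obtain ⟨Φ, cΦ, hΦ⟩ := exists_step hμ
  have pt : ∀ (l : List SS) (s : SS) (z : Z3), Chain ((μ 0 - μ 1) / 2) (μ 2) 0 s l → NC z →
      s.Box (co z) → EscR μ z := by
    intro l
    induction l with
    | nil =>
      intro s z hc hz hb
      obtain ⟨-, h2, h4⟩ := (hΦ z hz).2 s hc.1 hb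
      exact h4 (escape hμ (hc.2 _ h2))
    | cons s' l ih =>
      intro s z hc hz hb
      obtain ⟨h1, h2, h4⟩ := (hΦ z hz).2 s hc.1 hb
      refine h4 (ih s' _ hc.2.2 ((hΦ z hz).1 _) fun j => ?_)
      obtain ⟨k, D, k0, k1, k2⟩ := hc.2.1 j
      rw [if_neg (by simp)] at k2
      exact lk_le k0 (hb j) (h1 j) (k1 _ h2) k2
  have base : ∀ {X : ℂ → Z3}, Continuous X → (∀ ξ, NC (X ξ)) → ∀ {A : Set ℂ} {s : SS}
      {l : List SS}, Chain ((μ 0 - μ 1) / 2) (μ 2) 0 s l → (Ess nM A fun ξ => s.g (co (X ξ))) →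
      (∀ ξ ∈ A, nM (s.g (co (X ξ))) ≤ 1 → s.Box (co (X ξ))) →
      ∃ ξ ∈ A, EscR μ (X ξ) := fun cX nX A s l hc he hb => by
    obtain ⟨ξ, hξ, h0⟩ := he _ (hc.ok.cg.comp (co_cont.comp cX)).continuousOn fun _ _ _ => rfl
    exact ⟨ξ, hξ, pt l s _ hc (nX ξ)
      (hb ξ hξ (by simp only [Function.comp] at h0; simp [h0, nM]))⟩
  have cN : Continuous nM := continuous_re.abs.max continuous_im.abs
  induction l generalizing n s X A with
  | nil => exact base cX nX (l := []) (by cases n <;> exact hc) he hb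
  | cons s' l ih =>
    cases n with
    | zero => exact base cX nX hc he hb
    | succ n =>
      obtain ⟨ok, lk, hc'⟩ := hc
      have cg := ok.cg.comp (co_cont.comp cX)
      have cX' := (cΦ s.h).comp cX
      have ok' := hc'.ok
      obtain ⟨ξ, hξ, h⟩ := ih (X := fun ξ => Φ s.h (X ξ)) cX' (fun ξ => (hΦ _ (nX ξ)).1 _)
        (hA.inter (isClosed_le (cN.comp cg) continuous_const)) hc'
        (ess_step cN (by simp [nM]) hA cg (ok'.cg.comp (co_cont.comp cX')) he fun ξ hξ h1 => by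
          obtain ⟨h2, h3, -⟩ := (hΦ _ (nX ξ)).2 s ok (hb ξ hξ h1.le)
          obtain ⟨k, D, k0, k1, k2⟩ := lk .i0
          obtain ⟨m, E, m0, m1, m2⟩ := lk .i1
          rw [if_pos (by simp)] at k2 m2
          rcases max_choice |(s.g (co (X ξ))).re| |(s.g (co (X ξ))).im| with e | e
          · have := lk_ge k0 (ok.R0 _) (ok'.R0 _) (e.symm.trans h1) (h2 .i0) (k1 _ h3) k2
            exact ⟨this.1.trans (le_max_left _ _), fun t ht h0 =>
              this.2 t ht (by simpa [SS.g] using congrArg re h0)⟩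
          · have := lk_ge m0 (ok.R0 _) (ok'.R0 _) (e.symm.trans h1) (h2 .i1) (m1 _ h3) m2
            exact ⟨this.1.trans (le_max_right _ _), fun t ht h0 =>
              this.2 t ht (by simpa [SS.g] using congrArg im h0)⟩)
        fun ξ hξ h1 j => by
          have hb' := hb ξ hξ.1 hξ.2
          obtain ⟨h2, h3, -⟩ := (hΦ _ (nX ξ)).2 s ok hb'
          by_cases hj : j = .i0 ∨ j = .i1
          · exact box_exit (ok'.R0 j) h1 hj
          · obtain ⟨k, D, k0, k1, k2⟩ := lk j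
            rw [if_neg (by simp [hj])] at k2
            exact lk_le k0 (hb' j) (h2 j) (k1 _ h3) k2
      exact ⟨ξ, hξ.1, ((hΦ _ (nX ξ)).2 s ok (hb ξ hξ.1 hξ.2)).2.2 h⟩

end Pool.Agent.Lib.MP_6e7c44_mp.MR
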